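import Mathlib

/-!
Integrals of jointly continuous families of holomorphic functions are holomorphic.
-/

open Set Filter Topology MeasureTheory Metric

namespace Pool.Agent.CritPer

/-- Integral of a jointly continuous family, holomorphic in the parameter. -/
theorem differentiableOn_integral {F : ℂ → ℝ → ℂ} {U : Set ℂ} (hU : IsOpen U) {α β : ℝ}
    (hαβ : α ≤ β) (hc : ContinuousOn (Function.uncurry F) (U ×ˢ Icc α β))
    (hd : ∀ t ∈ Icc α β, DifferentiableOn ℂ (fun b => F b t) U) :
    DifferentiableOn ℂ (fun b => ∫ t in α..β, F b t) U := by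
  intro b0 hb0
  obtain ⟨r, hr, hrU⟩ : ∃ r > 0, closedBall b0 (2 * r) ⊆ U := by
    obtain ⟨ε, hε, h⟩ := Metric.isOpen_iff.1 hU b0 hb0
    refine ⟨ε / 4, by positivity, fun z hz => h ?_⟩
    rw [mem_closedBall] at hz
    rw [mem_ball]
    linarith
  have hK : IsCompact (closedBall b0 (2 * r) ×ˢ Icc α β) :=
    (isCompact_closedBall b0 (2 * r)).prod isCompact_Icc
  obtain ⟨C, hC⟩ := hK.exists_bound_of_continuousOn
    (hc.mono (prod_mono hrU Subset.rfl))
  have hbnd : ∀ b ∈ closedBall b0 (2 * r), ∀ t ∈ Icc α β, ‖F b t‖ ≤ C :=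
    fun b hb t ht => hC (b, t) ⟨hb, ht⟩
  have hcb : ∀ b ∈ U, ContinuousOn (F b) (Icc α β) := fun b hb =>
    hc.comp (continuousOn_const.prodMk continuousOn_id) (fun t ht => ⟨hb, ht⟩)
  have hIoc : Set.uIoc α β ⊆ Icc α β := by
    rw [uIoc_of_le hαβ]
    exact Ioc_subset_Icc_self
  have hmeas : ∀ b ∈ U, AEStronglyMeasurable (F b) (volume.restrict (Set.uIoc α β)) := by
    intro b hb
    exact ((hcb b hb).mono hIoc).aestronglyMeasurable measurableSet_uIoc
  have hball : ball b0 r ∈ 𝓝 b0 := ball_mem_nhds b0 hr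
  have hballU : ball b0 r ⊆ U := fun z hz => hrU (by
    rw [mem_closedBall]
    rw [mem_ball] at hz
    linarith)
  have hderiv : ∀ t ∈ Icc α β, ∀ b ∈ ball b0 r, HasDerivAt (fun x => F x t)
      (deriv (fun x => F x t) b) b := fun t ht b hb =>
    ((hd t ht).differentiableAt (hU.mem_nhds (hballU hb))).hasDerivAt
  have hdbound : ∀ t ∈ Icc α β, ∀ b ∈ ball b0 r, ‖deriv (fun x => F x t) b‖ ≤ C / r := by
    intro t ht b hb
    have hsub : closedBall b r ⊆ closedBall b0 (2 * r) := by
      intro z hz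
      rw [mem_closedBall] at hz ⊢
      rw [mem_ball] at hb
      have := dist_triangle z b b0
      linarith
    refine Complex.norm_deriv_le_of_forall_mem_sphere_norm_le hr ?_ ?_
    · have : DifferentiableOn ℂ (fun x => F x t) (closedBall b r) :=
        (hd t ht).mono (hsub.trans hrU)
      exact this.diffContOnCl_ball Subset.rfl
    · intro z hz
      exact hbnd z (hsub (sphere_subset_closedBall hz)) t ht
  have hF'meas : AEStronglyMeasurable (fun t => deriv (fun x => F x t) b0)
      (volume.restrict (Set.uIoc α β)) := by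
    let x : ℕ → ℂ := fun j => b0 + ((r / (j + 2) : ℝ) : ℂ)
    have hx0 : ∀ j, x j ≠ b0 := by
      intro j h
      have : ((r / (j + 2) : ℝ) : ℂ) = 0 := by simpa [x] using h
      rw [Complex.ofReal_eq_zero] at this
      have h2 : (0 : ℝ) < r / (j + 2) := by positivity
      linarith
    have hxU : ∀ j, x j ∈ U := by
      intro j
      apply hballU
      rw [mem_ball, dist_eq_norm]
      have : x j - b0 = ((r / (j + 2) : ℝ) : ℂ) := by simp [x]
      rw [this, Complex.norm_real, Real.norm_of_nonneg (by positivity)]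
      rw [div_lt_iff₀ (by positivity)]
      nlinarith [(Nat.cast_nonneg j : (0 : ℝ) ≤ j)]
    have hxt : Tendsto x atTop (𝓝[≠] b0) := by
      rw [tendsto_nhdsWithin_iff]
      refine ⟨?_, Eventually.of_forall fun j => hx0 j⟩
      have h1 : Tendsto (fun j : ℕ => r / ((j : ℝ) + 2)) atTop (𝓝 0) := by
        apply Tendsto.div_atTop tendsto_const_nhds
        exact tendsto_atTop_add_const_right _ _ tendsto_natCast_atTop_atTop
      have h2 : Tendsto (fun j : ℕ => ((r / ((j : ℝ) + 2) : ℝ) : ℂ)) atTop (𝓝 ((0 : ℝ) : ℂ)) :=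
        (Complex.continuous_ofReal.tendsto 0).comp h1
      simpa [x] using (tendsto_const_nhds (x := b0)).add h2
    refine aestronglyMeasurable_of_tendsto_ae (u := (atTop : Filter ℕ))
      (f := fun j t => slope (fun y => F y t) b0 (x j)) ?_ ?_
    · intro j
      have h1 := (hmeas (x j) (hxU j)).sub (hmeas b0 hb0)
      have h2 := h1.const_smul ((x j - b0)⁻¹)
      exact h2
    · rw [ae_restrict_iff' measurableSet_uIoc]
      refine Eventually.of_forall fun t ht => ?_
      have h := hderiv t (hIoc ht) b0 (mem_ball_self hr)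
      rw [hasDerivAt_iff_tendsto_slope] at h
      exact h.comp hxt
  have key := intervalIntegral.hasDerivAt_integral_of_dominated_loc_of_deriv_le
    (μ := (volume : Measure ℝ)) (a := α) (b := β)
    (F := F) (F' := fun b t => deriv (fun x => F x t) b) (x₀ := b0) (s := ball b0 r)
    (bound := fun _ => C / r) hball
    (by
      filter_upwards [hU.mem_nhds hb0] with b hb
      exact hmeas b hb)
    (((hcb b0 hb0).mono (by rw [uIcc_of_le hαβ])).intervalIntegrable)
    hF'meas
    (Eventually.of_forall fun t ht b hb => hdbound t (hIoc ht) b hb)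
    (by simp)
    (Eventually.of_forall fun t ht b hb => hderiv t (hIoc ht) b hb)
  exact key.2.differentiableAt.differentiableWithinAt

/-- A real function which is the restriction of a holomorphic function is real-analytic. -/
theorem analyticAt_of_complex {T : ℝ → ℝ} {G : ℂ → ℂ} {U : Set ℂ} (hU : IsOpen U) {b0 : ℝ}
    (hb0 : (b0 : ℂ) ∈ U) (hG : DifferentiableOn ℂ G U)
    (hTG : ∀ᶠ b : ℝ in 𝓝 b0, ((T b : ℝ) : ℂ) = G b) : AnalyticAt ℝ T b0 := by
  have h1 : AnalyticAt ℂ G (b0 : ℂ) := hG.analyticAt (hU.mem_nhds hb0)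
  have h2 : AnalyticAt ℝ G (b0 : ℂ) := h1.restrictScalars
  have h3 : AnalyticAt ℝ (fun x : ℝ => G (x : ℂ)) b0 :=
    AnalyticAt.comp' (g := G) (f := fun x : ℝ => (x : ℂ)) h2
      (Complex.ofRealCLM.analyticAt b0)
  have h4 : AnalyticAt ℝ (fun x : ℝ => (G (x : ℂ)).re) b0 :=
    AnalyticAt.comp' (g := fun z : ℂ => z.re) (f := fun x : ℝ => G (x : ℂ))
      (Complex.reCLM.analyticAt _) h3
  refine h4.congr ?_
  filter_upwards [hTG] with b hb
  rw [← hb, Complex.ofReal_re]

end Pool.Agent.CritPer
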