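import Pool.Agent.CritPer.Base
import Pool.Agent.CritPer.HolInt

/-!
The period integral is real-analytic on `(0,∞)`.
-/

open Set Filter Topology MeasureTheory Metric

namespace Pool.Agent.CritPer

theorem sg_nonneg (p r : ℝ) (hr : 0 ≤ r) : 0 ≤ sg p r := by
  unfold sg; positivity

theorem sg_pos (p r : ℝ) (hr : 0 < r) : 0 < sg p r := by
  unfold sg
  rcases eq_or_ne (Real.cos p) 0 with h | h
  · have : Real.sin p ^ 2 = 1 := by
      have := Real.sin_sq_add_cos_sq p
      rw [h] at this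
      linarith
    rw [h, this]
    simpa using hr
  · positivity

theorem sg_zero (p : ℝ) : sg p 0 = Real.cos p ^ 2 := by simp [sg]

theorem continuous_sg : Continuous (fun q : ℝ × ℝ => sg q.1 q.2) := by
  unfold sg; fun_prop

/-- Integrand of `V`. -/
theorem continuous_Vint (n : ℕ) : Continuous (fun q : (ℝ × ℝ) × ℝ =>
    (n : ℝ) * sg q.1.2 q.2 ^ n *
      Real.exp (q.1.1 ^ (2 * n) * (sg q.1.2 0 ^ n - sg q.1.2 q.2 ^ n))) := by
  unfold sg; fun_prop

theorem continuous_Vf (n : ℕ) : Continuous (fun q : ℝ × ℝ => Vf n q.1 q.2) := by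
  unfold Vf
  exact intervalIntegral.continuous_parametric_intervalIntegral_of_continuous'
    (f := fun (q : ℝ × ℝ) (r : ℝ) => (n : ℝ) * sg q.2 r ^ n *
      Real.exp (q.1 ^ (2 * n) * (sg q.2 0 ^ n - sg q.2 r ^ n))) (continuous_Vint n) 0 1

theorem Vf_pos {n : ℕ} (hn : 1 ≤ n) (b p : ℝ) : 0 < Vf n b p := by
  unfold Vf
  apply intervalIntegral.intervalIntegral_pos_of_pos_on
  · have h : Continuous (fun r : ℝ => (n : ℝ) * sg p r ^ n *
        Real.exp (b ^ (2 * n) * (sg p 0 ^ n - sg p r ^ n))) := by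
      unfold sg; fun_prop
    exact h.intervalIntegrable 0 1
  · intro r hr
    have h1 := sg_pos p r hr.1
    have h2 : (0 : ℝ) < n := by exact_mod_cast hn
    positivity
  · norm_num

theorem continuous_Wf (n : ℕ) : Continuous (fun q : ℝ × ℝ => Wf n q.1 q.2) := by
  unfold Wf
  exact (continuous_Vf n).sqrt

theorem Wf_pos {n : ℕ} (hn : 1 ≤ n) (b p : ℝ) : 0 < Wf n b p := Real.sqrt_pos.2 (Vf_pos hn b p)

theorem Wf_sq {n : ℕ} (hn : 1 ≤ n) (b p : ℝ) : Wf n b p ^ 2 = Vf n b p :=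
  Real.sq_sqrt (Vf_pos hn b p).le

theorem continuous_Yf (n : ℕ) : Continuous (fun q : ℝ × ℝ => Yf n q.1 q.2) := by
  unfold Yf
  exact ((continuous_fst.pow _).mul (Real.continuous_sin.comp continuous_snd)).mul
    (continuous_Wf n)

theorem continuous_Xf : Continuous (fun q : ℝ × ℝ => Xf q.1 q.2) := by
  unfold Xf; fun_prop

/-- Points of the curve are not the origin. -/
theorem XY_ne {n : ℕ} (hn : 1 ≤ n) {b : ℝ} (hb : 0 < b) (p : ℝ) :
    (Xf b p, Yf n b p) ≠ (0, 0) := by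
  intro h
  rw [Prod.mk.injEq] at h
  obtain ⟨h1, h2⟩ := h
  unfold Xf at h1
  unfold Yf at h2
  have hc : Real.cos p = 0 := by
    rcases mul_eq_zero.1 h1 with h | h
    · exact absurd h hb.ne'
    · exact h
  have hs : Real.sin p = 0 := by
    rcases mul_eq_zero.1 h2 with h | h
    · rcases mul_eq_zero.1 h with h | h
      · exact absurd h (pow_ne_zero _ hb.ne')
      · exact h
    · exact absurd h (Wf_pos hn b p).ne'
  have := Real.sin_sq_add_cos_sq p
  rw [hc, hs] at this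
  norm_num at this

theorem continuous_ev (F : MvPolynomial (Fin 2) ℝ) : Continuous (ev F) := by
  unfold ev
  have : (fun z : ℝ × ℝ => MvPolynomial.eval ![z.1, z.2] F) =
      (fun v : Fin 2 → ℝ => MvPolynomial.eval v F) ∘ (fun z : ℝ × ℝ => ![z.1, z.2]) := rfl
  rw [this]
  refine (MvPolynomial.continuous_eval F).comp ?_
  refine continuous_pi fun i => ?_
  fin_cases i
  · exact continuous_fst
  · exact continuous_snd

/-- Complex evaluation. -/
noncomputable def evc (F : MvPolynomial (Fin 2) ℝ) (x y : ℂ) : ℂ :=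
  MvPolynomial.aeval ![x, y] F

theorem evc_ofReal (F : MvPolynomial (Fin 2) ℝ) (x y : ℝ) :
    evc F (x : ℂ) (y : ℂ) = ((ev F (x, y) : ℝ) : ℂ) := by
  unfold evc ev
  have h : (![(x : ℂ), (y : ℂ)] : Fin 2 → ℂ) = fun i => algebraMap ℝ ℂ (![x, y] i) := by
    funext i
    fin_cases i <;> rfl
  rw [h]
  have := MvPolynomial.aeval_algebraMap_apply (A := ℝ) ℂ (![x, y] : Fin 2 → ℝ) F
  rw [show (fun i => algebraMap ℝ ℂ (![x, y] i)) = (algebraMap ℝ ℂ ∘ ![x, y]) from rfl, this]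
  rfl

theorem differentiable_evc (F : MvPolynomial (Fin 2) ℝ) :
    Differentiable ℂ (fun z : ℂ × ℂ => evc F z.1 z.2) := by
  unfold evc
  induction F using MvPolynomial.induction_on with
  | C a => simp
  | add p q hp hq =>
    simp only [map_add]
    exact hp.add hq
  | mul_X p i hp =>
    simp only [map_mul, MvPolynomial.aeval_X]
    refine hp.mul ?_
    fin_cases i
    · exact differentiable_fst
    · exact differentiable_snd

/-- Complex version of `V`. -/
noncomputable def VC (n : ℕ) (b : ℂ) (p : ℝ) : ℂ :=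
  ∫ r in (0 : ℝ)..1, (n : ℂ) * (sg p r : ℂ) ^ n *
    Complex.exp (b ^ (2 * n) * ((sg p 0 : ℂ) ^ n - (sg p r : ℂ) ^ n))

theorem continuous_VCint (n : ℕ) : Continuous (fun q : (ℂ × ℝ) × ℝ =>
    (n : ℂ) * (sg q.1.2 q.2 : ℂ) ^ n *
      Complex.exp (q.1.1 ^ (2 * n) * ((sg q.1.2 0 : ℂ) ^ n - (sg q.1.2 q.2 : ℂ) ^ n))) := by
  unfold sg; fun_prop

theorem continuous_VC (n : ℕ) : Continuous (fun q : ℂ × ℝ => VC n q.1 q.2) := by
  unfold VC
  exact intervalIntegral.continuous_parametric_intervalIntegral_of_continuous'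
    (f := fun (q : ℂ × ℝ) (r : ℝ) => (n : ℂ) * (sg q.2 r : ℂ) ^ n *
    Complex.exp (q.1 ^ (2 * n) * ((sg q.2 0 : ℂ) ^ n - (sg q.2 r : ℂ) ^ n)))
    (continuous_VCint n) 0 1

theorem differentiable_VC (n : ℕ) (p : ℝ) : Differentiable ℂ (fun b => VC n b p) := by
  rw [← differentiableOn_univ]
  unfold VC
  refine differentiableOn_integral isOpen_univ zero_le_one ?_ ?_
  · refine Continuous.continuousOn ?_
    exact (continuous_VCint n).comp
      (f := fun q : ℂ × ℝ => (((q.1, p), q.2) : (ℂ × ℝ) × ℝ)) (by fun_prop)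
  · intro t _
    refine Differentiable.differentiableOn ?_
    fun_prop

theorem VC_ofReal (n : ℕ) (b p : ℝ) : VC n (b : ℂ) p = ((Vf n b p : ℝ) : ℂ) := by
  unfold VC Vf
  rw [← intervalIntegral.integral_ofReal]
  congr 1
  funext r
  push_cast
  rfl

/-- Complex version of `W`. -/
noncomputable def WC (n : ℕ) (b : ℂ) (p : ℝ) : ℂ := (VC n b p) ^ (1 / 2 : ℂ)

theorem WC_ofReal {n : ℕ} (hn : 1 ≤ n) (b p : ℝ) : WC n (b : ℂ) p = ((Wf n b p : ℝ) : ℂ) := by
  unfold WC Wf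
  rw [VC_ofReal, Real.sqrt_eq_rpow, Complex.ofReal_cpow (Vf_pos hn b p).le]
  norm_num

/-- Complex denominator. -/
noncomputable def DC (n : ℕ) (F : MvPolynomial (Fin 2) ℝ) (b : ℂ) (p : ℝ) : ℂ :=
  b ^ n * WC n b p * evc F (b * (Real.cos p : ℂ)) (b ^ (n + 1) * (Real.sin p : ℂ) * WC n b p)

theorem DC_ofReal {n : ℕ} (hn : 1 ≤ n) (F : MvPolynomial (Fin 2) ℝ) (b p : ℝ) :
    DC n F (b : ℂ) p = ((b ^ n * Wf n b p * ev F (Xf b p, Yf n b p) : ℝ) : ℂ) := by
  unfold DC
  rw [WC_ofReal hn]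
  have : evc F ((b : ℂ) * (Real.cos p : ℂ))
      ((b : ℂ) ^ (n + 1) * (Real.sin p : ℂ) * ((Wf n b p : ℝ) : ℂ)) =
      ((ev F (Xf b p, Yf n b p) : ℝ) : ℂ) := by
    rw [← evc_ofReal]
    unfold Xf Yf
    push_cast
    rfl
  rw [this]
  push_cast
  rfl

theorem continuousOn_WC (n : ℕ) : ContinuousOn (fun q : ℂ × ℝ => WC n q.1 q.2)
    {q : ℂ × ℝ | VC n q.1 q.2 ∈ Complex.slitPlane} := by
  unfold WC
  exact ContinuousOn.cpow_const (continuous_VC n).continuousOn (fun q hq => hq)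

theorem continuousOn_DC (n : ℕ) (F : MvPolynomial (Fin 2) ℝ) :
    ContinuousOn (fun q : ℂ × ℝ => DC n F q.1 q.2)
      {q : ℂ × ℝ | VC n q.1 q.2 ∈ Complex.slitPlane} := by
  have hW := continuousOn_WC n
  unfold DC
  refine ContinuousOn.mul (ContinuousOn.mul (by fun_prop) hW) ?_
  have h1 : ContinuousOn (fun q : ℂ × ℝ => ((q.1 * (Real.cos q.2 : ℂ),
      q.1 ^ (n + 1) * (Real.sin q.2 : ℂ) * WC n q.1 q.2) : ℂ × ℂ))
      {q : ℂ × ℝ | VC n q.1 q.2 ∈ Complex.slitPlane} := by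
    refine ContinuousOn.prodMk (by fun_prop) (ContinuousOn.mul (by fun_prop) hW)
  have h2 : ContinuousOn ((fun z : ℂ × ℂ => evc F z.1 z.2) ∘
      (fun q : ℂ × ℝ => ((q.1 * (Real.cos q.2 : ℂ),
      q.1 ^ (n + 1) * (Real.sin q.2 : ℂ) * WC n q.1 q.2) : ℂ × ℂ)))
      {q : ℂ × ℝ | VC n q.1 q.2 ∈ Complex.slitPlane} :=
    Continuous.comp_continuousOn (differentiable_evc F).continuous h1
  exact h2

theorem differentiableAt_DC (n : ℕ) (F : MvPolynomial (Fin 2) ℝ) (b : ℂ) (p : ℝ)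
    (h : VC n b p ∈ Complex.slitPlane) : DifferentiableAt ℂ (fun b => DC n F b p) b := by
  have hW : DifferentiableAt ℂ (fun b => WC n b p) b := by
    unfold WC
    exact (differentiable_VC n p b).cpow (differentiableAt_const _) h
  unfold DC
  refine DifferentiableAt.mul (DifferentiableAt.mul (by fun_prop) hW) ?_
  have h1 : DifferentiableAt ℂ (fun b : ℂ => ((b * (Real.cos p : ℂ),
      b ^ (n + 1) * (Real.sin p : ℂ) * WC n b p) : ℂ × ℂ)) b := by
    refine DifferentiableAt.prodMk (by fun_prop) (DifferentiableAt.mul (by fun_prop) hW)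
  have h2 : DifferentiableAt ℂ ((fun z : ℂ × ℂ => evc F z.1 z.2) ∘
      (fun b : ℂ => ((b * (Real.cos p : ℂ),
      b ^ (n + 1) * (Real.sin p : ℂ) * WC n b p) : ℂ × ℂ))) b :=
    DifferentiableAt.comp b (differentiable_evc F _) h1
  exact h2

/-- The period integral is real-analytic. -/
theorem analyticAt_Tf {n : ℕ} (hn : 1 ≤ n) {F : MvPolynomial (Fin 2) ℝ}
    (hpos : ∀ z : ℝ × ℝ, z ≠ 0 → 0 < ev F z) {b : ℝ} (hb : 0 < b) :
    AnalyticAt ℝ (Tf n (ev F)) b := by
  set O1 : Set (ℂ × ℝ) := {q : ℂ × ℝ | VC n q.1 q.2 ∈ Complex.slitPlane} with hO1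
  have hO1o : IsOpen O1 := Complex.isOpen_slitPlane.preimage (continuous_VC n)
  set O : Set (ℂ × ℝ) := O1 ∩ (fun q : ℂ × ℝ => DC n F q.1 q.2) ⁻¹' {0}ᶜ with hO
  have hOo : IsOpen O :=
    (continuousOn_DC n F).isOpen_inter_preimage hO1o isOpen_compl_singleton
  have hreal : ∀ (x : ℝ) (p : ℝ), 0 < x → ((x : ℂ), p) ∈ O := by
    intro x p hx
    refine ⟨?_, ?_⟩
    · rw [hO1, Set.mem_ofPred_eq]
      simp only
      rw [VC_ofReal]
      exact Complex.ofReal_mem_slitPlane.2 (Vf_pos hn x p)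
    · rw [mem_preimage, mem_compl_iff, mem_singleton_iff]
      simp only
      rw [DC_ofReal hn, Complex.ofReal_eq_zero]
      have h1 := Wf_pos hn x p
      have h2 := hpos (Xf x p, Yf n x p) (by
        intro h
        exact XY_ne hn hx p h)
      positivity
  obtain ⟨U, v, hUo, hvo, hbU, hv, hUv⟩ := generalized_tube_lemma
    (isCompact_singleton (x := (b : ℂ))) (isCompact_Icc (a := (0 : ℝ)) (b := 2 * Real.pi)) hOo
    (by
      rintro ⟨x, p⟩ ⟨hx, _⟩
      rw [mem_singleton_iff] at hx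
      simp only at hx
      subst hx
      exact hreal b p hb)
  have hUO : U ×ˢ Icc (0 : ℝ) (2 * Real.pi) ⊆ O := (prod_mono Subset.rfl hv).trans hUv
  have hdiff : DifferentiableOn ℂ
      (fun b => ∫ p in (0 : ℝ)..(2 * Real.pi), 1 / DC n F b p) U := by
    refine differentiableOn_integral hUo (by positivity) ?_ ?_
    · have h1 : ContinuousOn (fun q : ℂ × ℝ => DC n F q.1 q.2)
          (U ×ˢ Icc (0 : ℝ) (2 * Real.pi)) :=
        (continuousOn_DC n F).mono (fun q hq => (hUO hq).1)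
      have h2 : ContinuousOn (fun q : ℂ × ℝ => 1 / DC n F q.1 q.2)
          (U ×ˢ Icc (0 : ℝ) (2 * Real.pi)) :=
        continuousOn_const.div h1 (fun q hq => (hUO hq).2)
      exact h2
    · intro t ht x hx
      have h := hUO (show (x, t) ∈ U ×ˢ Icc (0 : ℝ) (2 * Real.pi) from ⟨hx, ht⟩)
      have h1 := differentiableAt_DC n F x t h.1
      exact ((differentiableAt_const _).div h1 h.2).differentiableWithinAt
  refine analyticAt_of_complex hUo (hbU (mem_singleton _)) hdiff ?_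
  filter_upwards [lt_mem_nhds hb] with x hx
  unfold Tf
  rw [← intervalIntegral.integral_ofReal]
  congr 1
  funext p
  rw [DC_ofReal hn]
  push_cast
  rfl

end Pool.Agent.CritPer
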