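import Pool.Agent.CritPer.Defs

/-!
The systems `x' = y f(x,y)`, `y' = -n x^(2n-1) (x^2-y^2) f(x,y)`: first integral, explicit
parametrisation of the orbits, period integral.
-/

open Set Filter Topology

namespace Pool.Agent.CritPer

/-- `Phi n u = int_0^u n s^n exp(-s^n) ds`. -/
noncomputable def Phi (n : ℕ) (u : ℝ) : ℝ := ∫ s in (0 : ℝ)..u, (n : ℝ) * s ^ n * Real.exp (-s ^ n)

/-- First integral. -/
noncomputable def Hf (n : ℕ) (z : ℝ × ℝ) : ℝ :=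
  Real.exp (-(z.1 ^ 2) ^ n) * z.2 ^ 2 + Phi n (z.1 ^ 2)

/-- The region of closed orbits. -/
def Reg (n : ℕ) : Set (ℝ × ℝ) := {z | ∃ b : ℝ, 0 < b ∧ Hf n z < Phi n b}

/-- `s(p,r) = cos^2 p + r sin^2 p`. -/
noncomputable def sg (p r : ℝ) : ℝ := Real.cos p ^ 2 + r * Real.sin p ^ 2

/-- `V(b,p)`. -/
noncomputable def Vf (n : ℕ) (b p : ℝ) : ℝ :=
  ∫ r in (0 : ℝ)..1, (n : ℝ) * sg p r ^ n * Real.exp (b ^ (2 * n) * (sg p 0 ^ n - sg p r ^ n))

/-- `W = sqrt V`. -/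
noncomputable def Wf (n : ℕ) (b p : ℝ) : ℝ := Real.sqrt (Vf n b p)

/-- Abscissa on the orbit through `(b,0)`. -/
noncomputable def Xf (b p : ℝ) : ℝ := b * Real.cos p

/-- Ordinate on the orbit through `(b,0)`. -/
noncomputable def Yf (n : ℕ) (b p : ℝ) : ℝ := b ^ (n + 1) * Real.sin p * Wf n b p

/-- The period integral. -/
noncomputable def Tf (n : ℕ) (f : ℝ × ℝ → ℝ) (b : ℝ) : ℝ :=
  ∫ p in (0 : ℝ)..(2 * Real.pi), 1 / (b ^ n * Wf n b p * f (Xf b p, Yf n b p))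

/-- The first component of the system with factor `F`. -/
noncomputable def PP (F : MvPolynomial (Fin 2) ℝ) : MvPolynomial (Fin 2) ℝ :=
  MvPolynomial.X 1 * F

/-- The second component of the system with factor `F`. -/
noncomputable def QQ (n : ℕ) (F : MvPolynomial (Fin 2) ℝ) : MvPolynomial (Fin 2) ℝ :=
  MvPolynomial.C (-(n : ℝ)) * MvPolynomial.X 0 ^ (2 * n - 1) *
    (MvPolynomial.X 0 ^ 2 - MvPolynomial.X 1 ^ 2) * F

/-- The real function given by `F`. -/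
noncomputable def ev (F : MvPolynomial (Fin 2) ℝ) (z : ℝ × ℝ) : ℝ :=
  MvPolynomial.eval ![z.1, z.2] F

theorem vf_PPQQ (n : ℕ) (F : MvPolynomial (Fin 2) ℝ) (z : ℝ × ℝ) :
    vf (PP F) (QQ n F) z =
      (z.2 * ev F z, -(n : ℝ) * z.1 ^ (2 * n - 1) * (z.1 ^ 2 - z.2 ^ 2) * ev F z) := by
  simp [vf, PP, QQ, ev]

end Pool.Agent.CritPer
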