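import Pool.Agent.CritPer.Fam

/-!
Center, period annulus, regular parametrisation and minimal period for the systems of `OFam`.
-/

open Set Filter Topology

namespace Pool.Agent.CritPer

variable {q v : ℝ → ℝ → ℝ}

/-! ### The region -/

theorem OFam.zero_mem (F : OFam q v) : (0 : ℝ × ℝ) ∈ Gset v :=
  ⟨1, by simp, by simpa using F.pos (le_refl (0 : ℝ)) one_pos⟩

/-- the continuous extension of `v a` -/
theorem OFam.vext_cont (F : OFam q v) {a : ℝ} (ha : 0 < a) :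
    Continuous (fun z : ℝ × ℝ => v a (min (z.1 ^ 2) a)) := by
  refine (F.cv ha).comp_continuous (by fun_prop) fun z => ⟨?_, min_le_right _ _⟩
  exact le_min (sq_nonneg _) ha.le

theorem OFam.isOpen_in (F : OFam q v) {a : ℝ} (ha : 0 < a) :
    IsOpen {z : ℝ × ℝ | z.1 ^ 2 < a ∧ z.2 ^ 2 < v a (z.1 ^ 2)} := by
  have h : {z : ℝ × ℝ | z.1 ^ 2 < a ∧ z.2 ^ 2 < v a (z.1 ^ 2)} =
      {z : ℝ × ℝ | z.1 ^ 2 < a} ∩ {z : ℝ × ℝ | z.2 ^ 2 < v a (min (z.1 ^ 2) a)} := by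
    ext z
    simp only [mem_ofPred_eq, mem_inter_iff]
    constructor
    · rintro ⟨h1, h2⟩; exact ⟨h1, by rwa [min_eq_left h1.le]⟩
    · rintro ⟨h1, h2⟩; exact ⟨h1, by rwa [min_eq_left h1.le] at h2⟩
  rw [h]
  exact (isOpen_lt (by fun_prop) continuous_const).inter
    (isOpen_lt (by fun_prop) (F.vext_cont ha))

theorem OFam.isClosed_in (F : OFam q v) {a : ℝ} (ha : 0 < a) :
    IsClosed {z : ℝ × ℝ | z.1 ^ 2 ≤ a ∧ z.2 ^ 2 ≤ v a (z.1 ^ 2)} := by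
  have h : {z : ℝ × ℝ | z.1 ^ 2 ≤ a ∧ z.2 ^ 2 ≤ v a (z.1 ^ 2)} =
      {z : ℝ × ℝ | z.1 ^ 2 ≤ a} ∩ {z : ℝ × ℝ | z.2 ^ 2 ≤ v a (min (z.1 ^ 2) a)} := by
    ext z
    simp only [mem_ofPred_eq, mem_inter_iff]
    constructor
    · rintro ⟨h1, h2⟩; exact ⟨h1, by rwa [min_eq_left h1]⟩
    · rintro ⟨h1, h2⟩; exact ⟨h1, by rwa [min_eq_left h1] at h2⟩
  rw [h]
  exact (isClosed_le (by fun_prop) continuous_const).inter
    (isClosed_le (by fun_prop) (F.vext_cont ha))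

theorem Gset_pos {z : ℝ × ℝ} {a : ℝ} (h : z.1 ^ 2 < a) : 0 < a := (sq_nonneg _).trans_lt h

theorem OFam.isOpen_G (F : OFam q v) : IsOpen (Gset v) := by
  have h : Gset v = ⋃ a ∈ Ioi (0 : ℝ), {z : ℝ × ℝ | z.1 ^ 2 < a ∧ z.2 ^ 2 < v a (z.1 ^ 2)} := by
    ext z
    simp only [mem_iUnion, exists_prop, mem_Ioi]
    constructor
    · rintro ⟨a, h1, h2⟩; exact ⟨a, Gset_pos h1, h1, h2⟩
    · rintro ⟨a, _, h1, h2⟩; exact ⟨a, h1, h2⟩
  rw [h]
  exact isOpen_biUnion fun a ha => F.isOpen_in ha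

theorem OFam.isPreconnected_G (F : OFam q v) : IsPreconnected (Gset v) := by
  refine isPreconnected_of_forall (0 : ℝ × ℝ) fun z hz => ?_
  obtain ⟨a, h1, h2⟩ := hz
  have ha := Gset_pos h1
  have hV : IsPreconnected ((fun y : ℝ => (z.1, y)) '' uIcc 0 z.2) :=
    isPreconnected_uIcc.image _ (by fun_prop)
  have hH : IsPreconnected ((fun x : ℝ => (x, (0 : ℝ))) '' uIcc 0 z.1) :=
    isPreconnected_uIcc.image _ (by fun_prop)
  have k1 : (z.1, (0 : ℝ)) ∈ (fun y : ℝ => (z.1, y)) '' uIcc 0 z.2 := ⟨0, left_mem_uIcc, rfl⟩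
  have k2 : (z.1, (0 : ℝ)) ∈ (fun x : ℝ => (x, (0 : ℝ))) '' uIcc 0 z.1 := ⟨z.1, right_mem_uIcc, rfl⟩
  have sq_le : ∀ {s t : ℝ}, s ∈ uIcc 0 t → s ^ 2 ≤ t ^ 2 := by
    intro s t hs
    rw [mem_uIcc] at hs
    rcases hs with hs | hs <;> nlinarith
  have hVs : ((fun y : ℝ => (z.1, y)) '' uIcc 0 z.2) ⊆ Gset v := by
    rintro _ ⟨y, hy, rfl⟩
    exact ⟨a, h1, (sq_le hy).trans_lt h2⟩
  have hHs : ((fun x : ℝ => (x, (0 : ℝ))) '' uIcc 0 z.1) ⊆ Gset v := by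
    rintro _ ⟨x, hx, rfl⟩
    refine ⟨a, (sq_le hx).trans_lt h1, ?_⟩
    simpa using F.pos (sq_nonneg x) ((sq_le hx).trans_lt h1)
  refine ⟨_, union_subset hVs hHs, Or.inr ⟨0, left_mem_uIcc, rfl⟩, Or.inl ⟨z.2, right_mem_uIcc, rfl⟩,
    IsPreconnected.union _ k1 k2 hV hH⟩

/-- every point of the annulus is on one of the curves -/
theorem OFam.exists_b (F : OFam q v) {z : ℝ × ℝ} (hz : z ∈ Gset v) (h0 : z ≠ 0) :
    ∃ b, 0 < b ∧ z ∈ range (gam q v b) := by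
  obtain ⟨a, h1, h2⟩ := hz
  have hu : 0 ≤ z.1 ^ 2 := sq_nonneg _
  have hcont : ContinuousOn (fun t => v t (z.1 ^ 2)) (Icc (z.1 ^ 2) a) :=
    (F.cont _ hu).mono Icc_subset_Ici_self
  have hiv := intermediate_value_Icc h1.le hcont
  have hmem : z.2 ^ 2 ∈ Icc (v (z.1 ^ 2) (z.1 ^ 2)) (v a (z.1 ^ 2)) :=
    ⟨by rw [F.v0 _ hu]; exact sq_nonneg _, h2.le⟩
  obtain ⟨t, ht, htv⟩ := hiv hmem
  simp only at htv
  have ht0 : 0 < t := by
    rcases eq_or_lt_of_le (hu.trans ht.1) with h | h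
    · exfalso
      apply h0
      have e1 : z.1 ^ 2 = 0 := le_antisymm (ht.1.trans_eq h.symm) hu
      have e2 : z.2 ^ 2 = 0 := by
        rw [← htv, e1, ← h, F.v0 0 le_rfl]
      exact Prod.ext (pow_eq_zero_iff (two_ne_zero) |>.1 e1) (pow_eq_zero_iff (two_ne_zero) |>.1 e2)
    · exact h
  have hs : Real.sqrt t ^ 2 = t := Real.sq_sqrt ht0.le
  refine ⟨Real.sqrt t, Real.sqrt_pos.2 ht0, ?_⟩
  rw [F.mem_range (Real.sqrt_pos.2 ht0), hs]
  exact ⟨ht.1, htv.symm⟩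

theorem OFam.range_sub (F : OFam q v) {b : ℝ} (hb : 0 < b) : range (gam q v b) ⊆ Gset v := by
  intro z hz
  rw [F.mem_range hb] at hz
  refine ⟨b ^ 2 + 1, by linarith [hz.1], ?_⟩
  rw [hz.2]
  exact F.mono _ (sq_nonneg _) hz.1 (show z.1 ^ 2 ≤ b ^ 2 + 1 by linarith [hz.1]) (by linarith)

theorem OFam.b_unique (F : OFam q v) {b b' : ℝ} (hb : 0 < b) (hb' : 0 < b') {z : ℝ × ℝ}
    (h : z ∈ range (gam q v b)) (h' : z ∈ range (gam q v b')) : b = b' := by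
  rw [F.mem_range hb] at h
  rw [F.mem_range hb'] at h'
  have h1 : v (b ^ 2) (z.1 ^ 2) = v (b' ^ 2) (z.1 ^ 2) := h.2.symm.trans h'.2
  have h2 : b ^ 2 = b' ^ 2 := (F.mono _ (sq_nonneg _)).injOn h.1 h'.1 h1
  exact (pow_left_inj₀ hb.le hb'.le two_ne_zero).1 h2

/-- the curves surround the origin -/
theorem OFam.surrounds (F : OFam q v) {b : ℝ} (hb : 0 < b) : Surrounds (range (gam q v b)) := by
  have hb2 : 0 < b ^ 2 := pow_pos hb 2
  refine ⟨?_, ?_⟩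
  · rintro ⟨p, hp⟩; exact F.gam_ne hb p hp
  set D : Set (ℝ × ℝ) := {z | z.1 ^ 2 < b ^ 2 ∧ z.2 ^ 2 < v (b ^ 2) (z.1 ^ 2)} with hD
  set E : Set (ℝ × ℝ) := {z | z.1 ^ 2 ≤ b ^ 2 ∧ z.2 ^ 2 ≤ v (b ^ 2) (z.1 ^ 2)} with hE
  have hDb : Bornology.IsBounded D := by
    obtain ⟨M, hM⟩ := (isCompact_Icc.image_of_continuousOn (F.cv hb2)).bddAbove
    have hsub : D ⊆ Icc (-(b + 1)) (b + 1) ×ˢ Icc (-(|M| + 1)) (|M| + 1) := by
      rintro z ⟨h1, h2⟩
      have h3 : v (b ^ 2) (z.1 ^ 2) ≤ M := hM ⟨z.1 ^ 2, ⟨sq_nonneg _, h1.le⟩, rfl⟩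
      have h4 := le_abs_self M
      refine ⟨⟨by nlinarith, by nlinarith⟩, ⟨?_, ?_⟩⟩
      · nlinarith [abs_nonneg M]
      · nlinarith [abs_nonneg M]
    exact ((Metric.isBounded_Icc _ _).prod (Metric.isBounded_Icc _ _)).subset hsub
  refine hDb.subset ?_
  have hc : IsPreconnected (connectedComponentIn (range (gam q v b))ᶜ (0 : ℝ × ℝ)) :=
    isPreconnected_connectedComponentIn
  have h0 : (0 : ℝ × ℝ) ∈ (range (gam q v b))ᶜ := by
    rintro ⟨p, hp⟩; exact F.gam_ne hb p hp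
  refine hc.subset_left_of_subset_union (F.isOpen_in hb2) (F.isClosed_in hb2).isOpen_compl ?_ ?_ ?_
  · rw [Set.disjoint_left]
    rintro z ⟨h1, h2⟩ h3
    exact h3 ⟨h1.le, h2.le⟩
  · intro z hz
    have hz' : z ∉ range (gam q v b) := connectedComponentIn_subset _ _ hz
    by_cases h : z ∈ E
    · left
      have h2 : z.2 ^ 2 ≠ v (b ^ 2) (z.1 ^ 2) := fun h3 =>
        hz' ((F.mem_range hb z).2 ⟨h.1, h3⟩)
      have h3 : z.2 ^ 2 < v (b ^ 2) (z.1 ^ 2) := lt_of_le_of_ne h.2 h2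
      refine ⟨lt_of_le_of_ne h.1 fun h4 => ?_, h3⟩
      rw [h4, F.v0 _ hb2.le] at h3
      exact absurd h3 (not_lt.2 (sq_nonneg _))
    · right; exact h
  · refine ⟨0, mem_connectedComponentIn h0, ?_, ?_⟩
    · simpa using hb2
    · simpa using F.pos (le_refl (0 : ℝ)) hb2

/-! ### Dynamics -/

section

variable {f : ℝ × ℝ → ℝ} {X : ℝ × ℝ → ℝ × ℝ}

theorem gam_range_two {b : ℝ} (hb : 0 < b) : ∃ z ∈ range (gam q v b), z ≠ (b, 0) := by
  refine ⟨(-b, 0), ⟨Real.pi, gam_pi b⟩, fun h => ?_⟩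
  have : -b = b := congrArg Prod.fst h
  linarith

/-- a solution through a point of a curve runs along this curve -/
theorem OFam.sol_on_curve (F : OFam q v) (hX : IsFld q f X) (fc : Continuous f)
    (fpos : ∀ z, z ≠ 0 → 0 < f z) (hC : ContDiff ℝ 1 X) {b : ℝ} (hb : 0 < b) {z : ℝ × ℝ}
    (hz : z ∈ range (gam q v b)) {δ : ℝ → ℝ × ℝ} (hδ : IsSol X δ) (h0 : δ 0 = z) :
    range δ = range (gam q v b) ∧ (∀ t, δ (t + Tper q v f b) = δ t) := by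
  obtain ⟨γ, hγ, hγ0, hr, hper, hT, -⟩ := F.exists_sol hX fc fpos hb
  rw [← hr] at hz
  obtain ⟨s, hs⟩ := hz
  have h1 : δ = fun t => γ (t + s) :=
    hδ.unique hC (hγ.shift s) (by simp only [zero_add]; rw [h0, hs])
  subst h1
  refine ⟨?_, fun t => ?_⟩
  · rw [← hr]
    apply Subset.antisymm
    · rintro _ ⟨t, rfl⟩; exact ⟨_, rfl⟩
    · rintro _ ⟨t, rfl⟩; exact ⟨t - s, by simp⟩
  · show γ (t + Tper q v f b + s) = γ (t + s)
    rw [show t + Tper q v f b + s = (t + s) + Tper q v f b by ring, hper]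

theorem OFam.exists_sol_at (F : OFam q v) (hX : IsFld q f X) (fc : Continuous f)
    (fpos : ∀ z, z ≠ 0 → 0 < f z) {b : ℝ} (hb : 0 < b) {z : ℝ × ℝ}
    (hz : z ∈ range (gam q v b)) : ∃ δ, IsSol X δ ∧ δ 0 = z := by
  obtain ⟨γ, hγ, hγ0, hr, hper, hT, -⟩ := F.exists_sol hX fc fpos hb
  rw [← hr] at hz
  obtain ⟨s, hs⟩ := hz
  exact ⟨_, hγ.shift s, by simp only [zero_add]; exact hs⟩

theorem OFam.Tper_pos (F : OFam q v) (hX : IsFld q f X) (fc : Continuous f)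
    (fpos : ∀ z, z ≠ 0 → 0 < f z) {b : ℝ} (hb : 0 < b) : 0 < Tper q v f b := by
  obtain ⟨γ, hγ, hγ0, hr, hper, hT, -⟩ := F.exists_sol hX fc fpos hb
  exact hT

theorem OFam.orbit_eq (F : OFam q v) (hX : IsFld q f X) (fc : Continuous f)
    (fpos : ∀ z, z ≠ 0 → 0 < f z) (hC : ContDiff ℝ 1 X) {b : ℝ} (hb : 0 < b) {z : ℝ × ℝ}
    (hz : z ∈ range (gam q v b)) : orbit X z = range (gam q v b) := by
  apply Subset.antisymm
  · rintro w ⟨δ, hδ, h0, hw⟩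
    rwa [(F.sol_on_curve hX fc fpos hC hb hz hδ h0).1] at hw
  · intro w hw
    obtain ⟨δ, hδ, h0⟩ := F.exists_sol_at hX fc fpos hb hz
    refine ⟨δ, hδ, h0, ?_⟩
    rwa [(F.sol_on_curve hX fc fpos hC hb hz hδ h0).1]

theorem OFam.cyc_eq (F : OFam q v) (hX : IsFld q f X) (fc : Continuous f)
    (fpos : ∀ z, z ≠ 0 → 0 < f z) (hC : ContDiff ℝ 1 X) : cyc X = Gset v \ {0} := by
  apply Subset.antisymm
  · rintro z ⟨γ, ⟨hγ, -, -⟩, h0, hS⟩
    -- the orbit meets the positive x-axis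
    have hb : ∃ b, 0 < b ∧ (b, (0 : ℝ)) ∈ range γ := by
      by_contra hcon
      push Not at hcon
      have hR : IsPreconnected ((fun x : ℝ => (x, (0 : ℝ))) '' Ici 0) :=
        isPreconnected_Ici.image _ (by fun_prop)
      have hsub : ((fun x : ℝ => (x, (0 : ℝ))) '' Ici 0) ⊆ (range γ)ᶜ := by
        rintro _ ⟨x, hx, rfl⟩
        rcases eq_or_lt_of_le (show (0 : ℝ) ≤ x from hx) with h | h
        · rw [← h]; exact hS.1
        · exact hcon x h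
      have h1 := hR.subset_connectedComponentIn (x := (0 : ℝ × ℝ)) ⟨0, self_mem_Ici, rfl⟩ hsub
      have h2 := hS.2.subset h1
      obtain ⟨M, hM⟩ := h2.subset_closedBall 0
      have h3 := hM ⟨|M| + 1, show (0 : ℝ) ≤ |M| + 1 by positivity, rfl⟩
      rw [mem_closedBall_zero_iff] at h3
      have h4 : |M| + 1 ≤ ‖((|M| + 1, (0 : ℝ)) : ℝ × ℝ)‖ := by
        have := norm_fst_le ((|M| + 1, (0 : ℝ)) : ℝ × ℝ)
        simp only [Real.norm_eq_abs] at this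
        exact (le_abs_self _).trans this
      have := le_abs_self M
      linarith
    obtain ⟨b, hb, t, ht⟩ := hb
    have hmem : (b, (0 : ℝ)) ∈ range (gam q v b) := ⟨0, gam_zero b⟩
    have h1 := (F.sol_on_curve hX fc fpos hC hb hmem (hγ.shift t) (by simpa using ht)).1
    have h2 : z ∈ range (gam q v b) := by
      rw [← h1]; exact ⟨-t, by simp [h0]⟩
    refine ⟨F.range_sub hb h2, ?_⟩
    rintro rfl
    obtain ⟨p, hp⟩ := h2
    exact F.gam_ne hb p hp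
  · rintro z ⟨hz, hz0⟩
    obtain ⟨b, hb, hzb⟩ := F.exists_b hz hz0
    obtain ⟨δ, hδ, h0⟩ := F.exists_sol_at hX fc fpos hb hzb
    obtain ⟨h1, h2⟩ := F.sol_on_curve hX fc fpos hC hb hzb hδ h0
    refine ⟨δ, ⟨hδ, ⟨_, F.Tper_pos hX fc fpos hb, h2⟩, ?_⟩, h0, ?_⟩
    · by_contra hcon
      push Not at hcon
      obtain ⟨w, hw, hwb⟩ := gam_range_two (q := q) (v := v) hb
      have hw' := hw
      rw [← h1] at hw'
      obtain ⟨t, rfl⟩ := hw'
      have h3 : (b, (0 : ℝ)) ∈ range δ := by rw [h1]; exact ⟨0, gam_zero b⟩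
      obtain ⟨s, hs⟩ := h3
      exact hwb ((hcon t).trans ((hcon s).symm.trans hs))
    · rw [h1]; exact F.surrounds hb

theorem OFam.annulus_eq (F : OFam q v) (hX : IsFld q f X) (fc : Continuous f)
    (fpos : ∀ z, z ≠ 0 → 0 < f z) (hC : ContDiff ℝ 1 X) : annulus X = Gset v := by
  have h1 : insert 0 (cyc X) = Gset v := by
    rw [F.cyc_eq hX fc fpos hC, insert_sdiff_singleton, insert_eq_of_mem F.zero_mem]
  unfold annulus
  rw [h1, F.isOpen_G.interior_eq]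
  exact F.isPreconnected_G.connectedComponentIn F.zero_mem

theorem OFam.isCenter (F : OFam q v) (hX : IsFld q f X) (fc : Continuous f)
    (fpos : ∀ z, z ≠ 0 → 0 < f z) (hC : ContDiff ℝ 1 X) : IsCenter X := by
  refine ⟨?_, ?_⟩
  · rw [hX]; simp
  · rw [F.cyc_eq hX fc fpos hC, eventually_nhdsWithin_iff]
    filter_upwards [F.isOpen_G.mem_nhds F.zero_mem] with z hz hz0
    exact ⟨hz, hz0⟩

theorem OFam.isParam (F : OFam q v) (hX : IsFld q f X) (fc : Continuous f)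
    (fpos : ∀ z, z ≠ 0 → 0 < f z) (hC : ContDiff ℝ 1 X) :
    IsParam X (Ioi 0) (fun b => (b, 0)) where
  isOpen := isOpen_Ioi
  ordConnected := ordConnected_Ioi
  nonempty := ⟨1, mem_Ioi.2 one_pos⟩
  smooth := by fun_prop
  mem := by
    intro b hb
    rw [F.annulus_eq hX fc fpos hC]
    refine ⟨F.range_sub hb ⟨0, gam_zero b⟩, fun h => ?_⟩
    exact (ne_of_gt hb) (congrArg Prod.fst h)
  transversal := by
    intro b hb
    have hb' : 0 < b := hb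
    have hd : HasDerivAt (fun b : ℝ => (b, (0 : ℝ))) (1, 0) b :=
      (hasDerivAt_id b).prodMk (hasDerivAt_const b 0)
    rw [hd.deriv, hX]
    have h1 : 0 < f (b, 0) := fpos _ fun h => hb'.ne' (congrArg Prod.fst h)
    have h2 : 0 < q (b ^ 2) 0 := F.q0 _ (pow_pos hb' 2)
    have h3 : (0 : ℝ) ^ 2 = 0 := by norm_num
    simp only [h3, one_mul, zero_mul, sub_zero]
    exact mul_ne_zero (neg_ne_zero.2 (mul_pos hb' h2).ne') h1.ne'
  unique := by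
    intro z hz hz0
    rw [F.annulus_eq hX fc fpos hC] at hz
    obtain ⟨b, hb, hzb⟩ := F.exists_b hz hz0
    refine ⟨b, ⟨hb, ?_⟩, ?_⟩
    · rw [F.orbit_eq hX fc fpos hC hb hzb]
      exact ⟨0, gam_zero b⟩
    · rintro c ⟨hc, hco⟩
      rw [F.orbit_eq hX fc fpos hC hb hzb] at hco
      exact F.b_unique hc hb ⟨0, gam_zero c⟩ hco

theorem OFam.minPeriod_eq (F : OFam q v) (hX : IsFld q f X) (fc : Continuous f)
    (fpos : ∀ z, z ≠ 0 → 0 < f z) (hC : ContDiff ℝ 1 X) {b : ℝ} (hb : 0 < b) :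
    minPeriod X (b, 0) = Tper q v f b := by
  obtain ⟨γ, hγ, hγ0, hr, hper, hT, hmin⟩ := F.exists_sol hX fc fpos hb
  rw [← hγ0]
  exact Pool.Agent.CritPer.minPeriod_eq hC hγ hT hper hmin

end

end Pool.Agent.CritPer
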