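import Mathlib

/-!
Abstract choice of spikes: a positive combination of the functions `ω κ`, `κ → 1+`, with many
oscillations.
-/

open Set Filter Topology

namespace Pool.Agent.CritPer

/-- The hypotheses on the family `ω`. -/
structure Fam (g : ℝ → ℝ) (ω : ℝ → ℝ → ℝ) (l : ℝ → ℝ) (κ0 : ℝ) : Prop where
  one_lt : 1 < κ0
  g_pos : ∀ b, 0 < b → 0 < g b
  le : ∀ κ, 1 < κ → κ < κ0 → ∀ᶠ b in atTop, ω κ b ≤ l κ
  tail : ∀ κ, 1 < κ → κ < κ0 → ∀ ε, 0 < ε → ∀ᶠ b in atTop, l κ - ω κ b ≤ ε * g b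
  lim : ∀ κ, 1 < κ → κ < κ0 → Tendsto (ω κ) atTop (𝓝 (l κ))
  conv : ∀ b, 0 < b → Tendsto (fun κ => ω κ b) (𝓝[>] 1) (𝓝 (g b))
  low : ∀ c η, 0 < η → ∀ᶠ κ in 𝓝[>] (1 : ℝ), ∃ b, c < b ∧ ω κ b < η ∧ ω κ b < l κ

/-- The inductive statement. -/
def Chain (ω : ℝ → ℝ → ℝ) (l : ℝ → ℝ) (κ0 : ℝ) (m : ℕ) : Prop :=
  ∃ (K A : Fin m → ℝ) (d : ℕ → ℝ), (∀ i, 1 < K i ∧ K i < κ0) ∧ Function.Injective K ∧
    (∀ i, 0 < A i) ∧ (∀ i < 2 * m, 0 < d i) ∧ (∀ i, i + 1 < 2 * m → d i < d (i + 1)) ∧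
    (∀ i, i + 1 < 2 * m → 0 < (-1 : ℝ) ^ (i + 1) *
      ((∑ j, A j * ω (K j) (d (i + 1))) - ∑ j, A j * ω (K j) (d i))) ∧
    ∀ i, i + 1 = 2 * m → ∑ j, A j * ω (K j) (d i) < ∑ j, A j * l (K j)

theorem chain_zero (ω : ℝ → ℝ → ℝ) (l : ℝ → ℝ) (κ0 : ℝ) : Chain ω l κ0 0 := by
  refine ⟨Fin.elim0, Fin.elim0, fun _ => 0, ?_, ?_, ?_, ?_, ?_, ?_, ?_⟩
  · intro i; exact i.elim0
  · intro i; exact i.elim0
  · intro i; exact i.elim0
  · intro i hi; omega
  · intro i hi; omega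
  · intro i hi; omega
  · intro i hi; omega

theorem chain_succ {g : ℝ → ℝ} {ω : ℝ → ℝ → ℝ} {l : ℝ → ℝ} {κ0 : ℝ} (h : Fam g ω l κ0) {m : ℕ}
    (hm : Chain ω l κ0 m) : Chain ω l κ0 (m + 1) := by
  obtain ⟨K, A, d, hK, hinj, hA, hdpos, hdlt, halt, hlast⟩ := hm
  set F : ℝ → ℝ := fun b => ∑ j, A j * ω (K j) b with hF
  set L : ℝ := ∑ j, A j * l (K j) with hL
  -- choice of the new weight
  have hzero : Tendsto (fun a : ℝ => a) (𝓝[>] 0) (𝓝 0) := tendsto_id.mono_left nhdsWithin_le_nhds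
  have hA1 : ∀ i ∈ Finset.range (2 * m), ∀ᶠ a : ℝ in 𝓝[>] 0, i + 1 < 2 * m →
      0 < (-1 : ℝ) ^ (i + 1) * ((F (d (i + 1)) + a * g (d (i + 1))) - (F (d i) + a * g (d i))) := by
    intro i _
    by_cases hi : i + 1 < 2 * m
    · have hlim : Tendsto (fun a : ℝ => (-1 : ℝ) ^ (i + 1) *
          ((F (d (i + 1)) + a * g (d (i + 1))) - (F (d i) + a * g (d i)))) (𝓝[>] 0)
          (𝓝 ((-1 : ℝ) ^ (i + 1) *
          ((F (d (i + 1)) + 0 * g (d (i + 1))) - (F (d i) + 0 * g (d i))))) :=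
        (((hzero.mul_const _).const_add _).sub ((hzero.mul_const _).const_add _)).const_mul _
      simp only [zero_mul, add_zero] at hlim
      have := hlim.eventually (lt_mem_nhds (halt i hi))
      exact this.mono fun a ha _ => ha
    · exact Eventually.of_forall fun a h => absurd h hi
  have hA2 : ∀ i ∈ Finset.range (2 * m), ∀ᶠ a : ℝ in 𝓝[>] 0, i + 1 = 2 * m →
      F (d i) + a * g (d i) < L := by
    intro i _
    by_cases hi : i + 1 = 2 * m
    · have hlim : Tendsto (fun a : ℝ => F (d i) + a * g (d i)) (𝓝[>] 0)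
          (𝓝 (F (d i) + 0 * g (d i))) := (hzero.mul_const _).const_add _
      simp only [zero_mul, add_zero] at hlim
      have := hlim.eventually (gt_mem_nhds (hlast i hi))
      exact this.mono fun a ha _ => ha
    · exact Eventually.of_forall fun a h => absurd h hi
  obtain ⟨a, ha1, ha2, ha0⟩ := (((Finset.eventually_all _).2 hA1).and
    (((Finset.eventually_all _).2 hA2).and self_mem_nhdsWithin)).exists
  have ha : (0 : ℝ) < a := ha0
  -- choice of c
  have hFlim : Tendsto F atTop (𝓝 L) :=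
    tendsto_finsetSum _ fun j _ => (h.lim (K j) (hK j).1 (hK j).2).const_mul _
  have hFle : ∀ᶠ b in atTop, ∀ b', b ≤ b' → F b' ≤ L := by
    have h1 : ∀ᶠ b in atTop, ∀ j, ω (K j) b ≤ l (K j) :=
      eventually_all.2 fun j => h.le (K j) (hK j).1 (hK j).2
    obtain ⟨B, hB⟩ := eventually_atTop.1 h1
    filter_upwards [eventually_ge_atTop B] with b hb b' hb'
    exact Finset.sum_le_sum fun j _ =>
      mul_le_mul_of_nonneg_left (hB b' (hb.trans hb') j) (hA j).le
  have hFtail : ∀ᶠ b in atTop, L - F b ≤ a / 4 * g b := by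
    set s : ℝ := ∑ j, A j with hs
    have hs0 : 0 ≤ s := Finset.sum_nonneg fun j _ => (hA j).le
    have hε : 0 < a / (4 * (s + 1)) := by positivity
    have h1 : ∀ᶠ b in atTop, ∀ j, l (K j) - ω (K j) b ≤ a / (4 * (s + 1)) * g b :=
      eventually_all.2 fun j => h.tail (K j) (hK j).1 (hK j).2 _ hε
    filter_upwards [h1, eventually_gt_atTop 0] with b hb hb0
    have hg := h.g_pos b hb0
    have : L - F b = ∑ j, A j * (l (K j) - ω (K j) b) := by
      rw [hL, hF]
      simp only [mul_sub, Finset.sum_sub_distrib]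
    rw [this]
    calc ∑ j, A j * (l (K j) - ω (K j) b) ≤ ∑ j, A j * (a / (4 * (s + 1)) * g b) :=
          Finset.sum_le_sum fun j _ => mul_le_mul_of_nonneg_left (hb j) (hA j).le
      _ = s * (a / (4 * (s + 1)) * g b) := by rw [← Finset.sum_mul]
      _ = s / (s + 1) * (a / 4 * g b) := by
          have : s + 1 ≠ 0 := by positivity
          field_simp
      _ ≤ 1 * (a / 4 * g b) := by
          refine mul_le_mul_of_nonneg_right ?_ (by positivity)
          rw [div_le_one (by positivity)]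
          linarith
      _ = a / 4 * g b := one_mul _
  have hcbig : ∀ᶠ b in atTop, ∀ i ∈ Finset.range (2 * m), d i < b :=
    (Finset.eventually_all _).2 fun i _ => eventually_gt_atTop (d i)
  have hclast : ∀ᶠ b in atTop, ∀ i ∈ Finset.range (2 * m), i + 1 = 2 * m →
      F (d i) + a * g (d i) < F b := by
    refine (Finset.eventually_all _).2 fun i hi => ?_
    by_cases hi2 : i + 1 = 2 * m
    · exact (hFlim.eventually (lt_mem_nhds (ha2 i hi hi2))).mono fun b hb _ => hb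
    · exact Eventually.of_forall fun b h => absurd h hi2
  obtain ⟨c, hc1, hc2, hc3, hc4, hc0⟩ := (hFle.and (hFtail.and (hcbig.and (hclast.and
    (eventually_gt_atTop (0 : ℝ)))))).exists
  have hgc := h.g_pos c hc0
  -- choice of κ
  have k1 : ∀ᶠ κ : ℝ in 𝓝[>] 1, κ < κ0 :=
    (eventually_lt_nhds h.one_lt).filter_mono nhdsWithin_le_nhds
  have k2 : ∀ᶠ κ : ℝ in 𝓝[>] 1, ∀ j, κ < K j :=
    eventually_all.2 fun j => (eventually_lt_nhds (hK j).1).filter_mono nhdsWithin_le_nhds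
  have k3 : ∀ᶠ κ : ℝ in 𝓝[>] 1, ∀ i ∈ Finset.range (2 * m), i + 1 < 2 * m →
      0 < (-1 : ℝ) ^ (i + 1) *
        ((F (d (i + 1)) + a * ω κ (d (i + 1))) - (F (d i) + a * ω κ (d i))) := by
    refine (Finset.eventually_all _).2 fun i hi => ?_
    by_cases hi2 : i + 1 < 2 * m
    · have t1 := h.conv (d (i + 1)) (hdpos _ hi2)
      have t2 := h.conv (d i) (hdpos _ (by omega))
      have hlim := (((t1.const_mul a).const_add (F (d (i + 1)))).sub
        ((t2.const_mul a).const_add (F (d i)))).const_mul ((-1 : ℝ) ^ (i + 1))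
      exact (hlim.eventually (lt_mem_nhds (ha1 i hi hi2))).mono fun κ hκ _ => hκ
    · exact Eventually.of_forall fun κ h => absurd h hi2
  have k4 : ∀ᶠ κ : ℝ in 𝓝[>] 1, ∀ i ∈ Finset.range (2 * m), i + 1 = 2 * m →
      F (d i) + a * ω κ (d i) < F c + a * ω κ c := by
    refine (Finset.eventually_all _).2 fun i hi => ?_
    by_cases hi2 : i + 1 = 2 * m
    · have t1 := h.conv c hc0
      have t2 := h.conv (d i) (hdpos _ (by omega))
      have hlim1 := (t1.const_mul a).const_add (F c)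
      have hlim2 := (t2.const_mul a).const_add (F (d i))
      have hlt : F (d i) + a * g (d i) < F c + a * g c := by
        have := hc4 i hi hi2
        nlinarith
      exact (hlim2.eventually_lt hlim1 hlt).mono fun κ hκ _ => hκ
    · exact Eventually.of_forall fun κ h => absurd h hi2
  have k5 : ∀ᶠ κ : ℝ in 𝓝[>] 1, 3 / 4 * g c < ω κ c :=
    (h.conv c hc0).eventually (lt_mem_nhds (by linarith))
  have k6 := h.low c (g c / 4) (by positivity)
  obtain ⟨κ, hκ1, hκ2, hκ3, hκ4, hκ5, ⟨b, hcb, hb1, hb2⟩, hκgt⟩ :=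
    (k1.and (k2.and (k3.and (k4.and (k5.and (k6.and self_mem_nhdsWithin)))))).exists
  have hκ : (1 : ℝ) < κ := hκgt
  -- the new data
  set d' : ℕ → ℝ := fun i => if i < 2 * m then d i else if i = 2 * m then c else b with hd'
  have hd'1 : ∀ i, i < 2 * m → d' i = d i := fun i hi => by rw [hd']; simp [hi]
  have hd'2 : d' (2 * m) = c := by rw [hd']; simp
  have hd'3 : d' (2 * m + 1) = b := by rw [hd']; simp
  have hsum : ∀ x, ∑ j, (Fin.snoc A a : Fin (m + 1) → ℝ) j *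
      ω ((Fin.snoc K κ : Fin (m + 1) → ℝ) j) x = F x + a * ω κ x := by
    intro x
    rw [Fin.sum_univ_castSucc]
    simp [hF]
  have hsumL : ∑ j, (Fin.snoc A a : Fin (m + 1) → ℝ) j *
      l ((Fin.snoc K κ : Fin (m + 1) → ℝ) j) = L + a * l κ := by
    rw [Fin.sum_univ_castSucc]
    simp [hL]
  refine ⟨Fin.snoc K κ, Fin.snoc A a, d', ?_, ?_, ?_, ?_, ?_, ?_, ?_⟩
  · intro i
    refine Fin.lastCases ?_ (fun j => ?_) i
    · rw [Fin.snoc_last]; exact ⟨hκ, hκ1⟩
    · rw [Fin.snoc_castSucc]; exact hK j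
  · intro i j
    refine Fin.lastCases ?_ (fun i' => ?_) i <;> refine Fin.lastCases ?_ (fun j' => ?_) j
    · intro _; rfl
    · rw [Fin.snoc_last, Fin.snoc_castSucc]
      intro hh; exact absurd hh (hκ2 j').ne
    · rw [Fin.snoc_last, Fin.snoc_castSucc]
      intro hh; exact absurd hh (hκ2 i').ne'
    · rw [Fin.snoc_castSucc, Fin.snoc_castSucc]
      intro hh; rw [hinj hh]
  · intro i
    refine Fin.lastCases ?_ (fun j => ?_) i
    · rw [Fin.snoc_last]; exact ha
    · rw [Fin.snoc_castSucc]; exact hA j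
  · intro i hi
    rcases lt_trichotomy i (2 * m) with h1 | h1 | h1
    · rw [hd'1 i h1]; exact hdpos i h1
    · rw [h1, hd'2]; exact hc0
    · have : i = 2 * m + 1 := by omega
      rw [this, hd'3]; exact hc0.trans hcb
  · intro i hi
    rcases lt_trichotomy (i + 1) (2 * m) with h1 | h1 | h1
    · rw [hd'1 i (by omega), hd'1 (i + 1) h1]; exact hdlt i h1
    · rw [hd'1 i (by omega), h1, hd'2]
      exact hc3 i (Finset.mem_range.2 (by omega))
    · have : i = 2 * m := by omega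
      rw [this, hd'2, hd'3]; exact hcb
  · intro i hi
    rw [hsum, hsum]
    rcases lt_trichotomy (i + 1) (2 * m) with h1 | h1 | h1
    · rw [hd'1 i (by omega), hd'1 (i + 1) h1]
      exact hκ3 i (Finset.mem_range.2 (by omega)) h1
    · rw [hd'1 i (by omega), h1, hd'2]
      have hev : Even (2 * m) := even_two_mul m
      rw [hev.neg_one_pow, one_mul]
      have := hκ4 i (Finset.mem_range.2 (by omega)) h1
      linarith
    · have : i = 2 * m := by omega
      rw [this, hd'2, hd'3]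
      have hev : Even (2 * m) := even_two_mul m
      rw [hev.add_one.neg_one_pow]
      have h5 := hc1 b hcb.le
      nlinarith
  · intro i hi
    rw [hsum, hsumL]
    have : i = 2 * m + 1 := by omega
    rw [this, hd'3]
    have h5 := hc1 b hcb.le
    nlinarith

theorem chain {g : ℝ → ℝ} {ω : ℝ → ℝ → ℝ} {l : ℝ → ℝ} {κ0 : ℝ} (h : Fam g ω l κ0) (m : ℕ) :
    Chain ω l κ0 m := by
  induction m with
  | zero => exact chain_zero ω l κ0
  | succ m ih => exact chain_succ h ih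

/-- Final form: `2m+1` points with `2m` alternating steps. -/
theorem chain_final {g : ℝ → ℝ} {ω : ℝ → ℝ → ℝ} {l : ℝ → ℝ} {κ0 : ℝ} (h : Fam g ω l κ0) {m : ℕ}
    (hm1 : 1 ≤ m) :
    ∃ (K A : Fin m → ℝ) (d : ℕ → ℝ), (∀ i, 1 < K i ∧ K i < κ0) ∧ Function.Injective K ∧
    (∀ i, 0 < A i) ∧ 0 < d 0 ∧ (∀ i < 2 * m, d i < d (i + 1)) ∧
    (∀ i < 2 * m, 0 < (-1 : ℝ) ^ (i + 1) *
      ((∑ j, A j * ω (K j) (d (i + 1))) - ∑ j, A j * ω (K j) (d i))) := by
  obtain ⟨K, A, d, hK, hinj, hA, hdpos, hdlt, halt, hlast⟩ := chain h m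
  have hFlim : Tendsto (fun b => ∑ j, A j * ω (K j) b) atTop (𝓝 (∑ j, A j * l (K j))) :=
    tendsto_finsetSum _ fun j _ => (h.lim (K j) (hK j).1 (hK j).2).const_mul _
  have e1 := hFlim.eventually (lt_mem_nhds (hlast (2 * m - 1) (by omega)))
  obtain ⟨c, hc1, hc2⟩ := (e1.and (eventually_gt_atTop (d (2 * m - 1)))).exists
  set d' : ℕ → ℝ := fun i => if i < 2 * m then d i else c with hd'
  have hd'1 : ∀ i, i < 2 * m → d' i = d i := fun i hi => by rw [hd']; simp [hi]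
  have hd'2 : d' (2 * m) = c := by rw [hd']; simp
  refine ⟨K, A, d', hK, hinj, hA, ?_, ?_, ?_⟩
  · rw [hd'1 0 (by omega)]; exact hdpos 0 (by omega)
  · intro i hi
    rcases lt_or_eq_of_le (Nat.succ_le_of_lt hi) with h1 | h1
    · rw [hd'1 i hi, hd'1 (i + 1) h1]; exact hdlt i h1
    · have h2 : i = 2 * m - 1 := by omega
      have h3 : i + 1 = 2 * m := h1
      rw [hd'1 i hi, h3, hd'2, h2]; exact hc2
  · intro i hi
    rcases lt_or_eq_of_le (Nat.succ_le_of_lt hi) with h1 | h1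
    · rw [hd'1 i hi, hd'1 (i + 1) h1]; exact halt i h1
    · have h2 : i = 2 * m - 1 := by omega
      have h3 : i + 1 = 2 * m := h1
      rw [hd'1 i hi, h3, hd'2, (even_two_mul m).neg_one_pow, one_mul, h2]
      linarith

end Pool.Agent.CritPer
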