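import Mathlib

/-!
Counting isolated critical points of an analytic function which oscillates.
-/

open Set Filter Topology

namespace Pool.Agent.CritPer

theorem exists_zeros {T : ℝ → ℝ} (hT : ∀ b, 0 < b → AnalyticAt ℝ T b) {M : ℕ} {d : ℕ → ℝ}
    (h0 : 0 < d 0) (hd : ∀ i < M, d i < d (i + 1))
    (alt : ∀ i < M, 0 < (-1 : ℝ) ^ (i + 1) * (T (d (i + 1)) - T (d i))) :
    ∃ z : ℕ → ℝ, (∀ i, i + 1 < M → 0 < z i ∧ deriv T (z i) = 0) ∧
      ∀ i, i + 2 < M → z i < z (i + 1) := by
  have hpos : ∀ i ≤ M, 0 < d i := by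
    intro i
    induction i with
    | zero => intro _; exact h0
    | succ i ih =>
      intro hi
      exact (ih (by omega)).trans (hd i (by omega))
  have he : ∀ i, ∃ e, i < M → (d i < e ∧ e < d (i + 1) ∧ 0 < (-1 : ℝ) ^ (i + 1) * deriv T e) := by
    intro i
    by_cases hi : i < M
    · have hlt := hd i hi
      have hp := hpos i hi.le
      obtain ⟨e, he, hde⟩ := exists_deriv_eq_slope T hlt
        (fun x hx => (hT x (hp.trans_le hx.1)).continuousAt.continuousWithinAt)
        (fun x hx => (hT x (hp.trans hx.1)).differentiableAt.differentiableWithinAt)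
      refine ⟨e, fun _ => ⟨he.1, he.2, ?_⟩⟩
      rw [hde, ← mul_div_assoc]
      exact div_pos (alt i hi) (sub_pos.2 hlt)
    · exact ⟨0, fun h => absurd h hi⟩
  choose e he using he
  have hz : ∀ i, ∃ z, i + 1 < M → (e i < z ∧ z < e (i + 1) ∧ deriv T z = 0) := by
    intro i
    by_cases hi : i + 1 < M
    · obtain ⟨h1, h2, h3⟩ := he i (by omega)
      obtain ⟨h4, h5, h6⟩ := he (i + 1) hi
      have hlt : e i < e (i + 1) := h2.trans h4
      have hcont : ContinuousOn (deriv T) (Icc (e i) (e (i + 1))) := by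
        intro x hx
        have hx0 : 0 < x := ((hpos i (by omega)).trans h1).trans_le hx.1
        exact (hT x hx0).deriv.continuousAt.continuousWithinAt
      rcases Nat.even_or_odd i with hev | hod
      · have e1 : (-1 : ℝ) ^ (i + 1) = -1 := (hev.add_one).neg_one_pow
        have e2 : (-1 : ℝ) ^ (i + 1 + 1) = 1 := (hev.add_one.add_one).neg_one_pow
        rw [e1] at h3
        rw [e2] at h6
        have := intermediate_value_Ioo hlt.le hcont
        obtain ⟨z, hz, hz0⟩ := this (show (0 : ℝ) ∈ Ioo (deriv T (e i)) (deriv T (e (i + 1))) from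
          ⟨by linarith, by linarith⟩)
        exact ⟨z, fun _ => ⟨hz.1, hz.2, hz0⟩⟩
      · have e1 : (-1 : ℝ) ^ (i + 1) = 1 := (hod.add_one).neg_one_pow
        have e2 : (-1 : ℝ) ^ (i + 1 + 1) = -1 := (hod.add_one.add_one).neg_one_pow
        rw [e1] at h3
        rw [e2] at h6
        have := intermediate_value_Ioo' hlt.le hcont
        obtain ⟨z, hz, hz0⟩ := this (show (0 : ℝ) ∈ Ioo (deriv T (e (i + 1))) (deriv T (e i)) from
          ⟨by linarith, by linarith⟩)
        exact ⟨z, fun _ => ⟨hz.1, hz.2, hz0⟩⟩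
    · exact ⟨0, fun h => absurd h hi⟩
  choose z hz using hz
  refine ⟨z, fun i hi => ⟨?_, (hz i hi).2.2⟩, fun i hi => ?_⟩
  · exact ((hpos i (by omega)).trans (he i (by omega)).1).trans (hz i hi).1
  · exact (hz i (by omega)).2.1.trans (hz (i + 1) hi).1

/-- Zeros of the derivative of a non-constant analytic function are isolated. -/
theorem deriv_isolated {T : ℝ → ℝ} (hT : ∀ b, 0 < b → AnalyticAt ℝ T b) {x y : ℝ} (hx : 0 < x)
    (hy : 0 < y) (hxy : T x ≠ T y) {s : ℝ} (hs : 0 < s) :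
    ∀ᶠ r in 𝓝[≠] s, deriv T r ≠ 0 := by
  have hd : AnalyticOnNhd ℝ (deriv T) (Ioi 0) := fun b hb => (hT b hb).deriv
  by_contra hcon
  have hfreq : ∃ᶠ r in 𝓝[≠] s, deriv T r = 0 := fun h => hcon h
  have hz : EqOn (deriv T) 0 (Ioi 0) :=
    hd.eqOn_zero_of_preconnected_of_frequently_eq_zero (convex_Ioi 0).isPreconnected hs hfreq
  apply hxy
  wlog hlt : x ≤ y generalizing x y
  · exact (this hy hx (Ne.symm hxy) (le_of_lt (not_le.1 hlt))).symm
  rcases hlt.eq_or_lt with h | hlt
  · rw [h]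
  obtain ⟨c, hc, hdc⟩ := exists_deriv_eq_slope T hlt
    (fun w hw => (hT w (hx.trans_le hw.1)).continuousAt.continuousWithinAt)
    (fun w hw => (hT w (hx.trans hw.1)).differentiableAt.differentiableWithinAt)
  have h0 : deriv T c = 0 := hz (hx.trans hc.1)
  rw [h0] at hdc
  have hne : y - x ≠ 0 := (sub_pos.2 hlt).ne'
  have := (eq_div_iff hne).1 hdc
  linarith

theorem le_encard {T : ℝ → ℝ} (hT : ∀ b, 0 < b → AnalyticAt ℝ T b) {M : ℕ} {d : ℕ → ℝ}
    (hM : 1 ≤ M) (h0 : 0 < d 0) (hd : ∀ i < M, d i < d (i + 1))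
    (alt : ∀ i < M, 0 < (-1 : ℝ) ^ (i + 1) * (T (d (i + 1)) - T (d i))) :
    ((M - 1 : ℕ) : ℕ∞) ≤
      {s | 0 < s ∧ deriv T s = 0 ∧ ∀ᶠ r in 𝓝[≠] s, deriv T r ≠ 0}.encard := by
  obtain ⟨z, hz, hmono⟩ := exists_zeros hT h0 hd alt
  have hne : T (d 0) ≠ T (d 1) := by
    intro h
    have := alt 0 hM
    rw [zero_add, ← h] at this
    simp at this
  have hd1 : 0 < d 1 := h0.trans (hd 0 hM)
  have hlt : ∀ j, j + 1 < M → ∀ i < j, z i < z j := by
    intro j
    induction j with
    | zero => intro _ i hi; omega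
    | succ j ih =>
      intro hj i hi
      rcases Nat.lt_succ_iff_lt_or_eq.1 hi with h | h
      · exact (ih (by omega) i h).trans (hmono j (by omega))
      · subst h
        exact hmono i (by omega)
  have hinj : InjOn z (Set.Iio (M - 1)) := by
    intro i hi j hj hij
    rw [mem_Iio] at hi hj
    rcases lt_trichotomy i j with h | h | h
    · exact absurd hij (hlt j (by omega) i h).ne
    · exact h
    · exact absurd hij (hlt i (by omega) j h).ne'
  have hmaps : MapsTo z (Set.Iio (M - 1))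
      {s | 0 < s ∧ deriv T s = 0 ∧ ∀ᶠ r in 𝓝[≠] s, deriv T r ≠ 0} := by
    intro i hi
    rw [mem_Iio] at hi
    obtain ⟨h1, h2⟩ := hz i (by omega)
    exact ⟨h1, h2, deriv_isolated hT h0 hd1 hne h1⟩
  have h := encard_le_encard_of_injOn hmaps hinj
  have hc : (Set.Iio (M - 1)).encard = ((M - 1 : ℕ) : ℕ∞) := by
    rw [← Set.Finite.cast_ncard_eq (Set.finite_Iio _)]
    congr 1
    rw [Set.ncard_eq_toFinset_card']
    simp
  rw [hc] at h
  exact h

end Pool.Agent.CritPer
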