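import Mathlib

/-!
Definitions for MP_914726_an: centers of planar polynomial systems
`x' = P(x,y)`, `y' = Q(x,y)`, period annulus of the origin, period function,
critical periods, and the number `Nkl k l`.
-/

open Set Filter Topology

namespace Pool.Agent.CritPer

/-- The planar vector field `(P, Q)`. -/
noncomputable def vf (P Q : MvPolynomial (Fin 2) ℝ) (z : ℝ × ℝ) : ℝ × ℝ :=
  (MvPolynomial.eval ![z.1, z.2] P, MvPolynomial.eval ![z.1, z.2] Q)

/-- `γ` is a solution, defined for all times, of `z' = X z`. -/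
def IsSol (X : ℝ × ℝ → ℝ × ℝ) (γ : ℝ → ℝ × ℝ) : Prop :=
  ∀ t, HasDerivAt γ (X (γ t)) t

/-- `γ` is a non-constant periodic solution of `z' = X z`. -/
def IsPerSol (X : ℝ × ℝ → ℝ × ℝ) (γ : ℝ → ℝ × ℝ) : Prop :=
  IsSol X γ ∧ (∃ T, 0 < T ∧ ∀ t, γ (t + T) = γ t) ∧ ∃ t, γ t ≠ γ 0

/-- The set `S` surrounds the origin: the origin lies in a bounded component of the
complement of `S`. -/
def Surrounds (S : Set (ℝ × ℝ)) : Prop :=
  (0 : ℝ × ℝ) ∉ S ∧ Bornology.IsBounded (connectedComponentIn Sᶜ (0 : ℝ × ℝ))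

/-- The set of points lying on periodic orbits which surround the origin. -/
def cyc (X : ℝ × ℝ → ℝ × ℝ) : Set (ℝ × ℝ) :=
  {z | ∃ γ, IsPerSol X γ ∧ γ 0 = z ∧ Surrounds (range γ)}

/-- The origin is a center: it is an equilibrium with a punctured neighbourhood filled with
periodic orbits surrounding it. -/
def IsCenter (X : ℝ × ℝ → ℝ × ℝ) : Prop :=
  X 0 = 0 ∧ ∀ᶠ z in 𝓝[≠] (0 : ℝ × ℝ), z ∈ cyc X

/-- The period annulus of the origin (with the origin): the maximal connected open set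
containing the origin, all of whose points other than the origin lie on periodic orbits
surrounding the origin. -/
def annulus (X : ℝ × ℝ → ℝ × ℝ) : Set (ℝ × ℝ) :=
  connectedComponentIn (interior (insert 0 (cyc X))) 0

/-- The orbit of `z`. -/
def orbit (X : ℝ × ℝ → ℝ × ℝ) (z : ℝ × ℝ) : Set (ℝ × ℝ) :=
  {w | ∃ γ, IsSol X γ ∧ γ 0 = z ∧ w ∈ range γ}

/-- The minimal period of the periodic orbit through `z`. -/
noncomputable def minPeriod (X : ℝ × ℝ → ℝ × ℝ) (z : ℝ × ℝ) : ℝ :=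
  sInf {T | 0 < T ∧ ∃ γ, IsSol X γ ∧ γ 0 = z ∧ γ T = z}

/-- `c`, defined on the open interval `I`, is a smooth regular parametrisation of the periodic
orbits of the period annulus: it is transversal to the field and meets every orbit of the
annulus other than the origin exactly once. -/
structure IsParam (X : ℝ × ℝ → ℝ × ℝ) (I : Set ℝ) (c : ℝ → ℝ × ℝ) : Prop where
  isOpen : IsOpen I
  ordConnected : I.OrdConnected
  nonempty : I.Nonempty
  smooth : ContDiffOn ℝ (⊤ : ℕ∞) c I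
  mem : ∀ s ∈ I, c s ∈ annulus X ∧ c s ≠ 0
  transversal : ∀ s ∈ I, (deriv c s).1 * (X (c s)).2 - (deriv c s).2 * (X (c s)).1 ≠ 0
  unique : ∀ z ∈ annulus X, z ≠ 0 → ∃! s, s ∈ I ∧ c s ∈ orbit X z

/-- The critical periods seen in the parametrisation `c`: isolated zeros of the derivative of
the period function. -/
def critSet (X : ℝ × ℝ → ℝ × ℝ) (I : Set ℝ) (c : ℝ → ℝ × ℝ) : Set ℝ :=
  {s | s ∈ I ∧ deriv (fun r => minPeriod X (c r)) s = 0 ∧
    ∀ᶠ r in 𝓝[≠] s, deriv (fun r => minPeriod X (c r)) r ≠ 0}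

/-- `N(k,l)`: the supremum of the number of critical periods over all systems
`x' = P(x,y)`, `y' = Q(x,y)` with `P`, `Q` real homogeneous of degrees `2k+1`, `2l+1`, whose
origin is a center. -/
noncomputable def Nkl (k l : ℕ) : ℕ∞ :=
  sSup {N | ∃ P Q : MvPolynomial (Fin 2) ℝ, P.IsHomogeneous (2 * k + 1) ∧
    Q.IsHomogeneous (2 * l + 1) ∧ IsCenter (vf P Q) ∧
    ∃ (I : Set ℝ) (c : ℝ → ℝ × ℝ), IsParam (vf P Q) I c ∧ N = (critSet (vf P Q) I c).encard}

end Pool.Agent.CritPer
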