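import Pool.Agent.CritPer.Flow

/-!
The systems `x' = y f(x,y)`, `y' = -x q(x^2,y^2) f(x,y)` with `f > 0`: if the curves
`y^2 = v a (x^2)` are the orbits, then the origin is a center, the period annulus is the union of
the regions inside these curves, the positive x-axis is a regular parametrisation of the orbits,
and the minimal period is given by an explicit integral.
-/

open Set Filter Topology

namespace Pool.Agent.CritPer

/-- `v a` is the solution on `[0,a]` of `dv/du = -q(u,v)`, `v(a) = 0`. -/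
structure OFam (q v : ℝ → ℝ → ℝ) : Prop where
  qc : Continuous (fun z : ℝ × ℝ => q z.1 z.2)
  dv : ∀ a, 0 < a → ∀ u ∈ Icc 0 a, HasDerivWithinAt (v a) (-(q u (v a u))) (Icc 0 a) u
  v0 : ∀ a, 0 ≤ a → v a a = 0
  q0 : ∀ a, 0 < a → 0 < q a 0
  mono : ∀ u, 0 ≤ u → StrictMonoOn (fun a => v a u) (Ici u)
  cont : ∀ u, 0 ≤ u → ContinuousOn (fun a => v a u) (Ici u)

/-- the quotient `v a u / (a - u)` -/
noncomputable def wq (q v : ℝ → ℝ → ℝ) (a u : ℝ) : ℝ := if u = a then q a 0 else v a u / (a - u)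

/-- its square root along the curve -/
noncomputable def om (q v : ℝ → ℝ → ℝ) (b p : ℝ) : ℝ :=
  Real.sqrt (wq q v (b ^ 2) (b ^ 2 * Real.cos p ^ 2))

/-- the orbit through `(b,0)` -/
noncomputable def gam (q v : ℝ → ℝ → ℝ) (b p : ℝ) : ℝ × ℝ :=
  (b * Real.cos p, -(b * Real.sin p * om q v b p))

/-- the annulus -/
def Gset (v : ℝ → ℝ → ℝ) : Set (ℝ × ℝ) := {z | ∃ a, z.1 ^ 2 < a ∧ z.2 ^ 2 < v a (z.1 ^ 2)}

/-- the field -/
def IsFld (q : ℝ → ℝ → ℝ) (f : ℝ × ℝ → ℝ) (X : ℝ × ℝ → ℝ × ℝ) : Prop :=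
  ∀ z, X z = (z.2 * f z, -(z.1 * q (z.1 ^ 2) (z.2 ^ 2)) * f z)

variable {q v : ℝ → ℝ → ℝ}

theorem OFam.pos (F : OFam q v) {a u : ℝ} (hu : 0 ≤ u) (hua : u < a) : 0 < v a u := by
  have := F.mono u hu self_mem_Ici (show a ∈ Ici u from hua.le) hua
  simp only at this
  rwa [F.v0 u hu] at this

theorem OFam.cv (F : OFam q v) {a : ℝ} (ha : 0 < a) : ContinuousOn (v a) (Icc 0 a) :=
  fun u hu => (F.dv a ha u hu).continuousWithinAt

theorem OFam.wq_pos (F : OFam q v) {a u : ℝ} (ha : 0 < a) (hu : u ∈ Icc 0 a) : 0 < wq q v a u := by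
  unfold wq
  split_ifs with h
  · exact F.q0 a ha
  · have h1 : u < a := lt_of_le_of_ne hu.2 h
    exact div_pos (F.pos hu.1 h1) (by linarith)

theorem OFam.wq_cont (F : OFam q v) {a : ℝ} (ha : 0 < a) : ContinuousOn (wq q v a) (Icc 0 a) := by
  intro u hu
  by_cases h : u = a
  · subst h
    have hd := F.dv u ha u ⟨ha.le, le_rfl⟩
    rw [F.v0 u ha.le, hasDerivWithinAt_iff_tendsto_slope] at hd
    have h1 : Tendsto (wq q v u) (𝓝[Icc 0 u \ {u}] u) (𝓝 (q u 0)) := by
      have h2 := hd.neg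
      rw [neg_neg] at h2
      refine h2.congr' ?_
      filter_upwards [self_mem_nhdsWithin] with t ht
      have htu : t ≠ u := fun h => ht.2 (mem_singleton_iff.2 h)
      rw [slope_def_field, F.v0 u ha.le]
      unfold wq
      rw [if_neg htu]
      have e1 : t - u ≠ 0 := sub_ne_zero.2 htu
      have e2 : u - t ≠ 0 := sub_ne_zero.2 (Ne.symm htu)
      field_simp
      ring
    have h3 : ContinuousWithinAt (wq q v u) (Icc 0 u \ {u}) u := by
      have : wq q v u u = q u 0 := by simp [wq]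
      unfold ContinuousWithinAt
      rw [this]; exact h1
    have h4 := h3.insert
    refine h4.mono fun t ht => ?_
    by_cases h : t = u
    · exact Or.inl h
    · exact Or.inr ⟨ht, h⟩
  · have hua : u < a := lt_of_le_of_ne hu.2 h
    have h1 : ContinuousWithinAt (fun t => v a t / (a - t)) (Icc 0 a) u :=
      (F.cv ha u hu).div (by fun_prop) (by linarith [sub_pos.2 hua])
    refine h1.congr_of_eventuallyEq ?_ (by simp [wq, h])
    have : ∀ᶠ t in 𝓝[Icc 0 a] u, t ≠ a :=
      (eventually_ne_nhds h).filter_mono nhdsWithin_le_nhds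
    filter_upwards [this] with t ht
    simp [wq, ht]

theorem cos_mem {b : ℝ} (p : ℝ) : b ^ 2 * Real.cos p ^ 2 ∈ Icc 0 (b ^ 2) := by
  have h1 := Real.cos_sq_le_one p
  have h2 : 0 ≤ b ^ 2 := sq_nonneg b
  exact ⟨by positivity, by nlinarith⟩

theorem OFam.om_cont (F : OFam q v) {b : ℝ} (hb : 0 < b) : Continuous (om q v b) := by
  unfold om
  refine Continuous.sqrt ?_
  exact (F.wq_cont (pow_pos hb 2)).comp_continuous (by fun_prop) fun p => cos_mem p

theorem OFam.om_pos (F : OFam q v) {b : ℝ} (hb : 0 < b) (p : ℝ) : 0 < om q v b p :=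
  Real.sqrt_pos.2 (F.wq_pos (pow_pos hb 2) (cos_mem p))

theorem OFam.om_sq (F : OFam q v) {b : ℝ} (hb : 0 < b) (p : ℝ) :
    om q v b p ^ 2 = wq q v (b ^ 2) (b ^ 2 * Real.cos p ^ 2) :=
  Real.sq_sqrt (F.wq_pos (pow_pos hb 2) (cos_mem p)).le

theorem OFam.gam_cont (F : OFam q v) {b : ℝ} (hb : 0 < b) : Continuous (gam q v b) := by
  have := F.om_cont hb
  unfold gam
  fun_prop

theorem OFam.gam_sq (F : OFam q v) {b : ℝ} (hb : 0 < b) (p : ℝ) :
    (gam q v b p).2 ^ 2 = v (b ^ 2) ((gam q v b p).1 ^ 2) := by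
  show (-(b * Real.sin p * om q v b p)) ^ 2 = v (b ^ 2) ((b * Real.cos p) ^ 2)
  rw [neg_sq, mul_pow, F.om_sq hb, mul_pow b (Real.cos p)]
  have hcs := Real.sin_sq_add_cos_sq p
  unfold wq
  split_ifs with h
  · have hs : Real.sin p ^ 2 = 0 := by
      have hb2 : b ^ 2 ≠ 0 := (pow_pos hb 2).ne'
      have : Real.cos p ^ 2 = 1 := by
        apply mul_left_cancel₀ hb2; rw [h, mul_one]
      linarith
    rw [h, F.v0 _ (sq_nonneg b), mul_pow, hs]
    ring
  · have e : b ^ 2 - b ^ 2 * Real.cos p ^ 2 = (b * Real.sin p) ^ 2 := by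
      have : Real.cos p ^ 2 = 1 - Real.sin p ^ 2 := by linarith
      rw [this]; ring
    have e0 : b ^ 2 - b ^ 2 * Real.cos p ^ 2 ≠ 0 := fun h' => h (by linarith)
    rw [e] at e0 ⊢
    exact mul_div_cancel₀ _ e0

theorem OFam.gam_fst_sq {b : ℝ} (p : ℝ) : (gam q v b p).1 ^ 2 = b ^ 2 * Real.cos p ^ 2 := by
  show (b * Real.cos p) ^ 2 = _
  ring

/-- derivative of a product at a zero of the first factor -/
theorem hasDerivAt_mul_of_zero {g h : ℝ → ℝ} {g' p : ℝ} (hg : HasDerivAt g g' p) (h0 : g p = 0)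
    (hh : ContinuousAt h p) : HasDerivAt (fun t => g t * h t) (g' * h p) p := by
  rw [hasDerivAt_iff_tendsto_slope] at hg ⊢
  have h1 : Tendsto h (𝓝[≠] p) (𝓝 (h p)) := hh.tendsto.mono_left nhdsWithin_le_nhds
  refine (hg.mul h1).congr fun t => ?_
  simp only [slope_def_field, h0, zero_mul, sub_zero]
  ring

/-- the derivative of the second coordinate -/
noncomputable def gamd (q v : ℝ → ℝ → ℝ) (b p : ℝ) : ℝ :=
  -((gam q v b p).1 * q ((gam q v b p).1 ^ 2) ((gam q v b p).2 ^ 2)) / om q v b p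

theorem OFam.hasDerivAt_snd (F : OFam q v) {b : ℝ} (hb : 0 < b) (p : ℝ) :
    HasDerivAt (fun p => (gam q v b p).2) (gamd q v b p) p := by
  have hom := F.om_pos hb p
  have hb2 : 0 < b ^ 2 := pow_pos hb 2
  by_cases hp : Real.sin p = 0
  · have h1 : HasDerivAt (fun p => -(b * Real.sin p)) (-(b * Real.cos p)) p :=
      ((Real.hasDerivAt_sin p).const_mul b).neg
    have h2 := hasDerivAt_mul_of_zero h1 (by rw [hp]; ring) (F.om_cont hb).continuousAt
    have hcos : Real.cos p ^ 2 = 1 := by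
      have := Real.sin_sq_add_cos_sq p; rw [hp] at this; linarith
    have hval : gamd q v b p = -(b * Real.cos p) * om q v b p := by
      unfold gamd
      rw [F.gam_sq hb, OFam.gam_fst_sq, hcos, mul_one, F.v0 _ hb2.le]
      rw [div_eq_iff hom.ne', mul_assoc, ← pow_two, F.om_sq hb, hcos, mul_one]
      simp only [wq, if_true]
      show -(b * Real.cos p * q (b ^ 2) 0) = _
      ring
    rw [hval]
    refine h2.congr_of_eventuallyEq (Eventually.of_forall fun t => ?_)
    show -(b * Real.sin t * om q v b t) = -(b * Real.sin t) * om q v b t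
    ring
  · -- the square of the second coordinate
    set x := b * Real.cos p with hx
    have hdu : HasDerivAt (fun p => b ^ 2 * Real.cos p ^ 2)
        (b ^ 2 * (((2 : ℕ) : ℝ) * Real.cos p ^ (2 - 1) * -Real.sin p)) p :=
      ((Real.hasDerivAt_cos p).pow 2).const_mul _
    have hdv := HasDerivWithinAt.scomp_hasDerivAt (h := fun p => b ^ 2 * Real.cos p ^ 2) p
      (F.dv (b ^ 2) hb2 (b ^ 2 * Real.cos p ^ 2) (cos_mem p)) hdu (fun t => cos_mem t)
    have hsqe : ∀ t, (gam q v b t).2 ^ 2 = v (b ^ 2) (b ^ 2 * Real.cos t ^ 2) := fun t => by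
      rw [F.gam_sq hb, OFam.gam_fst_sq]
    have hsqd := hdv.congr_of_eventuallyEq (f₁ := fun t => (gam q v b t).2 ^ 2)
      (Eventually.of_forall hsqe)
    have hdiff : DifferentiableAt ℝ (fun p => (gam q v b p).2) p := by
      have hw : ∀ᶠ t in 𝓝 p, wq q v (b ^ 2) (b ^ 2 * Real.cos t ^ 2) =
          v (b ^ 2) (b ^ 2 * Real.cos t ^ 2) / (b * Real.sin t) ^ 2 := by
        filter_upwards [Real.continuous_sin.continuousAt.eventually_ne hp] with t ht
        rw [← F.om_sq hb, ← hsqe]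
        have e0 : (b * Real.sin t) ^ 2 ≠ 0 := pow_ne_zero 2 (mul_ne_zero hb.ne' ht)
        show _ = (-(b * Real.sin t * om q v b t)) ^ 2 / _
        rw [neg_sq, mul_pow]
        field_simp
      have h1 : DifferentiableAt ℝ (fun t => v (b ^ 2) (b ^ 2 * Real.cos t ^ 2) /
          (b * Real.sin t) ^ 2) p :=
        hdv.differentiableAt.div (((Real.differentiableAt_sin).const_mul _).pow 2)
          (pow_ne_zero 2 (mul_ne_zero hb.ne' hp))
      have h2 : DifferentiableAt ℝ (fun t => wq q v (b ^ 2) (b ^ 2 * Real.cos t ^ 2)) p :=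
        h1.congr_of_eventuallyEq hw
      have h3 : DifferentiableAt ℝ (om q v b) p :=
        h2.sqrt (F.wq_pos hb2 (cos_mem p)).ne'
      exact (((Real.differentiableAt_sin).const_mul _).mul h3).neg
    have hd := hdiff.hasDerivAt
    have hsq : HasDerivAt (fun p => (gam q v b p).2 ^ 2)
        (((2 : ℕ) : ℝ) * (gam q v b p).2 ^ (2 - 1) * deriv (fun p => (gam q v b p).2) p) p :=
      hd.pow 2
    have heq := hsq.unique hsqd
    have hval : deriv (fun p => (gam q v b p).2) p = gamd q v b p := by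
      have hy : (gam q v b p).2 = -(b * Real.sin p * om q v b p) := rfl
      have hy0 : (gam q v b p).2 ≠ 0 := by
        rw [hy]; exact neg_ne_zero.2 (mul_ne_zero (mul_ne_zero hb.ne' hp) hom.ne')
      have e1 : 2 * (gam q v b p).2 * deriv (fun p => (gam q v b p).2) p =
          2 * b ^ 2 * Real.cos p * Real.sin p *
            q (b ^ 2 * Real.cos p ^ 2) (v (b ^ 2) (b ^ 2 * Real.cos p ^ 2)) := by
        have e2 : 2 * (gam q v b p).2 * deriv (fun p => (gam q v b p).2) p =
          ((2 : ℕ) : ℝ) * (gam q v b p).2 ^ (2 - 1) * deriv (fun p => (gam q v b p).2) p := by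
          norm_num
        rw [e2, heq, smul_eq_mul, Nat.cast_ofNat, show 2 - 1 = 1 from rfl, pow_one]
        ring
      unfold gamd
      rw [eq_div_iff hom.ne', F.gam_sq hb, OFam.gam_fst_sq]
      show deriv (fun p => (gam q v b p).2) p * om q v b p = -(b * Real.cos p * _)
      apply mul_left_cancel₀ (mul_ne_zero two_ne_zero (mul_ne_zero hb.ne' hp))
      have e3 : 2 * (b * Real.sin p) * (deriv (fun p => (gam q v b p).2) p * om q v b p) =
          -(2 * (gam q v b p).2 * deriv (fun p => (gam q v b p).2) p) := by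
        rw [hy]; ring
      rw [e3, e1]
      ring
    rw [← hval]
    exact hd

theorem OFam.hasDerivAt_gam (F : OFam q v) {b : ℝ} (hb : 0 < b) (p : ℝ) :
    HasDerivAt (gam q v b) (-(b * Real.sin p), gamd q v b p) p := by
  have h1 : HasDerivAt (fun p => (gam q v b p).1) (-(b * Real.sin p)) p := by
    have := (Real.hasDerivAt_cos p).const_mul b
    rwa [mul_neg] at this
  exact h1.prodMk (F.hasDerivAt_snd hb p)

theorem OFam.gam_field (F : OFam q v) {f : ℝ × ℝ → ℝ} {X : ℝ × ℝ → ℝ × ℝ} (hX : IsFld q f X)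
    {b : ℝ} (hb : 0 < b) (p : ℝ) :
    (om q v b p * f (gam q v b p)) • ((-(b * Real.sin p), gamd q v b p) : ℝ × ℝ) =
      X (gam q v b p) := by
  have hom := F.om_pos hb p
  rw [hX]
  ext
  · show om q v b p * f (gam q v b p) * -(b * Real.sin p) =
      -(b * Real.sin p * om q v b p) * f (gam q v b p)
    ring
  · show om q v b p * f (gam q v b p) * gamd q v b p = _
    unfold gamd
    field_simp

theorem OFam.gam_ne (F : OFam q v) {b : ℝ} (hb : 0 < b) (p : ℝ) : gam q v b p ≠ 0 := by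
  intro h
  have h1 : b * Real.cos p = 0 := congrArg Prod.fst h
  have h2 : -(b * Real.sin p * om q v b p) = 0 := congrArg Prod.snd h
  have hc : Real.cos p = 0 := by
    rcases mul_eq_zero.1 h1 with h | h
    · exact absurd h hb.ne'
    · exact h
  have hs : Real.sin p = 0 := by
    rcases mul_eq_zero.1 (neg_eq_zero.1 h2) with h | h
    · rcases mul_eq_zero.1 h with h | h
      · exact absurd h hb.ne'
      · exact h
    · exact absurd h (F.om_pos hb p).ne'
  have := Real.sin_sq_add_cos_sq p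
  rw [hc, hs] at this
  norm_num at this

theorem gam_zero (b : ℝ) : gam q v b 0 = (b, 0) := by simp [gam]

theorem gam_pi (b : ℝ) : gam q v b Real.pi = (-b, 0) := by simp [gam]

theorem om_per (b p : ℝ) : om q v b (p + 2 * Real.pi) = om q v b p := by
  simp [om]

theorem gam_per (b p : ℝ) : gam q v b (p + 2 * Real.pi) = gam q v b p := by
  simp [gam, om_per]

theorem gam_inj {b : ℝ} (hb : 0 < b) (p : ℝ) (h : gam q v b p = gam q v b 0) :
    ∃ m : ℤ, p = m * (2 * Real.pi) := by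
  rw [gam_zero] at h
  have h1 : b * Real.cos p = b := congrArg Prod.fst h
  have h2 : Real.cos p = 1 := by
    apply mul_left_cancel₀ hb.ne'; rw [h1, mul_one]
  obtain ⟨m, hm⟩ := (Real.cos_eq_one_iff p).1 h2
  exact ⟨m, hm.symm⟩

/-- the period of the orbit through `(b,0)` -/
noncomputable def Tper (q v : ℝ → ℝ → ℝ) (f : ℝ × ℝ → ℝ) (b : ℝ) : ℝ :=
  ∫ p in (0 : ℝ)..(2 * Real.pi), 1 / (om q v b p * f (gam q v b p))

/-- the periodic solution through `(b,0)` -/
theorem OFam.exists_sol (F : OFam q v) {f : ℝ × ℝ → ℝ} {X : ℝ × ℝ → ℝ × ℝ} (hX : IsFld q f X)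
    (fc : Continuous f) (fpos : ∀ z, z ≠ 0 → 0 < f z) {b : ℝ} (hb : 0 < b) :
    ∃ γ : ℝ → ℝ × ℝ, IsSol X γ ∧ γ 0 = (b, 0) ∧ range γ = range (gam q v b) ∧
      (∀ t, γ (t + Tper q v f b) = γ t) ∧ 0 < Tper q v f b ∧
      (∀ t, γ t = γ 0 → ∃ m : ℤ, t = m * Tper q v f b) := by
  have h := exists_sol_of_curve (X := X) (g := gam q v b)
    (g' := fun p => (-(b * Real.sin p), gamd q v b p)) (w := fun p => om q v b p * f (gam q v b p))
    ((F.om_cont hb).mul (fc.comp (F.gam_cont hb)))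
    (fun p => mul_pos (F.om_pos hb p) (fpos _ (F.gam_ne hb p)))
    (fun p => by simp only [om_per, gam_per])
    (fun p => F.hasDerivAt_gam hb p) (fun p => F.gam_field hX hb p) (gam_per b) (gam_inj hb)
  rw [gam_zero] at h
  exact h

theorem OFam.mem_range (F : OFam q v) {b : ℝ} (hb : 0 < b) (z : ℝ × ℝ) :
    z ∈ range (gam q v b) ↔ z.1 ^ 2 ≤ b ^ 2 ∧ z.2 ^ 2 = v (b ^ 2) (z.1 ^ 2) := by
  constructor
  · rintro ⟨p, rfl⟩
    refine ⟨?_, F.gam_sq hb p⟩
    rw [OFam.gam_fst_sq]; exact (cos_mem p).2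
  · rintro ⟨h1, h2⟩
    have h3 : |z.1| ≤ b := by
      rw [← abs_of_pos hb]; exact sq_le_sq.1 h1
    have h4 : -1 ≤ z.1 / b ∧ z.1 / b ≤ 1 := by
      rw [abs_le] at h3
      constructor
      · rw [le_div_iff₀ hb]; linarith
      · rw [div_le_iff₀ hb]; linarith
    set p := Real.arccos (z.1 / b) with hp
    have hcos : Real.cos p = z.1 / b := Real.cos_arccos h4.1 h4.2
    have hbc : b * Real.cos p = z.1 := by rw [hcos]; field_simp
    have hsin : 0 ≤ Real.sin p := Real.sin_nonneg_of_mem_Icc ⟨Real.arccos_nonneg _,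
      Real.arccos_le_pi _⟩
    have hom := (F.om_pos hb p).le
    have hsq : (gam q v b p).2 ^ 2 = z.2 ^ 2 := by
      rw [F.gam_sq hb, h2]
      have : (gam q v b p).1 = z.1 := hbc
      rw [this]
    have hy : (gam q v b p).2 = -(b * Real.sin p * om q v b p) := rfl
    rcases sq_eq_sq_iff_eq_or_eq_neg.1 hsq with h | h
    · exact ⟨p, Prod.ext hbc h⟩
    · refine ⟨-p, Prod.ext ?_ ?_⟩
      · show b * Real.cos (-p) = z.1
        rw [Real.cos_neg, hbc]
      · show -(b * Real.sin (-p) * om q v b (-p)) = z.2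
        have : om q v b (-p) = om q v b p := by simp [om]
        rw [this, Real.sin_neg]
        rw [hy] at h
        linarith

end Pool.Agent.CritPer
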