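import Pool.Agent.CritPer.Defs

/-!
Generic facts on planar autonomous systems: uniqueness of solutions, and the periodic solution
carried by a closed curve.
-/

open Set Filter Topology

namespace Pool.Agent.CritPer

/-- Global solutions of a `C^1` system are determined by their initial value. -/
theorem IsSol.unique {X : ℝ × ℝ → ℝ × ℝ} (hX : ContDiff ℝ 1 X) {γ δ : ℝ → ℝ × ℝ}
    (h1 : IsSol X γ) (h2 : IsSol X δ) (h0 : γ 0 = δ 0) : γ = δ := by
  funext t
  have c1 : Continuous γ := continuous_iff_continuousAt.2 fun t => (h1 t).continuousAt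
  have c2 : Continuous δ := continuous_iff_continuousAt.2 fun t => (h2 t).continuousAt
  set R : ℝ := |t| + 1 with hR
  have hRpos : 0 < R := by positivity
  obtain ⟨M, hM⟩ : ∃ M, (γ '' Icc (-R) R) ∪ (δ '' Icc (-R) R) ⊆ Metric.closedBall 0 M := by
    have : Bornology.IsBounded ((γ '' Icc (-R) R) ∪ (δ '' Icc (-R) R)) :=
      ((isCompact_Icc.image c1).union (isCompact_Icc.image c2)).isBounded
    exact this.subset_closedBall 0
  obtain ⟨K, hK⟩ := (hX.contDiffOn (s := Metric.closedBall 0 M)).exists_lipschitzOnWith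
    one_ne_zero (convex_closedBall _ _) (isCompact_closedBall _ _)
  have key : EqOn γ δ (Ioo (-R) R) := by
    refine ODE_solution_unique_of_mem_Ioo (v := fun _ => X) (s := fun _ => Metric.closedBall 0 M)
      (K := K) (t₀ := 0) (fun _ _ => hK) ⟨by linarith, hRpos⟩ (fun s hs => ⟨h1 s, ?_⟩)
      (fun s hs => ⟨h2 s, ?_⟩) h0
    · exact hM (Or.inl (mem_image_of_mem _ (Ioo_subset_Icc_self hs)))
    · exact hM (Or.inr (mem_image_of_mem _ (Ioo_subset_Icc_self hs)))
  refine key ⟨?_, ?_⟩
  · have := neg_abs_le t; linarith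
  · have := le_abs_self t; linarith

theorem IsSol.shift {X : ℝ × ℝ → ℝ × ℝ} {γ : ℝ → ℝ × ℝ} (h : IsSol X γ) (s : ℝ) :
    IsSol X (fun t => γ (t + s)) := by
  intro t
  have h1 : HasDerivAt (fun t : ℝ => t + s) 1 t := (hasDerivAt_id t).add_const s
  have := (h (t + s)).scomp t h1
  rw [one_smul] at this
  exact this

/-- A closed curve `g` (of period `2π`) with `w(p) g'(p) = X(g(p))`, `w > 0`, carries a periodic
solution with minimal period `∫ 1/w`. -/
theorem exists_sol_of_curve {X : ℝ × ℝ → ℝ × ℝ} {g g' : ℝ → ℝ × ℝ} {w : ℝ → ℝ}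
    (hw : Continuous w) (hpos : ∀ p, 0 < w p) (hper : ∀ p, w (p + 2 * Real.pi) = w p)
    (hg : ∀ p, HasDerivAt g (g' p) p) (hX : ∀ p, w p • g' p = X (g p))
    (gper : ∀ p, g (p + 2 * Real.pi) = g p)
    (ginj : ∀ p, g p = g 0 → ∃ m : ℤ, p = m * (2 * Real.pi)) :
    ∃ γ : ℝ → ℝ × ℝ, IsSol X γ ∧ γ 0 = g 0 ∧ range γ = range g ∧
      (∀ t, γ (t + ∫ p in (0 : ℝ)..(2 * Real.pi), 1 / w p) = γ t) ∧
      0 < (∫ p in (0 : ℝ)..(2 * Real.pi), 1 / w p) ∧
      (∀ t, γ t = γ 0 → ∃ m : ℤ, t = m * ∫ p in (0 : ℝ)..(2 * Real.pi), 1 / w p) := by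
  have hpi : 0 < 2 * Real.pi := by positivity
  set u : ℝ → ℝ := fun p => 1 / w p with hu
  have hucont : Continuous u := continuous_const.div hw fun p => (hpos p).ne'
  have hupos : ∀ p, 0 < u p := fun p => one_div_pos.2 (hpos p)
  have huper : Function.Periodic u (2 * Real.pi) := fun p => by simp only [hu]; rw [hper]
  set τ : ℝ → ℝ := fun p => ∫ x in (0 : ℝ)..p, u x with hτ
  have hτd : ∀ p, HasDerivAt τ (u p) p := fun p =>
    intervalIntegral.integral_hasDerivAt_right (hucont.intervalIntegrable _ _)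
      (hucont.stronglyMeasurableAtFilter _ _) hucont.continuousAt
  have hτc : Continuous τ := continuous_iff_continuousAt.2 fun p => (hτd p).continuousAt
  have hτm : StrictMono τ := strictMono_of_deriv_pos fun p => by
    rw [(hτd p).deriv]; exact hupos p
  have hτs : Function.Surjective τ :=
    hτc.surjective
      (huper.tendsto_atTop_intervalIntegral_of_pos' (hucont.intervalIntegrable _ _) hupos hpi)
      (huper.tendsto_atBot_intervalIntegral_of_pos' (hucont.intervalIntegrable _ _) hupos hpi)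
  have hτ0 : τ 0 = 0 := by simp [hτ]
  set T : ℝ := ∫ p in (0 : ℝ)..(2 * Real.pi), 1 / w p with hT
  have hT' : T = τ (2 * Real.pi) := rfl
  have hTpos : 0 < T := by rw [hT', ← hτ0]; exact hτm hpi
  have hτadd : ∀ p, τ (p + 2 * Real.pi) = τ p + T := by
    intro p
    have h1 : (∫ x in (0 : ℝ)..(p + 2 * Real.pi), u x) = (∫ x in (0 : ℝ)..p, u x) +
        ∫ x in p..(p + 2 * Real.pi), u x :=
      (intervalIntegral.integral_add_adjacent_intervals (hucont.intervalIntegrable _ _)
        (hucont.intervalIntegrable _ _)).symm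
    have h2 : (∫ x in p..(p + 2 * Real.pi), u x) = ∫ x in (0:ℝ)..(0 + 2 * Real.pi), u x :=
      huper.intervalIntegral_add_eq p 0
    rw [zero_add] at h2
    show (∫ x in (0 : ℝ)..(p + 2 * Real.pi), u x) = _
    rw [h1, h2]
  set e : ℝ ≃o ℝ := StrictMono.orderIsoOfSurjective τ hτm hτs with he
  have hτe : ∀ t, τ (e.symm t) = t := fun t => e.apply_symm_apply t
  have hsc : Continuous e.symm := e.symm.continuous
  have hsd : ∀ t, HasDerivAt e.symm (w (e.symm t)) t := by
    intro t
    have := HasDerivAt.of_local_left_inverse (f := τ) (g := e.symm) (a := t) hsc.continuousAt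
      (hτd (e.symm t)) (hupos _).ne' (Eventually.of_forall hτe)
    have h2 : (u (e.symm t))⁻¹ = w (e.symm t) := by simp [hu]
    rwa [h2] at this
  have hs0 : e.symm 0 = 0 := by
    have := hτe 0
    rw [← hτ0] at this
    have := hτm.injective this
    rw [hτ0] at this
    exact this
  have hsadd : ∀ t, e.symm (t + T) = e.symm t + 2 * Real.pi := by
    intro t
    apply hτm.injective
    rw [hτe, hτadd, hτe]
  refine ⟨fun t => g (e.symm t), ?_, ?_, ?_, ?_, hTpos, ?_⟩
  · intro t
    have := (hg (e.symm t)).scomp t (hsd t)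
    rw [hX] at this
    exact this
  · show g (e.symm 0) = g 0
    rw [hs0]
  · apply Subset.antisymm
    · rintro _ ⟨t, rfl⟩; exact ⟨_, rfl⟩
    · rintro _ ⟨p, rfl⟩
      exact ⟨τ p, by show g (e.symm (τ p)) = g p; congr 1; exact e.symm_apply_apply p⟩
  · intro t
    show g (e.symm (t + T)) = g (e.symm t)
    rw [hsadd, gper]
  · intro t ht
    have ht' : g (e.symm t) = g 0 := by
      have : g (e.symm t) = g (e.symm 0) := ht
      rwa [hs0] at this
    obtain ⟨m, hm⟩ := ginj _ ht'
    refine ⟨m, ?_⟩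
    have hz : ∀ m : ℕ, τ (m * (2 * Real.pi)) = m * T := by
      intro m
      induction m with
      | zero => simp [hτ0]
      | succ m ih =>
        push_cast
        rw [show ((m : ℝ) + 1) * (2 * Real.pi) = m * (2 * Real.pi) + 2 * Real.pi by ring, hτadd, ih]
        ring
    have hzn : ∀ m : ℕ, τ (-(m * (2 * Real.pi))) = -(m * T) := by
      intro m
      induction m with
      | zero => simp [hτ0]
      | succ m ih =>
        have h3 := hτadd (-(((m + 1 : ℕ) : ℝ) * (2 * Real.pi)))
        rw [show -(((m + 1 : ℕ) : ℝ) * (2 * Real.pi)) + 2 * Real.pi = -(m * (2 * Real.pi)) by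
          push_cast; ring, ih] at h3
        push_cast at h3 ⊢
        linarith
    have hmz : τ (m * (2 * Real.pi)) = m * T := by
      rcases Int.eq_nat_or_neg m with ⟨j, rfl | rfl⟩
      · exact_mod_cast hz j
      · have := hzn j
        push_cast
        rw [show -(j : ℝ) * (2 * Real.pi) = -(j * (2 * Real.pi)) by ring, this]
        ring
    rw [← hmz, ← hm, hτe]

/-- the minimal period of such a solution -/
theorem minPeriod_eq {X : ℝ × ℝ → ℝ × ℝ} (hX : ContDiff ℝ 1 X) {γ : ℝ → ℝ × ℝ} (hs : IsSol X γ)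
    {T : ℝ} (hT : 0 < T) (hper : ∀ t, γ (t + T) = γ t)
    (hmin : ∀ t, γ t = γ 0 → ∃ m : ℤ, t = m * T) : minPeriod X (γ 0) = T := by
  have h1 : T ∈ {T | 0 < T ∧ ∃ δ, IsSol X δ ∧ δ 0 = γ 0 ∧ δ T = γ 0} := by
    refine ⟨hT, γ, hs, rfl, ?_⟩
    have := hper 0
    rwa [zero_add] at this
  apply le_antisymm
  · exact csInf_le ⟨0, fun t ht => ht.1.le⟩ h1
  · refine le_csInf ⟨T, h1⟩ ?_
    rintro t ⟨ht, δ, hδ, hδ0, hδt⟩
    have : δ = γ := hδ.unique hX hs hδ0
    subst this
    obtain ⟨m, hm⟩ := hmin t (hδt.trans rfl)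
    have hm0 : 0 < (m : ℝ) := by
      by_contra hc
      have : (m : ℝ) * T ≤ 0 := mul_nonpos_of_nonpos_of_nonneg (not_lt.1 hc) hT.le
      linarith
    have hm1 : (1 : ℝ) ≤ m := by
      have : 0 < m := by exact_mod_cast hm0
      exact_mod_cast this
    nlinarith

end Pool.Agent.CritPer
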