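import Pool.Agent.CritPer.Limit
import Pool.Agent.CritPer.Count

/-!
Lower bounds for `Nkl k (k + n)`.
-/

open Set Filter Topology MeasureTheory

namespace Pool.Agent.CritPer

theorem isHomogeneous_PP {F : MvPolynomial (Fin 2) ℝ} {k : ℕ} (hF : F.IsHomogeneous (2 * k)) :
    (PP F).IsHomogeneous (2 * k + 1) := by
  have := (MvPolynomial.isHomogeneous_X ℝ (1 : Fin 2)).mul hF
  rw [add_comm] at this
  exact this

theorem isHomogeneous_QQ {n : ℕ} (hn : 1 ≤ n) {F : MvPolynomial (Fin 2) ℝ} {k : ℕ}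
    (hF : F.IsHomogeneous (2 * k)) : (QQ n F).IsHomogeneous (2 * (k + n) + 1) := by
  have h1 := MvPolynomial.isHomogeneous_C (Fin 2) (-(n : ℝ))
  have h2 := (MvPolynomial.isHomogeneous_X ℝ (0 : Fin 2)).pow (2 * n - 1)
  have h3 : (MvPolynomial.X 0 ^ 2 - MvPolynomial.X 1 ^ 2 :
      MvPolynomial (Fin 2) ℝ).IsHomogeneous (1 * 2) :=
    ((MvPolynomial.isHomogeneous_X ℝ (0 : Fin 2)).pow 2).sub
      ((MvPolynomial.isHomogeneous_X ℝ (1 : Fin 2)).pow 2)
  have h4 := ((h1.mul h2).mul h3).mul hF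
  have h5 : 0 + 1 * (2 * n - 1) + 1 * 2 + 2 * k = 2 * (k + n) + 1 := by omega
  rw [h5] at h4
  exact h4

/-- A form `F` for which the period integral oscillates gives a lower bound. -/
theorem le_Nkl {n k : ℕ} (hn : 1 ≤ n) {F : MvPolynomial (Fin 2) ℝ}
    (hF : F.IsHomogeneous (2 * k)) (hpos : ∀ z : ℝ × ℝ, z ≠ 0 → 0 < ev F z) {M : ℕ} {d : ℕ → ℝ}
    (hM : 1 ≤ M) (h0 : 0 < d 0) (hd : ∀ i < M, d i < d (i + 1))
    (alt : ∀ i < M, 0 < (-1 : ℝ) ^ (i + 1) * (Tf n (ev F) (d (i + 1)) - Tf n (ev F) (d i))) :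
    ((M - 1 : ℕ) : ℕ∞) ≤ Nkl k (k + n) := by
  have h1 := le_encard (fun b hb => analyticAt_Tf hn hpos hb) hM h0 hd alt
  refine h1.trans ?_
  refine le_sSup ?_
  refine ⟨PP F, QQ n F, isHomogeneous_PP hF, isHomogeneous_QQ hn hF, isCenter_A hn hpos,
    Ioi 0, fun b => (b, 0), isParam_A hn hpos, ?_⟩
  congr 1
  have heq : ∀ s : ℝ, 0 < s → (fun r => minPeriod (vf (PP F) (QQ n F)) ((r, 0) : ℝ × ℝ)) =ᶠ[𝓝 s]
      Tf n (ev F) := by
    intro s hs
    filter_upwards [lt_mem_nhds hs] with r hr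
    exact minPeriod_A hn hpos hr
  have hder : ∀ s : ℝ, 0 < s → deriv (fun r => minPeriod (vf (PP F) (QQ n F))
      ((r, 0) : ℝ × ℝ)) s = deriv (Tf n (ev F)) s := fun s hs => (heq s hs).deriv_eq
  ext s
  unfold critSet
  constructor
  · rintro ⟨hs, h2, h3⟩
    refine ⟨hs, (hder s hs).trans h2, ?_⟩
    filter_upwards [h3, nhdsWithin_le_nhds (lt_mem_nhds hs)] with r hr1 hr2
    rw [hder r hr2]
    exact hr1
  · rintro ⟨hs, h2, h3⟩
    have hs' : 0 < s := hs
    refine ⟨hs', (hder s hs').symm.trans h2, ?_⟩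
    filter_upwards [h3, nhdsWithin_le_nhds (lt_mem_nhds hs')] with r hr1 hr2
    rw [← hder r hr2]
    exact hr1

/-- Many oscillations. -/
theorem lower_pos {n k : ℕ} (hn : 1 ≤ n) (hk : 1 ≤ k) :
    ((2 * k - 1 : ℕ) : ℕ∞) ≤ Nkl k (k + n) := by
  obtain ⟨κ0, hfam⟩ := exists_fam hn hk
  obtain ⟨K, A, d, hK, hinj, hA, hd0, hd, halt⟩ := chain_final hfam hk
  set β : Fin k → ℝ := fun j => Real.sqrt (K j) with hβ
  have hβ1 : ∀ j, 1 < β j := by
    intro j
    have := Real.sqrt_lt_sqrt zero_le_one (hK j).1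
    rwa [Real.sqrt_one] at this
  have hβsq : ∀ j, β j ^ 2 = K j := fun j => Real.sq_sqrt (by linarith [(hK j).1])
  have hβinj : Function.Injective β := by
    intro i j hij
    apply hinj
    rw [← hβsq i, ← hβsq j, hij]
  have hprodpos : ∀ i, 0 < ∏ j ∈ Finset.univ.erase i, (β i - β j) ^ 2 := by
    intro i
    refine Finset.prod_pos fun j hj => ?_
    have hji : j ≠ i := Finset.ne_of_mem_erase hj
    have : β i - β j ≠ 0 := sub_ne_zero.2 fun h => hji (hβinj h).symm
    positivity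
  set a : Fin k → ℝ := fun i => 2 * Real.pi /
    (A i * ∏ j ∈ Finset.univ.erase i, (β i - β j) ^ 2) with ha
  have hapos : ∀ i, 0 < a i := by
    intro i
    have h1 := hA i
    have h2 := hprodpos i
    have h3 := Real.pi_pos
    simp only [ha]
    positivity
  have hAa : ∀ i, 2 * Real.pi / (a i * ∏ j ∈ Finset.univ.erase i, (β i - β j) ^ 2) = A i := by
    intro i
    have h1 := hA i
    have h2 := hprodpos i
    have h3 := Real.pi_pos
    simp only [ha]
    field_simp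
  have hlim : ∀ b, 0 < b → Tendsto (fun δ : ℝ => δ * Tf n (ev (FF β a δ)) b) (𝓝[>] 0)
      (𝓝 (∑ j, A j * omk n k (K j) b)) := by
    intro b hb
    have h1 := tendsto_Tf (n := n) hn hk hβ1 hβinj hapos hb
    have h2 : ∑ j, 2 * Real.pi / (a j * ∏ i ∈ Finset.univ.erase j, (β j - β i) ^ 2) *
        omk n k (β j ^ 2) b = ∑ j, A j * omk n k (K j) b := by
      refine Finset.sum_congr rfl fun j _ => ?_
      rw [hAa, hβsq]
    rw [h2] at h1
    exact h1
  have hdpos : ∀ i ≤ 2 * k, 0 < d i := by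
    intro i
    induction i with
    | zero => intro _; exact hd0
    | succ i ih => intro hi; exact (ih (by omega)).trans (hd i (by omega))
  have hev : ∀ i ∈ Finset.range (2 * k), ∀ᶠ δ : ℝ in 𝓝[>] 0,
      0 < (-1 : ℝ) ^ (i + 1) * (δ * Tf n (ev (FF β a δ)) (d (i + 1)) -
        δ * Tf n (ev (FF β a δ)) (d i)) := by
    intro i hi
    have hi' : i < 2 * k := Finset.mem_range.1 hi
    have h1 := ((hlim _ (hdpos (i + 1) (by omega))).sub
      (hlim _ (hdpos i (by omega)))).const_mul ((-1 : ℝ) ^ (i + 1))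
    exact h1.eventually (lt_mem_nhds (halt i hi'))
  obtain ⟨δ, hδ1, hδ2⟩ := (((Finset.eventually_all _).2 hev).and self_mem_nhdsWithin).exists
  have hδ : (0 : ℝ) < δ := hδ2
  refine le_Nkl hn (isHomogeneous_FF β a δ) (fun z hz => ev_FF_pos hδ.ne' hapos hz)
    (M := 2 * k) (d := d) (by omega) hd0 hd ?_
  intro i hi
  have h1 := hδ1 i (Finset.mem_range.2 hi)
  have h2 : (-1 : ℝ) ^ (i + 1) * (δ * Tf n (ev (FF β a δ)) (d (i + 1)) -
        δ * Tf n (ev (FF β a δ)) (d i)) = δ * ((-1 : ℝ) ^ (i + 1) *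
        (Tf n (ev (FF β a δ)) (d (i + 1)) - Tf n (ev (FF β a δ)) (d i))) := by ring
  rw [h2] at h1
  exact (mul_pos_iff_of_pos_left hδ).1 h1

/-! ### The case `k = 0` -/

theorem ev_one (z : ℝ × ℝ) : ev (1 : MvPolynomial (Fin 2) ℝ) z = 1 := by simp [ev]

theorem Tf_one (n : ℕ) (b : ℝ) : Tf n (ev 1) b =
    ∫ p in (0 : ℝ)..(2 * Real.pi), 1 / (b ^ n * Wf n b p) := by
  unfold Tf
  simp only [ev_one, mul_one]

theorem Vf_le {n : ℕ} (b p : ℝ) : Vf n b p ≤ n := by
  unfold Vf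
  have h1 : ∀ r ∈ Icc (0 : ℝ) 1, (n : ℝ) * sg p r ^ n *
      Real.exp (b ^ (2 * n) * (sg p 0 ^ n - sg p r ^ n)) ≤ n := by
    intro r hr
    have hs0 : 0 ≤ sg p 0 := sg_nonneg p 0 le_rfl
    have hs1 : sg p 0 ≤ sg p r := by
      unfold sg
      have : 0 ≤ r * Real.sin p ^ 2 := mul_nonneg hr.1 (sq_nonneg _)
      linarith
    have hs2 : sg p r ≤ 1 := by
      unfold sg
      have := Real.sin_sq_add_cos_sq p
      have h2 : r * Real.sin p ^ 2 ≤ 1 * Real.sin p ^ 2 :=
        mul_le_mul_of_nonneg_right hr.2 (sq_nonneg _)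
      linarith
    have h3 : sg p r ^ n ≤ 1 := pow_le_one₀ (hs0.trans hs1) hs2
    have h4 : sg p 0 ^ n ≤ sg p r ^ n := pow_le_pow_left₀ hs0 hs1 n
    have h5 : Real.exp (b ^ (2 * n) * (sg p 0 ^ n - sg p r ^ n)) ≤ 1 := by
      rw [Real.exp_le_one_iff]
      have : 0 ≤ b ^ (2 * n) := by rw [pow_mul]; positivity
      exact mul_nonpos_of_nonneg_of_nonpos this (by linarith)
    have h6 : 0 ≤ sg p r ^ n := pow_nonneg (hs0.trans hs1) n
    calc (n : ℝ) * sg p r ^ n * Real.exp (b ^ (2 * n) * (sg p 0 ^ n - sg p r ^ n))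
        ≤ (n : ℝ) * 1 * 1 := by
          refine mul_le_mul (mul_le_mul_of_nonneg_left h3 (Nat.cast_nonneg n)) h5
            (Real.exp_pos _).le (by positivity)
      _ = n := by ring
  have hc : Continuous (fun r : ℝ => (n : ℝ) * sg p r ^ n *
      Real.exp (b ^ (2 * n) * (sg p 0 ^ n - sg p r ^ n))) := by
    unfold sg; fun_prop
  have := intervalIntegral.integral_mono_on zero_le_one (hc.intervalIntegrable 0 1)
    (continuous_const.intervalIntegrable 0 1 : IntervalIntegrable (fun _ : ℝ => (n : ℝ)) volume 0 1)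
    h1
  simpa using this

theorem cont_inv {n : ℕ} (hn : 1 ≤ n) {b : ℝ} (hb : 0 < b) :
    Continuous (fun p => 1 / (b ^ n * Wf n b p)) :=
  Continuous.div continuous_const (continuous_const.mul (cont_Wf n b))
    fun p => (mul_pos (pow_pos hb n) (Wf_pos hn b p)).ne'

theorem Tf_one_ge_small {n : ℕ} (hn : 1 ≤ n) {b : ℝ} (hb : 0 < b) :
    2 * Real.pi / (b ^ n * Real.sqrt n) ≤ Tf n (ev 1) b := by
  rw [Tf_one]
  have hbn : 0 < b ^ n := pow_pos hb n
  have hn0 : (0 : ℝ) < n := by exact_mod_cast hn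
  have h1 : ∀ p ∈ Icc (0 : ℝ) (2 * Real.pi), 1 / (b ^ n * Real.sqrt n) ≤
      1 / (b ^ n * Wf n b p) := by
    intro p _
    refine one_div_le_one_div_of_le (mul_pos hbn (Wf_pos hn b p)) ?_
    exact mul_le_mul_of_nonneg_left (Real.sqrt_le_sqrt (Vf_le b p)) hbn.le
  have := intervalIntegral.integral_mono_on (by positivity : (0 : ℝ) ≤ 2 * Real.pi)
    (continuous_const.intervalIntegrable _ _ : IntervalIntegrable
      (fun _ : ℝ => 1 / (b ^ n * Real.sqrt n)) volume 0 (2 * Real.pi))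
    ((cont_inv hn hb).intervalIntegrable _ _) h1
  rw [intervalIntegral.integral_const, smul_eq_mul, sub_zero] at this
  calc 2 * Real.pi / (b ^ n * Real.sqrt n) = 2 * Real.pi * (1 / (b ^ n * Real.sqrt n)) := by ring
    _ ≤ _ := this

/-- On the right of `x = 1` the ordinate is at most `√2 x`. -/
theorem Yf_sq_le {n : ℕ} (hn : 1 ≤ n) {b : ℝ} (p : ℝ) (hX : 1 ≤ Xf b p) :
    Yf n b p ^ 2 ≤ 2 * Xf b p ^ 2 := by
  have h1 := curve_level hn b p
  have hU : 1 ≤ Xf b p ^ 2 := one_le_pow₀ hX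
  set U := Xf b p ^ 2 with hUd
  have h2 := hs_le_Zc hn (show 0 < U by linarith)
  have h3 := Phi_lt_hs hn (sq_nonneg b)
  have hn1 : (1 : ℝ) ≤ n := by exact_mod_cast hn
  have h4 : 1 * (U / (n * U ^ n)) ≤ U := by
    rw [one_mul, div_le_iff₀ (by positivity)]
    have h6 : 1 ≤ U ^ n := one_le_pow₀ hU
    have h7 : 1 ≤ (n : ℝ) * U ^ n := one_le_mul_of_one_le_of_one_le hn1 h6
    nlinarith
  unfold Zc at h2
  have h5 := mul_le_mul_of_nonneg_left h4 (Real.exp_pos (-U ^ n)).le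
  have h6 : Real.exp (-U ^ n) * Yf n b p ^ 2 ≤ Real.exp (-U ^ n) * (2 * U) := by nlinarith
  exact le_of_mul_le_mul_left h6 (Real.exp_pos _)

theorem Tf_one_ge_large {n : ℕ} (hn : 1 ≤ n) {b : ℝ} (hb : 1 ≤ b) :
    Real.log b / 2 ≤ Tf n (ev 1) b := by
  rw [Tf_one]
  have hb0 : 0 < b := by linarith
  have hbn : 0 < b ^ n := pow_pos hb0 n
  set θ : ℝ := Real.arccos (1 / b) with hθ
  have h1b : 1 / b ≤ 1 := by rw [div_le_one hb0]; exact hb
  have h1b0 : 0 < 1 / b := by positivity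
  have hcos : Real.cos θ = 1 / b := Real.cos_arccos (by linarith) h1b
  have hθ0 : 0 ≤ θ := Real.arccos_nonneg _
  have hθ2 : θ < Real.pi / 2 := Real.arccos_lt_pi_div_two.2 h1b0
  have hpi := Real.pi_pos
  have hpos : ∀ p, 0 ≤ 1 / (b ^ n * Wf n b p) := fun p => by
    have := Wf_pos hn b p
    positivity
  have hint : ∀ x y : ℝ, IntervalIntegrable (fun p => 1 / (b ^ n * Wf n b p)) volume x y :=
    fun x y => (cont_inv hn hb0).intervalIntegrable x y
  have h2 : (∫ p in (0 : ℝ)..θ, 1 / (b ^ n * Wf n b p)) ≤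
      ∫ p in (0 : ℝ)..(2 * Real.pi), 1 / (b ^ n * Wf n b p) :=
    intervalIntegral.integral_mono_interval le_rfl hθ0 (by linarith)
      (Eventually.of_forall hpos) (hint _ _)
  refine le_trans ?_ h2
  -- lower bound of the integrand by tan/2
  have hcospos : ∀ p ∈ Icc (0 : ℝ) θ, 0 < Real.cos p ∧ 1 / b ≤ Real.cos p ∧ 0 ≤ Real.sin p := by
    intro p hp
    have h3 : Real.cos θ ≤ Real.cos p :=
      Real.cos_le_cos_of_nonneg_of_le_pi hp.1 (by linarith) hp.2
    rw [hcos] at h3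
    exact ⟨by linarith, h3, Real.sin_nonneg_of_nonneg_of_le_pi hp.1 (by linarith [hp.2])⟩
  have hlow : ∀ p ∈ Icc (0 : ℝ) θ, Real.sin p / Real.cos p / 2 ≤ 1 / (b ^ n * Wf n b p) := by
    intro p hp
    obtain ⟨c1, c2, c3⟩ := hcospos p hp
    have hX : 1 ≤ Xf b p := by
      unfold Xf
      have := mul_le_mul_of_nonneg_left c2 hb0.le
      rwa [mul_one_div_cancel hb0.ne'] at this
    have hY := Yf_sq_le hn p hX
    have hW := Wf_pos hn b p
    have hw : 0 < b ^ n * Wf n b p := mul_pos hbn hW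
    have hYe : Yf n b p = b * Real.sin p * (b ^ n * Wf n b p) := by unfold Yf; ring
    have hXpos : 0 < Xf b p := by linarith
    have hYle : Yf n b p ≤ 2 * Xf b p := by
      have : Yf n b p ^ 2 ≤ (2 * Xf b p) ^ 2 := by nlinarith
      exact le_of_sq_le_sq this (by positivity)
    rw [le_div_iff₀ hw, div_div, div_mul_eq_mul_div, div_le_one (by positivity)]
    rw [hYe] at hYle
    unfold Xf at hYle
    have h5 : b * (Real.sin p * (b ^ n * Wf n b p)) ≤ b * (Real.cos p * 2) := by linarith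
    exact le_of_mul_le_mul_left h5 hb0
  have htan : (∫ p in (0 : ℝ)..θ, Real.sin p / Real.cos p / 2) = Real.log b / 2 := by
    have hd : ∀ p ∈ uIcc (0 : ℝ) θ, HasDerivAt (fun p => -Real.log (Real.cos p) / 2)
        (Real.sin p / Real.cos p / 2) p := by
      intro p hp
      rw [uIcc_of_le hθ0] at hp
      have hc := (hcospos p hp).1
      have := (((Real.hasDerivAt_cos p).log hc.ne').neg).div_const 2
      refine this.congr_deriv ?_
      ring
    have hci : ContinuousOn (fun p => Real.sin p / Real.cos p / 2) (uIcc (0 : ℝ) θ) := by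
      rw [uIcc_of_le hθ0]
      exact (Real.continuous_sin.continuousOn.div Real.continuous_cos.continuousOn
        (fun p hp => (hcospos p hp).1.ne')).div_const 2
    rw [intervalIntegral.integral_eq_sub_of_hasDerivAt hd hci.intervalIntegrable]
    rw [hcos, Real.cos_zero, Real.log_one, one_div, Real.log_inv]
    ring
  rw [← htan]
  have hci : ContinuousOn (fun p => Real.sin p / Real.cos p / 2) (uIcc (0 : ℝ) θ) := by
    rw [uIcc_of_le hθ0]
    exact (Real.continuous_sin.continuousOn.div Real.continuous_cos.continuousOn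
      (fun p hp => (hcospos p hp).1.ne')).div_const 2
  exact intervalIntegral.integral_mono_on hθ0 hci.intervalIntegrable (hint _ _) hlow

/-- The case `k = 0`. -/
theorem lower_zero {n : ℕ} (hn : 1 ≤ n) : ((1 : ℕ) : ℕ∞) ≤ Nkl 0 (0 + n) := by
  have hn0 : (0 : ℝ) < n := by exact_mod_cast hn
  -- small orbit
  obtain ⟨b0, hb0, hb01, hbT⟩ : ∃ b0, 0 < b0 ∧ b0 < 1 ∧ Tf n (ev 1) 1 < Tf n (ev 1) b0 := by
    have h1 : Tendsto (fun b : ℝ => 2 * Real.pi / (b ^ n * Real.sqrt n)) (𝓝[>] 0) atTop := by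
      have h2 : Tendsto (fun b : ℝ => b ^ n * Real.sqrt n) (𝓝[>] 0) (𝓝[>] 0) := by
        rw [tendsto_nhdsWithin_iff]
        constructor
        · have : Tendsto (fun b : ℝ => b ^ n * Real.sqrt n) (𝓝 0) (𝓝 (0 ^ n * Real.sqrt n)) :=
            Continuous.tendsto (by fun_prop) 0
          rw [zero_pow (by omega), zero_mul] at this
          exact this.mono_left nhdsWithin_le_nhds
        · filter_upwards [self_mem_nhdsWithin] with b hb
          have hb' : (0 : ℝ) < b := hb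
          exact mul_pos (pow_pos hb' n) (Real.sqrt_pos.2 hn0)
      have h3 := (tendsto_inv_nhdsGT_zero.comp h2).const_mul_atTop
        (show (0 : ℝ) < 2 * Real.pi by positivity)
      exact h3
    have h2 : ∀ᶠ b : ℝ in 𝓝[>] 0, b < 1 :=
      (eventually_lt_nhds zero_lt_one).filter_mono nhdsWithin_le_nhds
    obtain ⟨b, hb1, hb2, hb3⟩ := ((h1.eventually_gt_atTop (Tf n (ev 1) 1)).and
      (h2.and self_mem_nhdsWithin)).exists
    exact ⟨b, hb3, hb2, hb1.trans_le (Tf_one_ge_small hn hb3)⟩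
  -- large orbit
  obtain ⟨b2, hb21, hb2T⟩ : ∃ b2, 1 < b2 ∧ Tf n (ev 1) 1 < Tf n (ev 1) b2 := by
    have h1 : Tendsto (fun b : ℝ => Real.log b / 2) atTop atTop :=
      Real.tendsto_log_atTop.atTop_div_const (by norm_num)
    obtain ⟨b, hb1, hb2⟩ := ((h1.eventually_gt_atTop (Tf n (ev 1) 1)).and
      (eventually_gt_atTop 1)).exists
    exact ⟨b, hb2, hb1.trans_le (Tf_one_ge_large hn hb2.le)⟩
  have hF : (1 : MvPolynomial (Fin 2) ℝ).IsHomogeneous (2 * 0) := by
    rw [mul_zero]; exact MvPolynomial.isHomogeneous_one _ _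
  have := le_Nkl (k := 0) hn hF (fun z _ => by rw [ev_one]; exact one_pos) (M := 2)
    (d := fun i => if i = 0 then b0 else if i = 1 then 1 else b2) (by norm_num) (by simpa using hb0)
    (by
      intro i hi
      interval_cases i
      · simpa using hb01
      · simpa using hb21)
    (by
      intro i hi
      interval_cases i
      · simpa using hbT
      · simpa using hb2T)
  simpa using this

/-- Lower bound for `k < l`. -/
theorem lower {k l : ℕ} (h : k < l) : ((max 1 (2 * k - 1) : ℕ) : ℕ∞) ≤ Nkl k l := by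
  obtain ⟨n, rfl⟩ := Nat.exists_eq_add_of_lt h
  have hn : 1 ≤ n + 1 := by omega
  have e : k + n + 1 = k + (n + 1) := by ring
  rw [e]
  rcases Nat.eq_zero_or_pos k with h0 | hk
  · subst h0
    have := lower_zero hn
    simpa using this
  · have h1 : max 1 (2 * k - 1) = 2 * k - 1 := by omega
    rw [h1]
    exact lower_pos hn hk

end Pool.Agent.CritPer
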