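import Pool.Agent.CritPer.Defs

/-!
Interchanging `x` and `y`: `Nkl k l = Nkl l k`.
-/

open Set Filter Topology

namespace Pool.Agent.CritPer

/-- The field with interchanged coordinates. -/
def Xs (X : ℝ × ℝ → ℝ × ℝ) (z : ℝ × ℝ) : ℝ × ℝ := (X z.swap).swap

theorem Xs_Xs (X : ℝ × ℝ → ℝ × ℝ) : Xs (Xs X) = X := by
  funext z; simp [Xs]

theorem hasDerivAt_swap {γ : ℝ → ℝ × ℝ} {γ' : ℝ × ℝ} {t : ℝ} (h : HasDerivAt γ γ' t) :
    HasDerivAt (fun t => (γ t).swap) γ'.swap t := by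
  have h1 : HasDerivAt (fun t => (γ t).1) γ'.1 t :=
    (ContinuousLinearMap.fst ℝ ℝ ℝ).hasFDerivAt.comp_hasDerivAt t h
  have h2 : HasDerivAt (fun t => (γ t).2) γ'.2 t :=
    (ContinuousLinearMap.snd ℝ ℝ ℝ).hasFDerivAt.comp_hasDerivAt t h
  exact h2.prodMk h1

theorem IsSol.swap {X : ℝ × ℝ → ℝ × ℝ} {γ : ℝ → ℝ × ℝ} (h : IsSol X γ) :
    IsSol (Xs X) (fun t => (γ t).swap) := by
  intro t
  have := hasDerivAt_swap (h t)
  unfold Xs
  simpa using this

theorem IsSol.of_swap {X : ℝ × ℝ → ℝ × ℝ} {γ : ℝ → ℝ × ℝ} (h : IsSol (Xs X) γ) :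
    IsSol X (fun t => (γ t).swap) := by
  have := h.swap
  rwa [Xs_Xs] at this

theorem IsPerSol.swap {X : ℝ × ℝ → ℝ × ℝ} {γ : ℝ → ℝ × ℝ} (h : IsPerSol X γ) :
    IsPerSol (Xs X) (fun t => (γ t).swap) := by
  obtain ⟨h1, ⟨T, hT, hper⟩, t, ht⟩ := h
  refine ⟨h1.swap, ⟨T, hT, fun t => by simp only [hper]⟩, t, fun h => ht ?_⟩
  exact Prod.swap_injective h

theorem range_swap (γ : ℝ → ℝ × ℝ) : range (fun t => (γ t).swap) =
    (Homeomorph.prodComm ℝ ℝ) '' range γ := by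
  rw [← range_comp]; rfl

theorem Surrounds.swap {S : Set (ℝ × ℝ)} (h : Surrounds S) :
    Surrounds ((Homeomorph.prodComm ℝ ℝ) '' S) := by
  obtain ⟨h0, hb⟩ := h
  have e0 : (Homeomorph.prodComm ℝ ℝ) (0 : ℝ × ℝ) = 0 := rfl
  constructor
  · rintro ⟨z, hz, hz0⟩
    have : z = 0 := by
      have h3 : z.swap = (0 : ℝ × ℝ) := hz0
      have h4 : z = (0 : ℝ × ℝ).swap := by rw [← h3, Prod.swap_swap]
      exact h4
    exact h0 (this ▸ hz)
  · have h1 : ((Homeomorph.prodComm ℝ ℝ) '' S)ᶜ = (Homeomorph.prodComm ℝ ℝ) '' Sᶜ :=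
      (image_compl_eq (Homeomorph.prodComm ℝ ℝ).bijective).symm
    rw [h1, ← e0, ← Homeomorph.image_connectedComponentIn _ (show (0 : ℝ × ℝ) ∈ Sᶜ from h0)]
    obtain ⟨C, hC⟩ := hb.exists_norm_le
    rw [isBounded_iff_forall_norm_le]
    refine ⟨C, ?_⟩
    rintro _ ⟨z, hz, rfl⟩
    have h3 := hC z hz
    have h4 : ‖(Homeomorph.prodComm ℝ ℝ) z‖ = ‖z‖ := by
      show ‖z.swap‖ = ‖z‖
      rw [Prod.norm_def, Prod.norm_def, max_comm]
      rfl
    rw [h4]; exact h3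

theorem cyc_swap_sub {X : ℝ × ℝ → ℝ × ℝ} {z : ℝ × ℝ} (h : z ∈ cyc X) : z.swap ∈ cyc (Xs X) := by
  obtain ⟨γ, h1, h2, h3⟩ := h
  refine ⟨fun t => (γ t).swap, h1.swap, by simp only [h2], ?_⟩
  rw [range_swap]
  exact h3.swap

theorem cyc_swap (X : ℝ × ℝ → ℝ × ℝ) : cyc (Xs X) = (Homeomorph.prodComm ℝ ℝ) ⁻¹' cyc X := by
  ext z
  constructor
  · intro h
    have := cyc_swap_sub h
    rwa [Xs_Xs] at this
  · intro h
    have := cyc_swap_sub (show (z.swap : ℝ × ℝ) ∈ cyc X from h)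
    rwa [Prod.swap_swap] at this

theorem annulus_swap (X : ℝ × ℝ → ℝ × ℝ) :
    annulus (Xs X) = (Homeomorph.prodComm ℝ ℝ) ⁻¹' annulus X := by
  unfold annulus
  have h1 : insert (0 : ℝ × ℝ) (cyc (Xs X)) =
      (Homeomorph.prodComm ℝ ℝ) ⁻¹' insert 0 (cyc X) := by
    rw [cyc_swap]
    ext z
    simp only [mem_insert_iff, mem_preimage]
    constructor
    · rintro (h | h)
      · left; rw [h]; rfl
      · right; exact h
    · rintro (h | h)
      · left
        have h3 : z.swap = (0 : ℝ × ℝ) := h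
        have h4 : z = (0 : ℝ × ℝ).swap := by rw [← h3, Prod.swap_swap]
        exact h4
      · right; exact h
  rw [h1, ← Homeomorph.preimage_interior]
  by_cases hmem : (0 : ℝ × ℝ) ∈ interior (insert 0 (cyc X))
  · have h2 := Homeomorph.image_connectedComponentIn (Homeomorph.prodComm ℝ ℝ).symm hmem
    rw [← Homeomorph.image_symm, h2]
    rfl
  · have h3 : (0 : ℝ × ℝ) ∉ (Homeomorph.prodComm ℝ ℝ) ⁻¹' interior (insert 0 (cyc X)) := hmem
    rw [connectedComponentIn_eq_empty hmem, connectedComponentIn_eq_empty h3, preimage_empty]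

theorem orbit_swap_sub {X : ℝ × ℝ → ℝ × ℝ} {z w : ℝ × ℝ} (h : w ∈ orbit X z) :
    w.swap ∈ orbit (Xs X) z.swap := by
  obtain ⟨γ, h1, h2, t, h3⟩ := h
  exact ⟨fun t => (γ t).swap, h1.swap, by simp only [h2], t, by simp only [h3]⟩

theorem orbit_swap {X : ℝ × ℝ → ℝ × ℝ} {z w : ℝ × ℝ} :
    w ∈ orbit (Xs X) z ↔ w.swap ∈ orbit X z.swap := by
  constructor
  · intro h
    have := orbit_swap_sub h
    rwa [Xs_Xs] at this
  · intro h
    have := orbit_swap_sub h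
    rwa [Prod.swap_swap, Prod.swap_swap] at this

theorem minPeriod_swap (X : ℝ × ℝ → ℝ × ℝ) (z : ℝ × ℝ) :
    minPeriod (Xs X) z.swap = minPeriod X z := by
  unfold minPeriod
  congr 1
  ext T
  constructor
  · rintro ⟨hT, γ, h1, h2, h3⟩
    refine ⟨hT, fun t => (γ t).swap, h1.of_swap, by simp only [h2, Prod.swap_swap],
      by simp only [h3, Prod.swap_swap]⟩
  · rintro ⟨hT, γ, h1, h2, h3⟩
    exact ⟨hT, fun t => (γ t).swap, h1.swap, by simp only [h2], by simp only [h3]⟩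

theorem IsCenter.swap {X : ℝ × ℝ → ℝ × ℝ} (h : IsCenter X) : IsCenter (Xs X) := by
  obtain ⟨h0, h1⟩ := h
  refine ⟨?_, ?_⟩
  · unfold Xs
    have : ((0 : ℝ × ℝ)).swap = 0 := rfl
    rw [this, h0, this]
  · have hc : Tendsto (fun z : ℝ × ℝ => z.swap) (𝓝[≠] 0) (𝓝[≠] 0) := by
      rw [tendsto_nhdsWithin_iff]
      constructor
      · have : Tendsto (fun z : ℝ × ℝ => z.swap) (𝓝 0) (𝓝 ((0 : ℝ × ℝ).swap)) :=
          continuous_swap.tendsto 0
        exact this.mono_left nhdsWithin_le_nhds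
      · filter_upwards [self_mem_nhdsWithin] with z hz hz0
        apply hz
        have h3 : z.swap = (0 : ℝ × ℝ) := hz0
        have h4 : z = (0 : ℝ × ℝ).swap := by rw [← h3, Prod.swap_swap]
        exact h4
    filter_upwards [hc.eventually h1] with z hz
    rw [cyc_swap]
    exact hz

theorem IsParam.swap {X : ℝ × ℝ → ℝ × ℝ} {I : Set ℝ} {c : ℝ → ℝ × ℝ} (h : IsParam X I c) :
    IsParam (Xs X) I (fun s => (c s).swap) := by
  have hne : ∀ z : ℝ × ℝ, z ≠ 0 → z.swap ≠ 0 := by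
    intro z hz h0
    apply hz
    have h4 : z = (0 : ℝ × ℝ).swap := by rw [← h0, Prod.swap_swap]
    exact h4
  refine ⟨h.isOpen, h.ordConnected, h.nonempty, ?_, ?_, ?_, ?_⟩
  · exact h.smooth.snd.prodMk h.smooth.fst
  · intro s hs
    refine ⟨?_, hne _ (h.mem s hs).2⟩
    rw [annulus_swap]
    show (c s).swap.swap ∈ annulus X
    rw [Prod.swap_swap]
    exact (h.mem s hs).1
  · intro s hs
    have hd : DifferentiableAt ℝ c s := by
      have h1 : DifferentiableOn ℝ c I := h.smooth.differentiableOn (by simp)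
      exact h1.differentiableAt (h.isOpen.mem_nhds hs)
    have hd2 := (hasDerivAt_swap hd.hasDerivAt).deriv
    rw [hd2]
    have := h.transversal s hs
    unfold Xs
    simp only [Prod.swap_swap, Prod.fst_swap, Prod.snd_swap]
    intro h0
    apply this
    linarith
  · intro z hz hz0
    rw [annulus_swap] at hz
    obtain ⟨s, hs, hu⟩ := h.unique z.swap hz (hne z hz0)
    refine ⟨s, ⟨hs.1, ?_⟩, ?_⟩
    · rw [orbit_swap, Prod.swap_swap]
      exact hs.2
    · rintro y ⟨hy1, hy2⟩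
      rw [orbit_swap, Prod.swap_swap] at hy2
      exact hu y ⟨hy1, hy2⟩

theorem critSet_swap (X : ℝ × ℝ → ℝ × ℝ) (I : Set ℝ) (c : ℝ → ℝ × ℝ) :
    critSet (Xs X) I (fun s => (c s).swap) = critSet X I c := by
  unfold critSet
  simp only [minPeriod_swap]

/-- The polynomial with interchanged variables. -/
noncomputable def ren (P : MvPolynomial (Fin 2) ℝ) : MvPolynomial (Fin 2) ℝ :=
  MvPolynomial.rename (Equiv.swap (0 : Fin 2) 1) P

theorem vf_ren (P Q : MvPolynomial (Fin 2) ℝ) : vf (ren Q) (ren P) = Xs (vf P Q) := by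
  funext z
  unfold vf ren Xs
  have h : (![z.1, z.2] ∘ (Equiv.swap (0 : Fin 2) 1)) = ![z.2, z.1] := by
    funext i
    fin_cases i <;> simp
  rw [MvPolynomial.eval_rename, MvPolynomial.eval_rename, h]
  rfl

theorem Nkl_le_swap (k l : ℕ) : Nkl k l ≤ Nkl l k := by
  unfold Nkl
  refine sSup_le ?_
  rintro N ⟨P, Q, hP, hQ, hC, I, c, hI, rfl⟩
  refine le_sSup ⟨ren Q, ren P, ?_, ?_, ?_, I, fun s => (c s).swap, ?_, ?_⟩
  · exact hQ.rename_isHomogeneous
  · exact hP.rename_isHomogeneous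
  · rw [vf_ren]; exact hC.swap
  · rw [vf_ren]; exact hI.swap
  · rw [vf_ren, critSet_swap]

theorem Nkl_comm (k l : ℕ) : Nkl k l = Nkl l k :=
  le_antisymm (Nkl_le_swap k l) (Nkl_le_swap l k)

end Pool.Agent.CritPer
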