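import Pool.Agent.CritPer.Analytic

/-!
Properties of `Phi n`, its limit `hs n`, and the level identity on the curve.
-/

open Set Filter Topology MeasureTheory

namespace Pool.Agent.CritPer

theorem continuous_Phi_int (n : ℕ) : Continuous (fun s : ℝ => (n : ℝ) * s ^ n * Real.exp (-s ^ n)) := by
  fun_prop

theorem hasDerivAt_Phi (n : ℕ) (u : ℝ) :
    HasDerivAt (Phi n) ((n : ℝ) * u ^ n * Real.exp (-u ^ n)) u :=
  intervalIntegral.integral_hasDerivAt_right ((continuous_Phi_int n).intervalIntegrable _ _)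
    ((continuous_Phi_int n).stronglyMeasurableAtFilter _ _) (continuous_Phi_int n).continuousAt

theorem Phi_zero (n : ℕ) : Phi n 0 = 0 := by simp [Phi]

theorem continuous_Phi (n : ℕ) : Continuous (Phi n) :=
  continuous_iff_continuousAt.2 fun u => (hasDerivAt_Phi n u).continuousAt

theorem strictMonoOn_Phi {n : ℕ} (hn : 1 ≤ n) : StrictMonoOn (Phi n) (Ici 0) := by
  apply strictMonoOn_of_deriv_pos (convex_Ici 0) (continuous_Phi n).continuousOn
  intro u hu
  rw [interior_Ici] at hu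
  have hu' : (0 : ℝ) < u := hu
  rw [(hasDerivAt_Phi n u).deriv]
  have : (0 : ℝ) < n := by exact_mod_cast hn
  positivity

theorem Phi_nonneg {n : ℕ} (hn : 1 ≤ n) {u : ℝ} (hu : 0 ≤ u) : 0 ≤ Phi n u := by
  rw [← Phi_zero n]
  exact (strictMonoOn_Phi hn).monotoneOn self_mem_Ici hu hu

theorem Phi_pos {n : ℕ} (hn : 1 ≤ n) {u : ℝ} (hu : 0 < u) : 0 < Phi n u := by
  rw [← Phi_zero n]
  exact strictMonoOn_Phi hn self_mem_Ici hu.le hu

/-- The level of the curve. -/
theorem curve_level {n : ℕ} (hn : 1 ≤ n) (b p : ℝ) :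
    Real.exp (-((Xf b p) ^ 2) ^ n) * (Yf n b p) ^ 2 = Phi n (b ^ 2) - Phi n ((Xf b p) ^ 2) := by
  have hX : (Xf b p) ^ 2 = b ^ 2 * sg p 0 := by
    rw [sg_zero]; unfold Xf; ring
  have h1 : Phi n (b ^ 2) - Phi n (b ^ 2 * sg p 0) =
      ∫ s in (b ^ 2 * sg p 0)..(b ^ 2), (n : ℝ) * s ^ n * Real.exp (-s ^ n) := by
    unfold Phi
    rw [intervalIntegral.integral_interval_sub_left
      ((continuous_Phi_int n).intervalIntegrable _ _)
      ((continuous_Phi_int n).intervalIntegrable _ _)]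
  have h2 : (b ^ 2 * Real.sin p ^ 2) * ∫ r in (0 : ℝ)..1,
      ((n : ℝ) * (b ^ 2 * sg p 0 + (b ^ 2 * Real.sin p ^ 2) * r) ^ n *
        Real.exp (-(b ^ 2 * sg p 0 + (b ^ 2 * Real.sin p ^ 2) * r) ^ n)) =
      ∫ s in (b ^ 2 * sg p 0)..(b ^ 2), (n : ℝ) * s ^ n * Real.exp (-s ^ n) := by
    have := intervalIntegral.mul_integral_comp_add_mul
      (f := fun s : ℝ => (n : ℝ) * s ^ n * Real.exp (-s ^ n)) (a := 0) (b := 1)
      (b ^ 2 * Real.sin p ^ 2) (b ^ 2 * sg p 0)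
    rw [this]
    congr 1
    · ring
    · rw [sg_zero]
      have := Real.sin_sq_add_cos_sq p
      linear_combination b ^ 2 * this
  rw [hX, h1, ← h2]
  have hY : (Yf n b p) ^ 2 = b ^ (2 * n + 2) * Real.sin p ^ 2 * Vf n b p := by
    unfold Yf
    rw [mul_pow, mul_pow, Wf_sq hn]
    ring
  rw [hY]
  unfold Vf
  rw [← intervalIntegral.integral_const_mul, ← intervalIntegral.integral_const_mul,
    ← intervalIntegral.integral_const_mul]
  congr 1
  funext r
  have hs : b ^ 2 * sg p 0 + b ^ 2 * Real.sin p ^ 2 * r = b ^ 2 * sg p r := by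
    unfold sg; ring
  rw [hs]
  have he : Real.exp (b ^ (2 * n) * (sg p 0 ^ n - sg p r ^ n)) =
      Real.exp ((b ^ 2 * sg p 0) ^ n) * Real.exp (-(b ^ 2 * sg p r) ^ n) := by
    rw [← Real.exp_add]
    congr 1
    rw [mul_pow, mul_pow, ← pow_mul]
    ring
  rw [he]
  have hc : Real.exp (-(b ^ 2 * sg p 0) ^ n) * Real.exp ((b ^ 2 * sg p 0) ^ n) = 1 := by
    rw [← Real.exp_add]; simp
  have hpow : b ^ (2 * n + 2) * sg p r ^ n = b ^ 2 * (b ^ 2 * sg p r) ^ n := by
    rw [mul_pow, ← pow_mul]; ring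
  linear_combination (b ^ (2 * n + 2) * Real.sin p ^ 2 * (n : ℝ) * sg p r ^ n *
    Real.exp (-(b ^ 2 * sg p r) ^ n)) * hc + (Real.sin p ^ 2 * (n : ℝ) *
    Real.exp (-(b ^ 2 * sg p r) ^ n)) * hpow

theorem Hf_curve {n : ℕ} (hn : 1 ≤ n) (b p : ℝ) :
    Hf n (Xf b p, Yf n b p) = Phi n (b ^ 2) := by
  unfold Hf
  simp only
  rw [curve_level hn]
  ring

/-- Exponential decay. -/
theorem tendsto_pow_mul_exp {n : ℕ} (hn : 1 ≤ n) (m : ℕ) :
    Tendsto (fun u : ℝ => u ^ m * Real.exp (-u ^ n)) atTop (𝓝 0) := by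
  have h1 := Real.tendsto_pow_mul_exp_neg_atTop_nhds_zero m
  refine squeeze_zero' ?_ ?_ h1
  · filter_upwards [eventually_ge_atTop 0] with u hu
    positivity
  · filter_upwards [eventually_ge_atTop 1] with u hu
    refine mul_le_mul_of_nonneg_left ?_ (by positivity)
    apply Real.exp_le_exp.2
    have : u ≤ u ^ n := le_self_pow₀ hu (by omega)
    linarith

/-- A function with non-positive derivative, tending to `0` at infinity, is nonnegative. -/
theorem nonneg_of_antitone {f f' : ℝ → ℝ} {a : ℝ} (hf : ∀ z, a ≤ z → HasDerivAt f (f' z) z)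
    (hf' : ∀ z, a ≤ z → f' z ≤ 0) {l : ℝ} (h0 : Tendsto f atTop (𝓝 l)) : l ≤ f a := by
  have hanti : AntitoneOn f (Ici a) := by
    refine antitoneOn_of_deriv_nonpos (convex_Ici a)
      (fun z hz => (hf z hz).continuousAt.continuousWithinAt)
      (fun z hz => (hf z (interior_subset hz)).differentiableAt.differentiableWithinAt)
      (fun z hz => ?_)
    rw [(hf z (interior_subset hz)).deriv]
    exact hf' z (interior_subset hz)
  refine le_of_tendsto h0 ?_
  filter_upwards [eventually_ge_atTop a] with z hz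
  exact hanti self_mem_Ici hz hz

/-- `Z_c(u) = e^(-u^n) (u + c u/(n u^n)) + Phi(u)` and its derivative. -/
theorem hasDerivAt_Z {n : ℕ} (hn : 1 ≤ n) (c : ℝ) {u : ℝ} (hu : 0 < u) :
    HasDerivAt (fun u => Real.exp (-u ^ n) * (u + c * (u / (n * u ^ n))) + Phi n u)
      (Real.exp (-u ^ n) * (1 - c - c * ((n - 1) / (n * u ^ n)))) u := by
  have hn0 : (n : ℝ) ≠ 0 := by positivity
  have hun : u ^ n ≠ 0 := (pow_pos hu n).ne'
  have h1 : HasDerivAt (fun u : ℝ => -u ^ n) (-(n * u ^ (n - 1))) u := (hasDerivAt_pow n u).neg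
  have h2 := h1.exp
  have h3 : HasDerivAt (fun u : ℝ => (n : ℝ) * u ^ n) ((n : ℝ) * (n * u ^ (n - 1))) u :=
    (hasDerivAt_pow n u).const_mul _
  have h4 : HasDerivAt (fun u : ℝ => u / ((n : ℝ) * u ^ n))
      ((1 * (n * u ^ n) - u * (n * (n * u ^ (n - 1)))) / (n * u ^ n) ^ 2) u :=
    (hasDerivAt_id' u).div h3 (mul_ne_zero hn0 hun)
  have h5 : HasDerivAt (fun u : ℝ => u + c * (u / ((n : ℝ) * u ^ n)))
      (1 + c * ((1 * (n * u ^ n) - u * (n * (n * u ^ (n - 1)))) / (n * u ^ n) ^ 2)) u :=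
    (hasDerivAt_id' u).add (h4.const_mul c)
  have h6 := (h2.mul h5).add (hasDerivAt_Phi n u)
  refine h6.congr_deriv ?_
  have hp : u ^ n = u * u ^ (n - 1) := by
    rw [← pow_succ']; congr 1; omega
  have hp1 : u ^ (n - 1) ≠ 0 := (pow_pos hu _).ne'
  rw [hp]
  field_simp
  ring

end Pool.Agent.CritPer
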