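import Pool.Agent.CritPer.Center
import Pool.Agent.CritPer.Phi

/-!
The systems `x' = y F`, `y' = -n x^(2n-1) (x^2-y^2) F`: center, parametrisation, minimal period.
-/

open Set Filter Topology

namespace Pool.Agent.CritPer

/-! ### Smoothness of polynomial fields -/

theorem contDiff_eval (P : MvPolynomial (Fin 2) ℝ) {m : WithTop ℕ∞} :
    ContDiff ℝ m (fun z : ℝ × ℝ => MvPolynomial.eval ![z.1, z.2] P) := by
  induction P using MvPolynomial.induction_on with
  | C a => simp only [MvPolynomial.eval_C]; exact contDiff_const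
  | add p q hp hq => simp only [map_add]; exact hp.add hq
  | mul_X p i hp =>
    simp only [map_mul, MvPolynomial.eval_X]
    refine hp.mul ?_
    fin_cases i
    · exact contDiff_fst
    · exact contDiff_snd

theorem contDiff_vf (P Q : MvPolynomial (Fin 2) ℝ) {m : WithTop ℕ∞} : ContDiff ℝ m (vf P Q) :=
  (contDiff_eval P).prodMk (contDiff_eval Q)

/-! ### The family -/

/-- `q(u,v) = n u^(n-1) (u-v)` -/
def qA (n : ℕ) (u v : ℝ) : ℝ := n * u ^ (n - 1) * (u - v)

/-- `v_a(u) = exp(u^n) (Φ(a) - Φ(u))` -/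
noncomputable def vA (n : ℕ) (a u : ℝ) : ℝ := Real.exp (u ^ n) * (Phi n a - Phi n u)

variable {n : ℕ}

theorem hasDerivAt_vA (hn : 1 ≤ n) (a u : ℝ) :
    HasDerivAt (vA n a) (-(qA n u (vA n a u))) u := by
  have h1 : HasDerivAt (fun u : ℝ => Real.exp (u ^ n)) (Real.exp (u ^ n) * (n * u ^ (n - 1))) u :=
    (hasDerivAt_pow n u).exp
  have h2 : HasDerivAt (fun u : ℝ => Phi n a - Phi n u) (-(n * u ^ n * Real.exp (-u ^ n))) u :=
    (hasDerivAt_Phi n u).const_sub _
  have h3 := h1.mul h2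
  refine h3.congr_deriv ?_
  have e1 : Real.exp (u ^ n) * Real.exp (-u ^ n) = 1 := by
    rw [← Real.exp_add, add_neg_cancel, Real.exp_zero]
  have e2 : u ^ n = u ^ (n - 1) * u := by rw [← pow_succ]; congr 1; omega
  unfold qA vA
  linear_combination (-(n * u ^ n)) * e1 - n * e2

theorem oFamA (hn : 1 ≤ n) : OFam (qA n) (vA n) where
  qc := by unfold qA; fun_prop
  dv := fun a _ u _ => (hasDerivAt_vA hn a u).hasDerivWithinAt
  v0 := fun a _ => by simp [vA]
  q0 := fun a ha => by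
    have hn' : (0 : ℝ) < n := by exact_mod_cast hn
    have : 0 < a ^ (n - 1) := pow_pos ha _
    unfold qA
    rw [sub_zero]; positivity
  mono := fun u hu a ha b hb hab => by
    have h1 := strictMonoOn_Phi hn (show (0 : ℝ) ≤ a from hu.trans ha)
      (show (0 : ℝ) ≤ b from hu.trans hb) hab
    have h2 := Real.exp_pos (u ^ n)
    unfold vA
    exact mul_lt_mul_of_pos_left (by linarith) h2
  cont := fun u _ => by
    have := continuous_Phi n
    unfold vA
    exact (continuous_const.mul (this.sub continuous_const)).continuousOn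

theorem isFldA (hn : 1 ≤ n) (F : MvPolynomial (Fin 2) ℝ) :
    IsFld (qA n) (ev F) (vf (PP F) (QQ n F)) := by
  intro z
  rw [vf_PPQQ]
  have h : z.1 ^ (2 * n - 1) = z.1 * (z.1 ^ 2) ^ (n - 1) := by
    rw [← pow_mul, ← pow_succ']; congr 1; omega
  ext
  · rfl
  · show -(n : ℝ) * z.1 ^ (2 * n - 1) * (z.1 ^ 2 - z.2 ^ 2) * ev F z =
      -(z.1 * (n * (z.1 ^ 2) ^ (n - 1) * (z.1 ^ 2 - z.2 ^ 2))) * ev F z
    rw [h]; ring

theorem om_eq (hn : 1 ≤ n) {b : ℝ} (hb : 0 < b) (p : ℝ) :
    om (qA n) (vA n) b p = b ^ n * Wf n b p := by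
  have hbn : 0 < b ^ n := pow_pos hb n
  unfold om Wf
  have key : wq (qA n) (vA n) (b ^ 2) (b ^ 2 * Real.cos p ^ 2) = (b ^ n) ^ 2 * Vf n b p := by
    have hcs := Real.sin_sq_add_cos_sq p
    have hb2 : b ^ 2 ≠ 0 := (pow_pos hb 2).ne'
    unfold wq
    split_ifs with h
    · have hc : Real.cos p ^ 2 = 1 := by
        apply mul_left_cancel₀ hb2; rw [h, mul_one]
      have hs : Real.sin p ^ 2 = 0 := by linarith
      have hV : Vf n b p = n := by
        unfold Vf
        have : ∀ r : ℝ, sg p r = 1 := fun r => by unfold sg; rw [hc, hs]; ring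
        simp [this]
      rw [hV]
      unfold qA
      rw [sub_zero]
      have : (b ^ 2) ^ (n - 1) * b ^ 2 = (b ^ n) ^ 2 := by
        rw [← pow_succ, ← pow_mul, ← pow_mul]; congr 1; omega
      linear_combination (n : ℝ) * this
    · have hX : b ^ 2 * Real.cos p ^ 2 = (Xf b p) ^ 2 := by unfold Xf; ring
      have hl := curve_level hn b p
      have hY : (Yf n b p) ^ 2 = (b * Real.sin p) ^ 2 * ((b ^ n) ^ 2 * Vf n b p) := by
        unfold Yf
        rw [mul_pow, mul_pow, Wf_sq hn]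
        ring
      have hE : Real.exp ((Xf b p ^ 2) ^ n) * Real.exp (-((Xf b p) ^ 2) ^ n) = 1 := by
        rw [← Real.exp_add, add_neg_cancel, Real.exp_zero]
      have hv : vA n (b ^ 2) (Xf b p ^ 2) = (Yf n b p) ^ 2 := by
        unfold vA
        rw [← hl]
        linear_combination (Yf n b p) ^ 2 * hE
      have e : b ^ 2 - (Xf b p) ^ 2 = (b * Real.sin p) ^ 2 := by
        unfold Xf
        linear_combination (-b ^ 2) * hcs
      have e0 : (b * Real.sin p) ^ 2 ≠ 0 := by
        rw [← e, ← hX]; intro h'; exact h (by linarith)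
      rw [hX, hv, e, hY, mul_comm, mul_div_assoc, div_self e0, mul_one]
  rw [key, Real.sqrt_mul (by positivity), Real.sqrt_sq hbn.le]

theorem Tper_eq (hn : 1 ≤ n) (f : ℝ × ℝ → ℝ) {b : ℝ} (hb : 0 < b) :
    Tper (qA n) (vA n) f b = Tf n f b := by
  set k : ℝ → ℝ := fun p => 1 / (b ^ n * Wf n b p * f (Xf b p, Yf n b p)) with hk
  have hW : ∀ p, Wf n b (-p) = Wf n b p := fun p => by simp [Wf, Vf, sg]
  have hWp : ∀ p, Wf n b (p + 2 * Real.pi) = Wf n b p := fun p => by simp [Wf, Vf, sg]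
  have hkper : Function.Periodic k (2 * Real.pi) := fun p => by
    simp only [hk]
    have h1 : Xf b (p + 2 * Real.pi) = Xf b p := by simp [Xf]
    have h2 : Yf n b (p + 2 * Real.pi) = Yf n b p := by simp [Yf, hWp]
    rw [hWp, h1, h2]
  have hint : ∀ p, 1 / (om (qA n) (vA n) b p * f (gam (qA n) (vA n) b p)) = k (-p) := by
    intro p
    simp only [hk]
    rw [hW, om_eq hn hb]
    have h1 : gam (qA n) (vA n) b p = (Xf b (-p), Yf n b (-p)) := by
      unfold gam
      rw [om_eq hn hb]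
      ext
      · simp [Xf]
      · simp only [Yf, hW, Real.sin_neg]; ring
    rw [h1]
  unfold Tper Tf
  simp only [hint]
  rw [intervalIntegral.integral_comp_neg]
  have h3 := hkper.intervalIntegral_add_eq (-(2 * Real.pi)) 0
  simp only [neg_add_cancel, zero_add] at h3
  rw [neg_zero]
  exact h3

/-! ### The final statements -/

theorem isCenter_A (hn : 1 ≤ n) {F : MvPolynomial (Fin 2) ℝ} (hF : ∀ z, z ≠ 0 → 0 < ev F z) :
    IsCenter (vf (PP F) (QQ n F)) :=
  (oFamA hn).isCenter (isFldA hn F) (continuous_ev F) hF (contDiff_vf _ _)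

theorem isParam_A (hn : 1 ≤ n) {F : MvPolynomial (Fin 2) ℝ} (hF : ∀ z, z ≠ 0 → 0 < ev F z) :
    IsParam (vf (PP F) (QQ n F)) (Ioi 0) (fun b => (b, 0)) :=
  (oFamA hn).isParam (isFldA hn F) (continuous_ev F) hF (contDiff_vf _ _)

theorem minPeriod_A (hn : 1 ≤ n) {F : MvPolynomial (Fin 2) ℝ} (hF : ∀ z, z ≠ 0 → 0 < ev F z)
    {b : ℝ} (hb : 0 < b) : minPeriod (vf (PP F) (QQ n F)) (b, 0) = Tf n (ev F) b := by
  rw [(oFamA hn).minPeriod_eq (isFldA hn F) (continuous_ev F) hF (contDiff_vf _ _) hb,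
    Tper_eq hn _ hb]

end Pool.Agent.CritPer
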