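import Mathlib

/-!
Concentration of integrals `δ ∫ G / ∏ (q_i^2 + δ^2 p_i^2)` at the zeros of the `q_i`.
-/

open Set Filter Topology MeasureTheory

namespace Pool.Agent.CritPer

/-- Lower bound for the denominator. -/
theorem denom_lower {α β φ : ℝ} (h1 : α < φ) (h2 : φ < β) {q p : ℝ → ℝ}
    (hq : ContinuousOn q (Icc α β)) (hp : ContinuousOn p (Icc α β)) (hq0 : q φ = 0)
    (hqne : ∀ x ∈ Icc α β, x ≠ φ → q x ≠ 0) {q' : ℝ} (hd : HasDerivAt q q' φ) (hq' : q' ≠ 0)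
    (hp0 : 0 < p φ) :
    ∃ c, 0 < c ∧ ∀ x ∈ Icc α β, ∀ δ : ℝ, 0 < δ → δ ≤ 1 →
      c * ((x - φ) ^ 2 + δ ^ 2) ≤ q x ^ 2 + δ ^ 2 * p x ^ 2 := by
  have hφ : φ ∈ Icc α β := ⟨h1.le, h2.le⟩
  have hnh : Icc α β ∈ 𝓝 φ := Icc_mem_nhds h1 h2
  have hds : ContinuousOn (dslope q φ) (Icc α β) := by
    rw [continuousOn_dslope hnh]
    exact ⟨hq, hd.differentiableAt⟩
  have hdne : ∀ x ∈ Icc α β, dslope q φ x ≠ 0 := by
    intro x hx
    rcases eq_or_ne x φ with h | h
    · rw [h, dslope_same, hd.deriv]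
      exact hq'
    · rw [dslope_of_ne _ h, slope_def_field, hq0, sub_zero]
      exact div_ne_zero (hqne x hx h) (sub_ne_zero.2 h)
  obtain ⟨x1, hx1, hmin1⟩ := isCompact_Icc.exists_isMinOn ⟨φ, hφ⟩ hds.abs
  have hc1 : 0 < |dslope q φ x1| := abs_pos.2 (hdne x1 hx1)
  have hcont2 : ContinuousOn (fun x => q x ^ 2 + p x ^ 2) (Icc α β) := (hq.pow 2).add (hp.pow 2)
  obtain ⟨x2, hx2, hmin2⟩ := isCompact_Icc.exists_isMinOn ⟨φ, hφ⟩ hcont2
  have hc2 : 0 < q x2 ^ 2 + p x2 ^ 2 := by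
    rcases eq_or_ne x2 φ with h | h
    · rw [h]; positivity
    · have := hqne x2 hx2 h
      positivity
  set c1 := |dslope q φ x1| with hc1def
  set c2 := q x2 ^ 2 + p x2 ^ 2 with hc2def
  refine ⟨min (c1 ^ 2) c2 / 2, by positivity, fun x hx δ hδ hδ1 => ?_⟩
  have e1 : c1 * |x - φ| ≤ |q x| := by
    have h := hmin1 hx
    simp only [Set.mem_ofPred_eq] at h
    have h3 : q x = dslope q φ x * (x - φ) := by
      have := sub_smul_dslope q φ x
      rw [hq0, sub_zero, smul_eq_mul] at this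
      rw [← this, mul_comm]
    rw [h3, abs_mul]
    exact mul_le_mul_of_nonneg_right h (abs_nonneg _)
  have e2 : c1 ^ 2 * (x - φ) ^ 2 ≤ q x ^ 2 := by
    have h := mul_self_le_mul_self (by positivity) e1
    have h4 : c1 * |x - φ| * (c1 * |x - φ|) = c1 ^ 2 * (x - φ) ^ 2 := by
      rw [show c1 * |x - φ| * (c1 * |x - φ|) = c1 ^ 2 * (|x - φ| ^ 2) by ring, sq_abs (x - φ)]
    have h5 : |q x| * |q x| = q x ^ 2 := by rw [← sq, sq_abs]
    rw [h4, h5] at h
    exact h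
  have e3 : c2 ≤ q x ^ 2 + p x ^ 2 := hmin2 hx
  have hδ2 : δ ^ 2 ≤ 1 := by nlinarith
  have e4 : δ ^ 2 * c2 ≤ q x ^ 2 + δ ^ 2 * p x ^ 2 := by
    have := mul_le_mul_of_nonneg_left e3 (sq_nonneg δ)
    nlinarith [sq_nonneg (q x)]
  have e5 : min (c1 ^ 2) c2 * (x - φ) ^ 2 ≤ c1 ^ 2 * (x - φ) ^ 2 :=
    mul_le_mul_of_nonneg_right (min_le_left _ _) (sq_nonneg _)
  have e6 : min (c1 ^ 2) c2 * δ ^ 2 ≤ c2 * δ ^ 2 :=
    mul_le_mul_of_nonneg_right (min_le_right _ _) (sq_nonneg _)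
  have e7 : 0 ≤ δ ^ 2 * p x ^ 2 := by positivity
  nlinarith

theorem integral_lorentz {a p : ℝ} (ha : a ≠ 0) (hp : 0 < p) (g : ℝ) :
    ∫ y : ℝ, g / ((a * y) ^ 2 + p ^ 2) = Real.pi * g / (|a| * p) := by
  have h1 : ∀ y : ℝ, g / ((a * y) ^ 2 + p ^ 2) = g / p ^ 2 * (1 + (a / p * y) ^ 2)⁻¹ := by
    intro y
    have h2 : (a * y) ^ 2 + p ^ 2 = p ^ 2 * (1 + (a / p * y) ^ 2) := by
      field_simp
      ring
    rw [h2, div_mul_eq_div_div, div_eq_mul_inv (g / p ^ 2)]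
  simp_rw [h1]
  rw [MeasureTheory.integral_const_mul]
  have h3 := MeasureTheory.Measure.integral_comp_mul_left (fun x : ℝ => (1 + x ^ 2)⁻¹) (a / p)
  rw [h3, integral_univ_inv_one_add_sq, smul_eq_mul]
  have : |(a / p)⁻¹| = p / |a| := by
    rw [abs_inv, abs_div, abs_of_pos hp, inv_div]
  rw [this]
  have ha' : |a| ≠ 0 := abs_ne_zero.2 ha
  field_simp

theorem spike_single {α β φ : ℝ} (h1 : α < φ) (h2 : φ < β) {q p : ℝ → ℝ}
    (hq : ContinuousOn q (Icc α β)) (hp : ContinuousOn p (Icc α β)) (hq0 : q φ = 0)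
    (hqne : ∀ x ∈ Icc α β, x ≠ φ → q x ≠ 0) {q' : ℝ} (hd : HasDerivAt q q' φ) (hq' : q' ≠ 0)
    (hp0 : 0 < p φ) {g : ℝ → ℝ → ℝ} {C g0 : ℝ} (hgm : ∀ δ, 0 < δ → ContinuousOn (g δ) (Icc α β))
    (hgC : ∀ δ, 0 < δ → ∀ x ∈ Icc α β, |g δ x| ≤ C)
    (hg0 : ∀ y : ℝ, Tendsto (fun δ => g δ (φ + δ * y)) (𝓝[>] 0) (𝓝 g0)) :
    Tendsto (fun δ : ℝ => δ * ∫ x in α..β, g δ x / (q x ^ 2 + δ ^ 2 * p x ^ 2)) (𝓝[>] 0)
      (𝓝 (Real.pi * g0 / (|q'| * p φ))) := by
  obtain ⟨c, hc, hlow⟩ := denom_lower h1 h2 hq hp hq0 hqne hd hq' hp0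
  have hφ : φ ∈ Icc α β := ⟨h1.le, h2.le⟩
  have hC : 0 ≤ C := (abs_nonneg _).trans (hgC 1 one_pos φ hφ)
  rw [← integral_lorentz hq' hp0]
  -- the rescaled integrand
  set E : ℝ → ℝ → ℝ := fun δ y => (Ioc ((α - φ) / δ) ((β - φ) / δ)).indicator
    (fun y => δ ^ 2 * (g δ (φ + δ * y) / (q (φ + δ * y) ^ 2 + δ ^ 2 * p (φ + δ * y) ^ 2))) y
    with hE
  have hEq : ∀ δ : ℝ, 0 < δ →
      δ * ∫ x in α..β, g δ x / (q x ^ 2 + δ ^ 2 * p x ^ 2) = ∫ y, E δ y := by
    intro δ hδ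
    have hle : (α - φ) / δ ≤ (β - φ) / δ :=
      div_le_div_of_nonneg_right (by linarith) hδ.le
    have hsub := intervalIntegral.integral_comp_add_mul
      (fun x => g δ x / (q x ^ 2 + δ ^ 2 * p x ^ 2)) hδ.ne' φ
      (a := (α - φ) / δ) (b := (β - φ) / δ)
    have ea : φ + δ * ((α - φ) / δ) = α := by field_simp; ring
    have eb : φ + δ * ((β - φ) / δ) = β := by field_simp; ring
    rw [ea, eb, smul_eq_mul] at hsub
    have h3 : ∫ x in α..β, g δ x / (q x ^ 2 + δ ^ 2 * p x ^ 2) =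
        δ * ∫ y in (α - φ) / δ..(β - φ) / δ,
          g δ (φ + δ * y) / (q (φ + δ * y) ^ 2 + δ ^ 2 * p (φ + δ * y) ^ 2) := by
      rw [hsub]
      field_simp
    rw [h3, hE]
    simp only
    rw [integral_indicator measurableSet_Ioc, ← intervalIntegral.integral_of_le hle,
      intervalIntegral.integral_const_mul]
    ring
  have hmem : ∀ δ : ℝ, 0 < δ → ∀ y ∈ Ioc ((α - φ) / δ) ((β - φ) / δ),
      φ + δ * y ∈ Icc α β := by
    intro δ hδ y hy
    have e1 := (div_lt_iff₀ hδ).1 hy.1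
    have e2 := (le_div_iff₀ hδ).1 hy.2
    constructor <;> nlinarith
  have key : Tendsto (fun δ => ∫ y, E δ y) (𝓝[>] 0)
      (𝓝 (∫ y, g0 / ((q' * y) ^ 2 + p φ ^ 2))) := by
    refine tendsto_integral_filter_of_dominated_convergence
      (fun y => C / c * (1 + y ^ 2)⁻¹) ?_ ?_ ?_ ?_
    · filter_upwards [self_mem_nhdsWithin] with δ hδ
      have hδ' : (0 : ℝ) < δ := hδ
      have hDne : ∀ x ∈ Icc α β, q x ^ 2 + δ ^ 2 * p x ^ 2 ≠ 0 := by
        intro x hx
        rcases eq_or_ne x φ with h | h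
        · rw [h]; positivity
        · have := hqne x hx h
          positivity
      have hcont : ContinuousOn (fun y => δ ^ 2 * (g δ (φ + δ * y) /
          (q (φ + δ * y) ^ 2 + δ ^ 2 * p (φ + δ * y) ^ 2)))
          (Ioc ((α - φ) / δ) ((β - φ) / δ)) := by
        have hlin : ContinuousOn (fun y : ℝ => φ + δ * y) (Ioc ((α - φ) / δ) ((β - φ) / δ)) := by
          fun_prop
        have hin : ContinuousOn (fun x => g δ x / (q x ^ 2 + δ ^ 2 * p x ^ 2)) (Icc α β) :=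
          (hgm δ hδ').div ((hq.pow 2).add (continuousOn_const.mul (hp.pow 2))) hDne
        exact continuousOn_const.mul (hin.comp hlin (fun y hy => hmem δ hδ' y hy))
      exact (aestronglyMeasurable_indicator_iff measurableSet_Ioc).2
        (hcont.aestronglyMeasurable measurableSet_Ioc)
    · have hone : ∀ᶠ δ : ℝ in 𝓝[>] 0, δ ≤ 1 := by
        have : ∀ᶠ δ : ℝ in 𝓝 0, δ < 1 := eventually_lt_nhds zero_lt_one
        exact (this.filter_mono nhdsWithin_le_nhds).mono fun _ h => h.le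
      filter_upwards [self_mem_nhdsWithin, hone] with δ hδ hδ1
      have hδ' : (0 : ℝ) < δ := hδ
      refine Eventually.of_forall fun y => ?_
      rw [hE]
      simp only
      have hnn : 0 ≤ C / c * (1 + y ^ 2)⁻¹ := by positivity
      by_cases hy : y ∈ Ioc ((α - φ) / δ) ((β - φ) / δ)
      · rw [indicator_of_mem hy]
        have hx := hmem δ hδ' y hy
        have hl := hlow _ hx δ hδ' hδ1
        have hg := hgC δ hδ' _ hx
        rw [add_sub_cancel_left] at hl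
        have hl' : c * (δ ^ 2 * (1 + y ^ 2)) ≤
            q (φ + δ * y) ^ 2 + δ ^ 2 * p (φ + δ * y) ^ 2 := by
          calc c * (δ ^ 2 * (1 + y ^ 2)) = c * ((δ * y) ^ 2 + δ ^ 2) := by ring
            _ ≤ _ := hl
        have hpos : 0 < c * (δ ^ 2 * (1 + y ^ 2)) := by positivity
        have hDpos := hpos.trans_le hl'
        rw [Real.norm_eq_abs, abs_mul, abs_div, abs_of_pos hDpos,
          abs_of_nonneg (by positivity : (0 : ℝ) ≤ δ ^ 2), ← mul_div_assoc]
        rw [div_le_iff₀ hDpos]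
        calc δ ^ 2 * |g δ (φ + δ * y)| ≤ δ ^ 2 * C :=
              mul_le_mul_of_nonneg_left hg (by positivity)
          _ = C / c * (1 + y ^ 2)⁻¹ * (c * (δ ^ 2 * (1 + y ^ 2))) := by
              have : (1 + y ^ 2) ≠ 0 := by positivity
              field_simp
          _ ≤ _ := mul_le_mul_of_nonneg_left hl' hnn
      · rw [indicator_of_notMem hy, norm_zero]
        exact hnn
    · exact integrable_inv_one_add_sq.const_mul _
    · refine Eventually.of_forall fun y => ?_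
      have hlin : Tendsto (fun δ : ℝ => φ + δ * y) (𝓝[>] 0) (𝓝 φ) := by
        have : Tendsto (fun δ : ℝ => φ + δ * y) (𝓝 0) (𝓝 (φ + 0 * y)) :=
          Continuous.tendsto (by fun_prop) 0
        rw [zero_mul, add_zero] at this
        exact this.mono_left nhdsWithin_le_nhds
      have hmemI : ∀ᶠ δ : ℝ in 𝓝[>] 0, φ + δ * y ∈ Ioo α β :=
        hlin.eventually (Ioo_mem_nhds h1 h2)
      have hqlim : Tendsto (fun δ : ℝ => q (φ + δ * y) / δ) (𝓝[>] 0) (𝓝 (q' * y)) := by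
        have hdy : HasDerivAt (fun δ : ℝ => q (φ + δ * y)) (q' * y) 0 := by
          have hin : HasDerivAt (fun δ : ℝ => φ + δ * y) y 0 := by
            simpa using ((hasDerivAt_id (0 : ℝ)).mul_const y).const_add φ
          have hd' : HasDerivAt q q' (φ + 0 * y) := by simpa using hd
          exact hd'.comp 0 hin
        have := hdy.tendsto_slope_zero_right
        simp only [zero_add, zero_mul, add_zero, hq0, sub_zero, smul_eq_mul] at this
        refine this.congr fun δ => ?_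
        rw [div_eq_inv_mul]
      have hplim : Tendsto (fun δ : ℝ => p (φ + δ * y)) (𝓝[>] 0) (𝓝 (p φ)) :=
        ((hp.continuousAt (Icc_mem_nhds h1 h2)).tendsto).comp hlin
      have hden : Tendsto (fun δ : ℝ => (q (φ + δ * y) / δ) ^ 2 + p (φ + δ * y) ^ 2) (𝓝[>] 0)
          (𝓝 ((q' * y) ^ 2 + p φ ^ 2)) := (hqlim.pow 2).add (hplim.pow 2)
      have hne : (q' * y) ^ 2 + p φ ^ 2 ≠ 0 := by positivity
      refine ((hg0 y).div hden hne).congr' ?_
      filter_upwards [hmemI, self_mem_nhdsWithin] with δ hδI hδ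
      have hδ' : (0 : ℝ) < δ := hδ
      rw [hE]
      simp only
      have hy : y ∈ Ioc ((α - φ) / δ) ((β - φ) / δ) := by
        constructor
        · rw [div_lt_iff₀ hδ']
          nlinarith [hδI.1]
        · rw [le_div_iff₀ hδ']
          nlinarith [hδI.2]
      rw [indicator_of_mem hy]
      have : (q (φ + δ * y) / δ) ^ 2 + p (φ + δ * y) ^ 2 =
          (q (φ + δ * y) ^ 2 + δ ^ 2 * p (φ + δ * y) ^ 2) / δ ^ 2 := by
        field_simp
      simp only [Pi.div_apply]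
      rw [this, div_div_eq_mul_div]
      ring
  refine key.congr' ?_
  filter_upwards [self_mem_nhdsWithin] with δ hδ
  exact (hEq δ hδ).symm

/-- Several spikes. -/
theorem spike_multi {ι : Type*} [Fintype ι] [DecidableEq ι] [Nonempty ι] {α β : ℝ}
    {φ : ι → ℝ} (h1 : ∀ i, α < φ i) (h2 : ∀ i, φ i < β) (hinj : Function.Injective φ)
    {q p : ι → ℝ → ℝ}
    (hq : ∀ i, ContinuousOn (q i) (Icc α β)) (hp : ∀ i, ContinuousOn (p i) (Icc α β))
    (hq0 : ∀ i, q i (φ i) = 0)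
    (hqne : ∀ i, ∀ x ∈ Icc α β, x ≠ φ i → q i x ≠ 0) {q' : ι → ℝ}
    (hd : ∀ i, HasDerivAt (q i) (q' i) (φ i)) (hq' : ∀ i, q' i ≠ 0)
    (hp0 : ∀ i, 0 < p i (φ i)) {G : ℝ → ℝ} (hG : ContinuousOn G (Icc α β)) :
    Tendsto (fun δ : ℝ => δ * ∫ x in α..β, G x / ∏ i, (q i x ^ 2 + δ ^ 2 * p i x ^ 2)) (𝓝[>] 0)
      (𝓝 (∑ i, Real.pi * (G (φ i) / ∏ j ∈ Finset.univ.erase i, q j (φ i) ^ 2) /
        (|q' i| * p i (φ i)))) := by
  classical
  have hαβ : α ≤ β := by
    obtain ⟨i⟩ := ‹Nonempty ι›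
    exact ((h1 i).trans (h2 i)).le
  set S : ℝ → ℝ := fun x => ∑ i, ∏ j ∈ Finset.univ.erase i, q j x ^ 2 with hS
  have hSc : ContinuousOn S (Icc α β) :=
    continuousOn_finsetSum _ fun i _ => continuousOn_finsetProd _ fun j _ => (hq j).pow 2
  have hSpos : ∀ x ∈ Icc α β, 0 < S x := by
    intro x hx
    have hnn : ∀ i ∈ (Finset.univ : Finset ι), 0 ≤ ∏ j ∈ Finset.univ.erase i, q j x ^ 2 :=
      fun i _ => Finset.prod_nonneg fun j _ => sq_nonneg _
    by_cases h : ∃ i, x = φ i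
    · obtain ⟨i, hi⟩ := h
      refine Finset.sum_pos' hnn ⟨i, Finset.mem_univ _, Finset.prod_pos fun j hj => ?_⟩
      have hji : j ≠ i := Finset.ne_of_mem_erase hj
      have : q j x ≠ 0 := hqne j x hx (fun h => hji (hinj (h.symm.trans hi)))
      positivity
    · push Not at h
      obtain ⟨i⟩ := ‹Nonempty ι›
      refine Finset.sum_pos' hnn ⟨i, Finset.mem_univ _, Finset.prod_pos fun j hj => ?_⟩
      have : q j x ≠ 0 := hqne j x hx (h j)
      positivity
  have hDpos : ∀ i, ∀ δ : ℝ, 0 < δ → ∀ x ∈ Icc α β, 0 < q i x ^ 2 + δ ^ 2 * p i x ^ 2 := by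
    intro i δ hδ x hx
    rcases eq_or_ne x (φ i) with h | h
    · rw [h]
      have := hp0 i
      positivity
    · have := hqne i x hx h
      positivity
  have hDc : ∀ i, ∀ δ : ℝ, ContinuousOn (fun x => q i x ^ 2 + δ ^ 2 * p i x ^ 2) (Icc α β) :=
    fun i δ => ((hq i).pow 2).add (continuousOn_const.mul ((hp i).pow 2))
  set g : ι → ℝ → ℝ → ℝ := fun i δ x =>
    G x / S x * ∏ j ∈ Finset.univ.erase i, (q j x ^ 2 / (q j x ^ 2 + δ ^ 2 * p j x ^ 2)) with hg
  have hGS : ContinuousOn (fun x => G x / S x) (Icc α β) :=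
    hG.div hSc fun x hx => (hSpos x hx).ne'
  obtain ⟨C, hC⟩ := isCompact_Icc.exists_bound_of_continuousOn hGS
  have hsingle : ∀ i, Tendsto (fun δ : ℝ => δ * ∫ x in α..β,
      g i δ x / (q i x ^ 2 + δ ^ 2 * p i x ^ 2)) (𝓝[>] 0)
      (𝓝 (Real.pi * (G (φ i) / ∏ j ∈ Finset.univ.erase i, q j (φ i) ^ 2) /
        (|q' i| * p i (φ i)))) := by
    intro i
    refine spike_single (h1 i) (h2 i) (hq i) (hp i) (hq0 i) (hqne i) (hd i) (hq' i) (hp0 i)
      (C := C) ?_ ?_ ?_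
    · intro δ hδ
      refine hGS.mul (continuousOn_finsetProd _ fun j _ => ?_)
      exact ((hq j).pow 2).div (hDc j δ) fun x hx => (hDpos j δ hδ x hx).ne'
    · intro δ hδ x hx
      have hb := hC x hx
      rw [Real.norm_eq_abs] at hb
      rw [hg]
      simp only
      rw [abs_mul]
      have hprod : |∏ j ∈ Finset.univ.erase i,
          (q j x ^ 2 / (q j x ^ 2 + δ ^ 2 * p j x ^ 2))| ≤ 1 := by
        rw [abs_of_nonneg (Finset.prod_nonneg fun j _ =>
          div_nonneg (sq_nonneg _) (hDpos j δ hδ x hx).le)]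
        refine Finset.prod_le_one (fun j _ => div_nonneg (sq_nonneg _) (hDpos j δ hδ x hx).le)
          fun j _ => ?_
        rw [div_le_one (hDpos j δ hδ x hx)]
        have : 0 ≤ δ ^ 2 * p j x ^ 2 := by positivity
        linarith
      calc |G x / S x| * _ ≤ |G x / S x| * 1 :=
            mul_le_mul_of_nonneg_left hprod (abs_nonneg _)
        _ ≤ C := by rw [mul_one]; exact hb
    · intro y
      have hnh : Icc α β ∈ 𝓝 (φ i) := Icc_mem_nhds (h1 i) (h2 i)
      have hφi : φ i ∈ Icc α β := ⟨(h1 i).le, (h2 i).le⟩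
      have hlin : Tendsto (fun δ : ℝ => φ i + δ * y) (𝓝[>] 0) (𝓝 (φ i)) := by
        have : Tendsto (fun δ : ℝ => φ i + δ * y) (𝓝 0) (𝓝 (φ i + 0 * y)) :=
          Continuous.tendsto (by fun_prop) 0
        rw [zero_mul, add_zero] at this
        exact this.mono_left nhdsWithin_le_nhds
      have hδ2 : Tendsto (fun δ : ℝ => δ ^ 2) (𝓝[>] 0) (𝓝 0) := by
        have : Tendsto (fun δ : ℝ => δ ^ 2) (𝓝 0) (𝓝 (0 ^ 2)) :=
          Continuous.tendsto (by fun_prop) 0
        rw [zero_pow two_ne_zero] at this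
        exact this.mono_left nhdsWithin_le_nhds
      have hSi : S (φ i) = ∏ j ∈ Finset.univ.erase i, q j (φ i) ^ 2 := by
        rw [hS]
        simp only
        refine Finset.sum_eq_single_of_mem i (Finset.mem_univ _) fun l _ hl => ?_
        refine Finset.prod_eq_zero (i := i) (Finset.mem_erase.2 ⟨hl.symm, Finset.mem_univ _⟩) ?_
        rw [hq0 i]
        ring
      have hA : Tendsto (fun δ : ℝ => G (φ i + δ * y) / S (φ i + δ * y)) (𝓝[>] 0)
          (𝓝 (G (φ i) / S (φ i))) := ((hGS.continuousAt hnh).tendsto).comp hlin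
      have hB : Tendsto (fun δ : ℝ => ∏ j ∈ Finset.univ.erase i,
          (q j (φ i + δ * y) ^ 2 / (q j (φ i + δ * y) ^ 2 + δ ^ 2 * p j (φ i + δ * y) ^ 2)))
          (𝓝[>] 0) (𝓝 (∏ j ∈ Finset.univ.erase i, (1 : ℝ))) := by
        refine tendsto_finset_prod _ fun j hj => ?_
        have hji : j ≠ i := Finset.ne_of_mem_erase hj
        have hne : q j (φ i) ≠ 0 := hqne j _ hφi (fun h => hji (hinj h).symm)
        have hqj : Tendsto (fun δ : ℝ => q j (φ i + δ * y) ^ 2) (𝓝[>] 0)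
            (𝓝 (q j (φ i) ^ 2)) := (((hq j).continuousAt hnh).tendsto.comp hlin).pow 2
        have hpj : Tendsto (fun δ : ℝ => p j (φ i + δ * y) ^ 2) (𝓝[>] 0)
            (𝓝 (p j (φ i) ^ 2)) := (((hp j).continuousAt hnh).tendsto.comp hlin).pow 2
        have hsum := hqj.add (hδ2.mul hpj)
        rw [zero_mul, add_zero] at hsum
        have hne2 : q j (φ i) ^ 2 ≠ 0 := pow_ne_zero 2 hne
        have := hqj.div hsum hne2
        rw [div_self hne2] at this
        exact this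
      rw [Finset.prod_const_one] at hB
      have := hA.mul hB
      rw [mul_one, hSi] at this
      exact this
  refine (tendsto_finset_sum Finset.univ fun i _ => hsingle i).congr' ?_
  filter_upwards [self_mem_nhdsWithin] with δ hδ
  have hδ' : (0 : ℝ) < δ := hδ
  rw [← Finset.mul_sum, ← intervalIntegral.integral_finset_sum]
  · congr 1
    apply intervalIntegral.integral_congr
    intro x hx
    rw [uIcc_of_le hαβ] at hx
    simp only
    have hSne := (hSpos x hx).ne'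
    have hDne : ∀ i, q i x ^ 2 + δ ^ 2 * p i x ^ 2 ≠ 0 := fun i => (hDpos i δ hδ' x hx).ne'
    have hprodne : ∏ i, (q i x ^ 2 + δ ^ 2 * p i x ^ 2) ≠ 0 :=
      Finset.prod_ne_zero_iff.2 fun i _ => hDne i
    have hterm : ∀ i, g i δ x / (q i x ^ 2 + δ ^ 2 * p i x ^ 2) =
        G x / S x * (∏ j ∈ Finset.univ.erase i, q j x ^ 2) /
          ∏ i, (q i x ^ 2 + δ ^ 2 * p i x ^ 2) := by
      intro i
      rw [hg]
      simp only
      rw [Finset.prod_div_distrib, ← Finset.mul_prod_erase Finset.univ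
        (fun i => q i x ^ 2 + δ ^ 2 * p i x ^ 2) (Finset.mem_univ i)]
      have h3 : ∏ j ∈ Finset.univ.erase i, (q j x ^ 2 + δ ^ 2 * p j x ^ 2) ≠ 0 :=
        Finset.prod_ne_zero_iff.2 fun i _ => hDne i
      have h4 := hDne i
      field_simp
    rw [Finset.sum_congr rfl fun i _ => hterm i, ← Finset.sum_div, ← Finset.mul_sum]
    have : ∑ i, ∏ j ∈ Finset.univ.erase i, q j x ^ 2 = S x := rfl
    rw [this, div_mul_cancel₀ _ hSne]
  · intro i _
    refine ContinuousOn.intervalIntegrable ?_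
    rw [uIcc_of_le hαβ]
    refine ContinuousOn.div (hGS.mul (continuousOn_finsetProd _ fun j _ => ?_)) (hDc i δ)
      fun x hx => (hDpos i δ hδ' x hx).ne'
    exact ((hq j).pow 2).div (hDc j δ) fun x hx => (hDpos j δ hδ' x hx).ne'

end Pool.Agent.CritPer
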