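import Pool.Agent.CritPer.OmegaFam
import Pool.Agent.CritPer.Spike
import Pool.Agent.CritPer.Orbit

/-!
The spike limit of the period integral.
-/

open Set Filter Topology MeasureTheory

namespace Pool.Agent.CritPer

theorem cont_pair (b : ℝ) : Continuous (fun p : ℝ => ((b, p) : ℝ × ℝ)) := by fun_prop

theorem cont_Wf (n : ℕ) (b : ℝ) : Continuous (fun p => Wf n b p) := by
  have h : (fun p => Wf n b p) = (fun q : ℝ × ℝ => Wf n q.1 q.2) ∘ (fun p => (b, p)) := rfl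
  rw [h]
  exact Continuous.comp (continuous_Wf n) (cont_pair b)

theorem cont_Yf (n : ℕ) (b : ℝ) : Continuous (fun p => Yf n b p) := by
  have h : (fun p => Yf n b p) = (fun q : ℝ × ℝ => Yf n q.1 q.2) ∘ (fun p => (b, p)) := rfl
  rw [h]
  exact Continuous.comp (continuous_Yf n) (cont_pair b)

theorem cont_Xf (b : ℝ) : Continuous (fun p => Xf b p) := by
  unfold Xf; fun_prop

/-- The form `∏ ((y - β_j x)^2 + δ^2 a_j^2 x^2)`. -/
noncomputable def FF {k : ℕ} (β a : Fin k → ℝ) (δ : ℝ) : MvPolynomial (Fin 2) ℝ :=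
  ∏ j, ((MvPolynomial.X 1 - MvPolynomial.C (β j) * MvPolynomial.X 0) ^ 2 +
    MvPolynomial.C (δ ^ 2 * a j ^ 2) * MvPolynomial.X 0 ^ 2)

theorem ev_FF {k : ℕ} (β a : Fin k → ℝ) (δ : ℝ) (z : ℝ × ℝ) :
    ev (FF β a δ) z = ∏ j, ((z.2 - β j * z.1) ^ 2 + δ ^ 2 * (a j * z.1) ^ 2) := by
  unfold ev FF
  rw [map_prod]
  refine Finset.prod_congr rfl fun j _ => ?_
  simp
  ring

theorem isHomogeneous_FF {k : ℕ} (β a : Fin k → ℝ) (δ : ℝ) :
    (FF β a δ).IsHomogeneous (2 * k) := by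
  have h : (∑ _j : Fin k, 2) = 2 * k := by simp [mul_comm]
  rw [← h]
  unfold FF
  apply MvPolynomial.IsHomogeneous.prod
  intro j _
  have h1 : (MvPolynomial.X 1 - MvPolynomial.C (β j) * MvPolynomial.X 0 :
      MvPolynomial (Fin 2) ℝ).IsHomogeneous 1 := by
    refine (MvPolynomial.isHomogeneous_X _ _).sub ?_
    have := (MvPolynomial.isHomogeneous_C (Fin 2) (β j)).mul (MvPolynomial.isHomogeneous_X ℝ (0 : Fin 2))
    rwa [zero_add] at this
  refine (h1.pow 2).add ?_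
  have h2 := (MvPolynomial.isHomogeneous_C (Fin 2) (δ ^ 2 * a j ^ 2)).mul
    ((MvPolynomial.isHomogeneous_X ℝ (0 : Fin 2)).pow 2)
  rw [zero_add] at h2
  exact h2

theorem ev_FF_pos {k : ℕ} {β a : Fin k → ℝ} {δ : ℝ} (hδ : δ ≠ 0) (ha : ∀ j, 0 < a j)
    {z : ℝ × ℝ} (hz : z ≠ 0) : 0 < ev (FF β a δ) z := by
  rw [ev_FF]
  refine Finset.prod_pos fun j _ => ?_
  rcases eq_or_ne z.1 0 with h | h
  · have h2 : z.2 ≠ 0 := by
      intro h2
      exact hz (Prod.ext h h2)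
    rw [h, mul_zero, sub_zero]
    positivity
  · have := ha j
    positivity

theorem Yf_eq_gam {n : ℕ} (hn : 1 ≤ n) {b : ℝ} (hb : 0 < b) (p : ℝ) :
    Yf n b p = -(gam (qA n) (vA n) b p).2 := by
  unfold gam
  simp only
  rw [om_eq hn hb]
  unfold Yf
  ring

theorem hasDerivAt_Yf {n : ℕ} (hn : 1 ≤ n) {b : ℝ} (hb : 0 < b) (p : ℝ) :
    HasDerivAt (Yf n b) (Xf b p * (n * (Xf b p ^ 2) ^ (n - 1) * (Xf b p ^ 2 - Yf n b p ^ 2)) /
      (b ^ n * Wf n b p)) p := by
  have h1 := ((oFamA hn).hasDerivAt_snd hb p).neg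
  have h2 : (fun p => -(gam (qA n) (vA n) b p).2) = Yf n b := by
    funext p
    rw [Yf_eq_gam hn hb]
  have h3 : HasDerivAt (Yf n b) (-gamd (qA n) (vA n) b p) p := by
    rw [← h2]; exact h1
  refine h3.congr_deriv ?_
  unfold gamd
  have e1 : (gam (qA n) (vA n) b p).1 = Xf b p := rfl
  have e2 : (gam (qA n) (vA n) b p).2 ^ 2 = Yf n b p ^ 2 := by
    rw [Yf_eq_gam hn hb]; ring
  rw [e1, e2, om_eq hn hb]
  unfold qA
  ring

theorem hasDerivAt_Xf (b p : ℝ) : HasDerivAt (Xf b) (-(b * Real.sin p)) p := by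
  have := (Real.hasDerivAt_cos p).const_mul b
  rw [mul_neg] at this
  exact this

section

variable {n : ℕ} {b β : ℝ}

/-- On the curve, in the right half plane, the slope determines the point. -/
theorem slope_point (hn : 1 ≤ n) (hb : 0 < b) (hβ : 1 < β) {p : ℝ}
    (hp : p ∈ Icc (-(Real.pi / 2)) (Real.pi / 2)) (h0 : Yf n b p - β * Xf b p = 0) :
    0 < Xf b p ∧ Xf b p ^ 2 = Uk n (β ^ 2) b ∧ 0 < p ∧ p < Real.pi / 2 := by
  have hcos : 0 ≤ Real.cos p := Real.cos_nonneg_of_mem_Icc hp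
  have hX0 : 0 ≤ Xf b p := mul_nonneg hb.le hcos
  have hXne : Xf b p ≠ 0 := by
    intro h
    rw [h, mul_zero, sub_zero] at h0
    exact XY_ne hn hb p (by rw [h, h0])
  have hX : 0 < Xf b p := lt_of_le_of_ne hX0 (Ne.symm hXne)
  have hY : Yf n b p = β * Xf b p := by linarith
  have hYpos : 0 < Yf n b p := by rw [hY]; positivity
  have hκ : 1 ≤ β ^ 2 := one_le_pow₀ hβ.le
  have hlev : Hk n (β ^ 2) (Xf b p ^ 2) = Phi n (b ^ 2) := by
    have := Hf_curve hn b p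
    unfold Hf at this
    simp only at this
    rw [hY] at this
    unfold Hk
    rw [← this]
    ring
  have hU := Uk_spec hn hκ hb
  refine ⟨hX, ?_, ?_, ?_⟩
  · refine Hk_inj hn hκ (sq_nonneg _) hU.1.le ?_ (hlev.trans hU.2.symm)
    rw [hlev]; exact (Phi_lt_hs hn (sq_nonneg b)).le
  · by_contra hcon
    have hsin : Real.sin p ≤ 0 :=
      Real.sin_nonpos_of_nonpos_of_neg_pi_le (not_lt.1 hcon) (by linarith [hp.1, Real.pi_pos])
    have : Yf n b p ≤ 0 := by
      unfold Yf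
      have h1 : 0 < b ^ (n + 1) := pow_pos hb _
      have h2 := Wf_pos hn b p
      have : b ^ (n + 1) * Real.sin p ≤ 0 := mul_nonpos_of_nonneg_of_nonpos h1.le hsin
      exact mul_nonpos_of_nonpos_of_nonneg this h2.le
    linarith
  · rcases lt_or_eq_of_le hp.2 with h | h
    · exact h
    · exfalso
      apply hXne
      unfold Xf
      rw [h, Real.cos_pi_div_two, mul_zero]

theorem exists_slope_point (hn : 1 ≤ n) (hb : 0 < b) (hβ : 1 < β) :
    ∃ φ, -(Real.pi / 2) < φ ∧ φ < Real.pi / 2 ∧ Yf n b φ - β * Xf b φ = 0 ∧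
      ∀ p ∈ Icc (-(Real.pi / 2)) (Real.pi / 2), p ≠ φ → Yf n b p - β * Xf b p ≠ 0 := by
  have hc : Continuous (fun p => Yf n b p - β * Xf b p) := by
    exact (cont_Yf n b).sub (continuous_const.mul (cont_Xf b))
  have hpi : 0 < Real.pi / 2 := by positivity
  have hmem : (0 : ℝ) ∈ Ioo (Yf n b 0 - β * Xf b 0) (Yf n b (Real.pi / 2) -
      β * Xf b (Real.pi / 2)) := by
    constructor
    · unfold Yf Xf
      rw [Real.sin_zero, Real.cos_zero]
      have : 0 < β * b := by positivity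
      linarith
    · unfold Yf Xf
      rw [Real.sin_pi_div_two, Real.cos_pi_div_two]
      have h1 : 0 < b ^ (n + 1) := pow_pos hb _
      have h2 := Wf_pos hn b (Real.pi / 2)
      have : 0 < b ^ (n + 1) * 1 * Wf n b (Real.pi / 2) := by positivity
      linarith
  obtain ⟨φ, hφ, hφ0⟩ := intermediate_value_Ioo hpi.le hc.continuousOn hmem
  have hφI : φ ∈ Icc (-(Real.pi / 2)) (Real.pi / 2) := ⟨by linarith [hφ.1], hφ.2.le⟩
  obtain ⟨a1, a2, a3, a4⟩ := slope_point hn hb hβ hφI hφ0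
  refine ⟨φ, by linarith, hφ.2, hφ0, fun p hp hne h0 => hne ?_⟩
  obtain ⟨b1, b2, b3, b4⟩ := slope_point hn hb hβ hp h0
  have hXX : Xf b p = Xf b φ := by
    have : Xf b p ^ 2 = Xf b φ ^ 2 := b2.trans a2.symm
    exact (sq_eq_sq₀ b1.le a1.le).1 this
  have hcos : Real.cos p = Real.cos φ := mul_left_cancel₀ hb.ne' hXX
  exact Real.injOn_cos ⟨b3.le, by linarith⟩ ⟨a3.le, by linarith⟩ hcos

theorem hasDerivAt_slope (hn : 1 ≤ n) (hb : 0 < b) (hβ : 1 < β) {φ : ℝ}
    (hφ : φ ∈ Icc (-(Real.pi / 2)) (Real.pi / 2)) (h0 : Yf n b φ - β * Xf b φ = 0) :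
    HasDerivAt (fun p => Yf n b p - β * Xf b p)
      (Xf b φ * Ek n (β ^ 2) (Uk n (β ^ 2) b) / (b ^ n * Wf n b φ)) φ := by
  have h1 := (hasDerivAt_Yf hn hb φ).sub ((hasDerivAt_Xf b φ).const_mul β)
  refine h1.congr_deriv ?_
  obtain ⟨a1, a2, a3, a4⟩ := slope_point hn hb hβ hφ h0
  have hW := Wf_pos hn b φ
  have hbn : 0 < b ^ n := pow_pos hb n
  have hY : Yf n b φ = β * Xf b φ := by linarith
  have hsin : b * Real.sin φ = β * Xf b φ / (b ^ n * Wf n b φ) := by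
    rw [← hY]
    unfold Yf
    field_simp
    ring
  have hp : (Xf b φ ^ 2) ^ n = Xf b φ ^ 2 * (Xf b φ ^ 2) ^ (n - 1) := by
    rw [← pow_succ']; congr 1; omega
  rw [hsin, hY, ← a2]
  unfold Ek
  rw [hp]
  field_simp
  ring

end

/-- The period integral is twice an integral over a half period. -/
theorem Tf_half {n : ℕ} {f : ℝ × ℝ → ℝ} (hf : ∀ x y, f (-x, -y) = f (x, y))
    (fc : Continuous f) (hn : 1 ≤ n) {b : ℝ} (hb : 0 < b) (fpos : ∀ z, z ≠ 0 → 0 < f z) :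
    Tf n f b = 2 * ∫ p in (-(Real.pi / 2))..(Real.pi / 2),
      1 / (b ^ n * Wf n b p * f (Xf b p, Yf n b p)) := by
  set h : ℝ → ℝ := fun p => 1 / (b ^ n * Wf n b p * f (Xf b p, Yf n b p)) with hh
  have hcont : Continuous h := by
    have c1 := cont_Yf n b
    have c2 := cont_Xf b
    have c3 := cont_Wf n b
    have c4 : Continuous (fun p => f (Xf b p, Yf n b p)) := fc.comp (c2.prodMk c1)
    have c5 : Continuous (fun p => b ^ n * Wf n b p * f (Xf b p, Yf n b p)) :=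
      (continuous_const.mul c3).mul c4
    refine Continuous.div continuous_const c5 ?_
    intro p
    have h1 := Wf_pos hn b p
    have h2 := fpos (Xf b p, Yf n b p) (fun h => XY_ne hn hb p h)
    have h3 : 0 < b ^ n := pow_pos hb n
    positivity
  have hper : Function.Periodic h Real.pi := by
    intro p
    have hs : ∀ r, sg (p + Real.pi) r = sg p r := by
      intro r; unfold sg; simp
    have hW : Wf n b (p + Real.pi) = Wf n b p := by
      unfold Wf Vf; simp only [hs]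
    have hX : Xf b (p + Real.pi) = -Xf b p := by unfold Xf; simp
    have hY : Yf n b (p + Real.pi) = -Yf n b p := by unfold Yf; rw [hW]; simp
    simp only [hh]
    rw [hW, hX, hY, hf]
  have hint : ∀ x y : ℝ, IntervalIntegrable h volume x y := fun x y => hcont.intervalIntegrable x y
  have e1 : Tf n f b = ∫ p in (0 : ℝ)..(2 * Real.pi), h p := rfl
  have e2 : (∫ p in (0 : ℝ)..(2 * Real.pi), h p) = (∫ p in (0 : ℝ)..Real.pi, h p) +
      ∫ p in Real.pi..(2 * Real.pi), h p :=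
    (intervalIntegral.integral_add_adjacent_intervals (hint _ _) (hint _ _)).symm
  have e3 : (∫ p in Real.pi..(2 * Real.pi), h p) = ∫ p in (0 : ℝ)..Real.pi, h p := by
    have := hper.intervalIntegral_add_eq Real.pi 0
    rw [zero_add] at this
    rw [← this]
    congr 1
    ring
  have e4 : (∫ p in (0 : ℝ)..Real.pi, h p) = ∫ p in (-(Real.pi / 2))..(Real.pi / 2), h p := by
    have := hper.intervalIntegral_add_eq 0 (-(Real.pi / 2))
    rw [zero_add] at this
    rw [this]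
    congr 1
    ring
  rw [e1, e2, e3, e4]
  ring

theorem term_eq {w X E a P U : ℝ} {k : ℕ} (hk : 1 ≤ k) (hw : 0 < w) (hX : 0 < X) (hE : 0 < E)
    (ha : 0 < a) (hP : 0 < P) (hU : X ^ 2 = U) :
    2 * (Real.pi * (1 / w / (P * U ^ (k - 1))) / (X * E / w * (a * X))) =
      2 * Real.pi / (a * P) * (1 / (U ^ k * E)) := by
  subst hU
  have h1 : (X ^ 2) ^ k = (X ^ 2) ^ (k - 1) * X ^ 2 := by
    rw [← pow_succ]; congr 1; omega
  rw [h1]
  have h2 : (X ^ 2) ^ (k - 1) ≠ 0 := by positivity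
  field_simp

section

variable {n k : ℕ} {β a : Fin k → ℝ} {b : ℝ}

theorem spike_sum_term (hn : 1 ≤ n) (hk : 1 ≤ k) (hβ : ∀ j, 1 < β j)
    (hinj : Function.Injective β) (ha : ∀ j, 0 < a j) (hb : 0 < b) (i : Fin k) {φ : ℝ}
    (hφ : φ ∈ Icc (-(Real.pi / 2)) (Real.pi / 2)) (h0 : Yf n b φ - β i * Xf b φ = 0) :
    2 * (Real.pi * (1 / (b ^ n * Wf n b φ) /
      ∏ j ∈ Finset.univ.erase i, (Yf n b φ - β j * Xf b φ) ^ 2) /
      (|Xf b φ * Ek n (β i ^ 2) (Uk n (β i ^ 2) b) / (b ^ n * Wf n b φ)| *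
        (a i * Xf b φ))) =
      2 * Real.pi / (a i * ∏ j ∈ Finset.univ.erase i, (β i - β j) ^ 2) *
        omk n k (β i ^ 2) b := by
  obtain ⟨s1, s2, s3, s4⟩ := slope_point hn hb (hβ i) hφ h0
  have hκ : 1 ≤ β i ^ 2 := one_le_pow₀ (hβ i).le
  have h2 := Ek_Uk_pos hn hκ hb
  have h3 := Wf_pos hn b φ
  have hbn : 0 < b ^ n := pow_pos hb n
  have hw : 0 < b ^ n * Wf n b φ := mul_pos hbn h3
  have hY : Yf n b φ = β i * Xf b φ := by linarith
  have hprod : ∏ j ∈ Finset.univ.erase i, (Yf n b φ - β j * Xf b φ) ^ 2 =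
      (∏ j ∈ Finset.univ.erase i, (β i - β j) ^ 2) * (Uk n (β i ^ 2) b) ^ (k - 1) := by
    have : ∀ j ∈ Finset.univ.erase i, (Yf n b φ - β j * Xf b φ) ^ 2 =
        (β i - β j) ^ 2 * Uk n (β i ^ 2) b := by
      intro j _
      rw [hY, ← s2]
      ring
    rw [Finset.prod_congr rfl this, Finset.prod_mul_distrib, Finset.prod_const,
      Finset.card_erase_of_mem (Finset.mem_univ i), Finset.card_univ, Fintype.card_fin]
  have hprodpos : 0 < ∏ j ∈ Finset.univ.erase i, (β i - β j) ^ 2 := by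
    refine Finset.prod_pos fun j hj => ?_
    have hji : j ≠ i := Finset.ne_of_mem_erase hj
    have : β i - β j ≠ 0 := sub_ne_zero.2 fun h => hji (hinj h).symm
    positivity
  have habs : |Xf b φ * Ek n (β i ^ 2) (Uk n (β i ^ 2) b) / (b ^ n * Wf n b φ)| =
      Xf b φ * Ek n (β i ^ 2) (Uk n (β i ^ 2) b) / (b ^ n * Wf n b φ) :=
    abs_of_pos (div_pos (mul_pos s1 h2) hw)
  rw [hprod, habs]
  unfold omk Dk
  exact term_eq hk hw s1 h2 (ha i) hprodpos s2

theorem Tf_FF (hn : 1 ≤ n) (ha : ∀ j, 0 < a j) (hb : 0 < b) {δ : ℝ} (hδ : 0 < δ) :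
    δ * Tf n (ev (FF β a δ)) b = 2 * (δ * ∫ p in (-(Real.pi / 2))..(Real.pi / 2),
      1 / (b ^ n * Wf n b p) /
        ∏ i, ((Yf n b p - β i * Xf b p) ^ 2 + δ ^ 2 * (a i * Xf b p) ^ 2)) := by
  rw [Tf_half (f := ev (FF β a δ)) (by
    intro x y
    rw [ev_FF, ev_FF]
    refine Finset.prod_congr rfl fun j _ => ?_
    simp only
    ring) (continuous_ev _) hn hb (fun z hz => ev_FF_pos hδ.ne' ha hz)]
  have hintegrand : ∀ p, 1 / (b ^ n * Wf n b p * ev (FF β a δ) (Xf b p, Yf n b p)) =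
      1 / (b ^ n * Wf n b p) /
        ∏ i, ((Yf n b p - β i * Xf b p) ^ 2 + δ ^ 2 * (a i * Xf b p) ^ 2) := by
    intro p
    rw [ev_FF, div_div]
  simp only [hintegrand]
  ring

/-- The spike limit of the period integral. -/
theorem tendsto_Tf (hn : 1 ≤ n) (hk : 1 ≤ k)
    (hβ : ∀ j, 1 < β j) (hinj : Function.Injective β) (ha : ∀ j, 0 < a j) (hb : 0 < b) :
    Tendsto (fun δ : ℝ => δ * Tf n (ev (FF β a δ)) b) (𝓝[>] 0)
      (𝓝 (∑ j, 2 * Real.pi / (a j * ∏ i ∈ Finset.univ.erase j, (β j - β i) ^ 2) *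
        omk n k (β j ^ 2) b)) := by
  have : Nonempty (Fin k) := ⟨⟨0, hk⟩⟩
  choose φ hφ1 hφ2 hφ0 hφne using fun j => exists_slope_point hn hb (hβ j)
  have hφI : ∀ j, φ j ∈ Icc (-(Real.pi / 2)) (Real.pi / 2) := fun j => ⟨(hφ1 j).le, (hφ2 j).le⟩
  have hsp := fun j => slope_point hn hb (hβ j) (hφI j) (hφ0 j)
  have hder := fun j => hasDerivAt_slope hn hb (hβ j) (hφI j) (hφ0 j)
  have c1 := cont_Yf n b
  have c2 := cont_Xf b
  have c3 := cont_Wf n b
  have hbn : 0 < b ^ n := pow_pos hb n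
  have hW := Wf_pos hn b
  have hκ : ∀ j, 1 ≤ β j ^ 2 := fun j => one_le_pow₀ (hβ j).le
  have hE := fun j => Ek_Uk_pos hn (hκ j) hb
  have hφinj : Function.Injective φ := by
    intro i j hij
    apply hinj
    have h1 := hφ0 i
    have h2 := hφ0 j
    rw [hij] at h1
    have h3 : (β i - β j) * Xf b (φ j) = 0 := by linear_combination h2 - h1
    rcases mul_eq_zero.1 h3 with h | h
    · linarith
    · exact absurd h (hsp j).1.ne'
  have cq : ∀ j, ContinuousOn (fun p => Yf n b p - β j * Xf b p)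
      (Icc (-(Real.pi / 2)) (Real.pi / 2)) := fun j =>
    (c1.sub (continuous_const.mul c2)).continuousOn
  have cp : ∀ j, ContinuousOn (fun p => a j * Xf b p)
      (Icc (-(Real.pi / 2)) (Real.pi / 2)) := fun j => (continuous_const.mul c2).continuousOn
  have hne : ∀ j, Xf b (φ j) * Ek n (β j ^ 2) (Uk n (β j ^ 2) b) / (b ^ n * Wf n b (φ j)) ≠ 0 :=
    fun j => (div_pos (mul_pos (hsp j).1 (hE j)) (mul_pos hbn (hW (φ j)))).ne'
  have hp0 : ∀ j, 0 < a j * Xf b (φ j) := fun j => mul_pos (ha j) (hsp j).1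
  have cG : ContinuousOn (fun p => 1 / (b ^ n * Wf n b p))
      (Icc (-(Real.pi / 2)) (Real.pi / 2)) :=
    Continuous.continuousOn (Continuous.div continuous_const (continuous_const.mul c3)
      fun p => (mul_pos hbn (hW p)).ne')
  have key := spike_multi hφ1 hφ2 hφinj cq cp hφ0 hφne hder hne hp0 cG
  have key2 := key.const_mul 2
  rw [Finset.mul_sum, Finset.sum_congr rfl fun i _ =>
    spike_sum_term hn hk hβ hinj ha hb i (hφI i) (hφ0 i)] at key2
  refine key2.congr' ?_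
  filter_upwards [self_mem_nhdsWithin] with δ hδ
  exact (Tf_FF hn ha hb hδ).symm

end

end Pool.Agent.CritPer
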