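import Pool.Agent.CritPer.Phi

/-!
The limit `hs n` of `Phi n`, the functions `Hk`, `Ek`, sub- and supersolutions.
-/

open Set Filter Topology MeasureTheory

namespace Pool.Agent.CritPer

/-- `Z_c(u) = e^(-u^n) (u + c u/(n u^n)) + Phi(u)`. -/
noncomputable def Zc (n : ℕ) (c u : ℝ) : ℝ :=
  Real.exp (-u ^ n) * (u + c * (u / (n * u ^ n))) + Phi n u

theorem Phi_bdd {n : ℕ} (hn : 1 ≤ n) {u : ℝ} (hu : 0 ≤ u) : Phi n u ≤ Zc n 1 1 := by
  have hz1 : ∀ u : ℝ, 0 < u → Phi n u ≤ Zc n 1 u := by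
    intro u hu
    unfold Zc
    have : 0 ≤ Real.exp (-u ^ n) * (u + 1 * (u / (n * u ^ n))) := by positivity
    linarith
  have hanti : AntitoneOn (Zc n 1) (Ici 1) := by
    have hd : ∀ z : ℝ, 1 ≤ z → HasDerivAt (Zc n 1)
        (Real.exp (-z ^ n) * (1 - 1 - 1 * ((n - 1) / (n * z ^ n)))) z :=
      fun z hz => hasDerivAt_Z hn 1 (by linarith)
    refine antitoneOn_of_deriv_nonpos (convex_Ici 1)
      (fun z hz => (hd z hz).continuousAt.continuousWithinAt)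
      (fun z hz => (hd z (interior_subset hz)).differentiableAt.differentiableWithinAt)
      (fun z hz => ?_)
    have hz' : (1 : ℝ) ≤ z := interior_subset hz
    rw [(hd z hz').deriv]
    have h1 : (1 : ℝ) ≤ n := by exact_mod_cast hn
    have h2 : 0 ≤ ((n : ℝ) - 1) / (n * z ^ n) := div_nonneg (by linarith) (by positivity)
    have h3 := Real.exp_pos (-z ^ n)
    nlinarith
  rcases le_total u 1 with h | h
  · exact ((strictMonoOn_Phi hn).monotoneOn hu (show (0:ℝ) ≤ 1 by norm_num) h).trans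
      (hz1 1 one_pos)
  · exact (hz1 u (by linarith)).trans (hanti (show (1:ℝ) ≤ 1 from le_rfl) h h)

theorem exists_lim_Phi {n : ℕ} (hn : 1 ≤ n) : ∃ l, Tendsto (Phi n) atTop (𝓝 l) := by
  have hmono : Monotone (fun u => Phi n (max u 0)) := by
    intro a b hab
    exact (strictMonoOn_Phi hn).monotoneOn (le_max_right a 0) (le_max_right b 0)
      (max_le_max hab le_rfl)
  have hbdd : BddAbove (range (fun u => Phi n (max u 0))) := by
    refine ⟨Zc n 1 1, ?_⟩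
    rintro _ ⟨u, rfl⟩
    exact Phi_bdd hn (le_max_right u 0)
  refine ⟨_, (tendsto_atTop_ciSup hmono hbdd).congr' ?_⟩
  filter_upwards [eventually_ge_atTop 0] with u hu
  rw [max_eq_left hu]

open Classical in
/-- The limit of `Phi n` at infinity. -/
noncomputable def hs (n : ℕ) : ℝ :=
  if h : ∃ l, Tendsto (Phi n) atTop (𝓝 l) then h.choose else 0

theorem tendsto_Phi {n : ℕ} (hn : 1 ≤ n) : Tendsto (Phi n) atTop (𝓝 (hs n)) := by
  unfold hs
  rw [dif_pos (exists_lim_Phi hn)]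
  exact (exists_lim_Phi hn).choose_spec

theorem Phi_lt_hs {n : ℕ} (hn : 1 ≤ n) {u : ℝ} (hu : 0 ≤ u) : Phi n u < hs n := by
  have h1 : Phi n u < Phi n (u + 1) := strictMonoOn_Phi hn hu (show (0:ℝ) ≤ u + 1 by linarith)
    (by linarith)
  refine h1.trans_le (ge_of_tendsto (tendsto_Phi hn) ?_)
  filter_upwards [eventually_ge_atTop (u + 1)] with v hv
  exact (strictMonoOn_Phi hn).monotoneOn (show (0:ℝ) ≤ u + 1 by linarith)
    (show (0:ℝ) ≤ v by linarith) hv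

theorem hs_pos {n : ℕ} (hn : 1 ≤ n) : 0 < hs n := by
  have := Phi_lt_hs hn le_rfl
  rwa [Phi_zero] at this

/-- Every level in `(0, hs)` is attained. -/
theorem exists_Phi_eq {n : ℕ} (hn : 1 ≤ n) {h : ℝ} (h0 : 0 < h) (h1 : h < hs n) :
    ∃ b, 0 < b ∧ Phi n (b ^ 2) = h := by
  obtain ⟨v, hv0, hv⟩ := ((eventually_ge_atTop (0 : ℝ)).and
    ((tendsto_Phi hn).eventually (lt_mem_nhds h1))).exists
  have hmem : h ∈ Ioo (Phi n 0) (Phi n v) := ⟨by rw [Phi_zero]; exact h0, hv⟩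
  obtain ⟨u, hu, hue⟩ := intermediate_value_Ioo hv0 (continuous_Phi n).continuousOn hmem
  refine ⟨Real.sqrt u, Real.sqrt_pos.2 hu.1, ?_⟩
  rw [Real.sq_sqrt hu.1.le, hue]

theorem tendsto_Zc {n : ℕ} (hn : 1 ≤ n) (c : ℝ) : Tendsto (Zc n c) atTop (𝓝 (hs n)) := by
  have h1 := tendsto_pow_mul_exp hn 1
  simp only [pow_one] at h1
  have hn0 : (0 : ℝ) < n := by exact_mod_cast hn
  have h2 : Tendsto (fun u : ℝ => 1 + c * (1 / ((n : ℝ) * u ^ n))) atTop (𝓝 (1 + c * 0)) := by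
    refine tendsto_const_nhds.add (tendsto_const_nhds.mul ?_)
    refine Tendsto.div_atTop tendsto_const_nhds ?_
    exact (tendsto_pow_atTop (by omega)).const_mul_atTop hn0
  have h3 := (h1.mul h2).add (tendsto_Phi hn)
  simp only [mul_zero, add_zero, zero_mul, zero_add] at h3
  refine h3.congr' ?_
  filter_upwards [eventually_gt_atTop 0] with u hu
  unfold Zc
  have : u ^ n ≠ 0 := (pow_pos hu n).ne'
  field_simp

/-- Supersolution. -/
theorem hs_le_Zc {n : ℕ} (hn : 1 ≤ n) {u : ℝ} (hu : 0 < u) : hs n ≤ Zc n 1 u := by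
  refine nonneg_of_antitone (f := Zc n 1)
    (f' := fun z => Real.exp (-z ^ n) * (1 - 1 - 1 * ((n - 1) / (n * z ^ n))))
    (fun z hz => hasDerivAt_Z hn 1 (hu.trans_le hz)) (fun z hz => ?_) (tendsto_Zc hn 1)
  have hz' : 0 < z := hu.trans_le hz
  have h1 : (1 : ℝ) ≤ n := by exact_mod_cast hn
  have h2 : 0 ≤ ((n : ℝ) - 1) / (n * z ^ n) := div_nonneg (by linarith) (by positivity)
  have h3 := Real.exp_pos (-z ^ n)
  nlinarith

/-- Subsolution. -/
theorem Zc_lt_hs {n : ℕ} (hn : 1 ≤ n) {c u : ℝ} (hu : 0 < u)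
    (hcu : 0 ≤ c) (hc : c * ((n - 1) / (n * u ^ n)) < 1 - c) : Zc n c u < hs n := by
  have h1 : (1 : ℝ) ≤ n := by exact_mod_cast hn
  have hd : ∀ z : ℝ, u ≤ z → HasDerivAt (Zc n c)
      (Real.exp (-z ^ n) * (1 - c - c * ((n - 1) / (n * z ^ n)))) z :=
    fun z hz => hasDerivAt_Z hn c (hu.trans_le hz)
  have hpos : ∀ z : ℝ, u ≤ z → 0 < Real.exp (-z ^ n) * (1 - c - c * ((n - 1) / (n * z ^ n))) := by
    intro z hz
    have hz' : 0 < z := hu.trans_le hz
    have h2 : ((n : ℝ) - 1) / (n * z ^ n) ≤ (n - 1) / (n * u ^ n) := by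
      apply div_le_div_of_nonneg_left (by linarith) (by positivity)
      exact mul_le_mul_of_nonneg_left (pow_le_pow_left₀ hu.le hz n) (by linarith)
    have h3 := mul_le_mul_of_nonneg_left h2 hcu
    refine mul_pos (Real.exp_pos _) ?_
    linarith
  have hmono : StrictMonoOn (Zc n c) (Ici u) := by
    apply strictMonoOn_of_deriv_pos (convex_Ici u)
      (fun z hz => (hd z hz).continuousAt.continuousWithinAt)
    intro z hz
    have hz' : u ≤ z := interior_subset hz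
    rw [(hd z hz').deriv]
    exact hpos z hz'
  have h2 : Zc n c u < Zc n c (u + 1) :=
    hmono self_mem_Ici (show u ≤ u + 1 by linarith) (by linarith)
  refine h2.trans_le (ge_of_tendsto (tendsto_Zc hn c) ?_)
  filter_upwards [eventually_ge_atTop (u + 1)] with v hv
  exact hmono.monotoneOn (show u ≤ u + 1 by linarith) (show u ≤ v by linarith) hv

/-- `H` on the ray of slope `sqrt κ`, as a function of `u = x^2`. -/
noncomputable def Hk (n : ℕ) (κ u : ℝ) : ℝ := Real.exp (-u ^ n) * (κ * u) + Phi n u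

/-- `E = κ - n u^n (κ - 1)`. -/
noncomputable def Ek (n : ℕ) (κ u : ℝ) : ℝ := κ - n * u ^ n * (κ - 1)

theorem hasDerivAt_Hk {n : ℕ} (hn : 1 ≤ n) (κ u : ℝ) :
    HasDerivAt (Hk n κ) (Real.exp (-u ^ n) * Ek n κ u) u := by
  have h1 : HasDerivAt (fun u : ℝ => -u ^ n) (-(n * u ^ (n - 1))) u := (hasDerivAt_pow n u).neg
  have h2 := h1.exp
  have h3 : HasDerivAt (fun u : ℝ => κ * u) (κ * 1) u := (hasDerivAt_id' u).const_mul κ
  have h4 := (h2.mul h3).add (hasDerivAt_Phi n u)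
  refine h4.congr_deriv ?_
  have hp : u ^ n = u * u ^ (n - 1) := by
    rw [← pow_succ']; congr 1; omega
  unfold Ek
  rw [hp]
  ring

theorem continuous_Hk {n : ℕ} (hn : 1 ≤ n) (κ : ℝ) : Continuous (Hk n κ) :=
  continuous_iff_continuousAt.2 fun u => (hasDerivAt_Hk hn κ u).continuousAt

theorem Hk_zero (n : ℕ) (κ : ℝ) : Hk n κ 0 = 0 := by simp [Hk, Phi_zero]

/-- Points below the level `hs` have `E > 0`. -/
theorem Ek_pos {n : ℕ} (hn : 1 ≤ n) {κ u : ℝ} (hκ : 1 ≤ κ) (hu : 0 ≤ u) (h : Hk n κ u ≤ hs n) :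
    0 < Ek n κ u ∨ (Ek n κ u ≤ 0 ∧ κ ≤ 1) := by
  by_contra hcon
  push Not at hcon
  obtain ⟨h1, h2⟩ := hcon
  have hκ1 := h2 h1
  rcases hu.eq_or_lt with h0 | hu0
  · rw [← h0] at h1
    unfold Ek at h1
    have : n ≠ 0 := by omega
    rw [zero_pow this] at h1
    linarith
  have hn0 : (0 : ℝ) < n := by exact_mod_cast hn
  have hun : 0 < (n : ℝ) * u ^ n := by positivity
  have h3 : κ ≤ n * u ^ n * (κ - 1) := by unfold Ek at h1; linarith
  have h4 : κ * (u / (n * u ^ n)) ≤ (κ - 1) * u := by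
    rw [← mul_div_assoc, div_le_iff₀ hun]
    nlinarith
  have h5 : 0 < u / (n * u ^ n) := by positivity
  have h6 : Zc n 1 u < Hk n κ u := by
    unfold Zc Hk
    have h7 : u + 1 * (u / (n * u ^ n)) < κ * u := by nlinarith
    have := mul_lt_mul_of_pos_left h7 (Real.exp_pos (-u ^ n))
    linarith
  have := hs_le_Zc hn hu0
  linarith

theorem Ek_pos' {n : ℕ} (hn : 1 ≤ n) {κ u : ℝ} (hκ : 1 ≤ κ) (hu : 0 ≤ u) (h : Hk n κ u ≤ hs n) :
    0 < Ek n κ u := by
  rcases Ek_pos hn hκ hu h with h1 | ⟨h1, h2⟩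
  · exact h1
  · have : κ = 1 := le_antisymm h2 hκ
    subst this
    simp [Ek]

/-- `E` is antitone in `u`. -/
theorem Ek_anti {n : ℕ} {κ u v : ℝ} (hκ : 1 ≤ κ) (hu : 0 ≤ u) (huv : u ≤ v) :
    Ek n κ v ≤ Ek n κ u := by
  unfold Ek
  have h1 : u ^ n ≤ v ^ n := pow_le_pow_left₀ hu huv n
  have h2 : (n : ℝ) * u ^ n * (κ - 1) ≤ n * v ^ n * (κ - 1) := by
    have : (0 : ℝ) ≤ n := Nat.cast_nonneg n
    exact mul_le_mul_of_nonneg_right (mul_le_mul_of_nonneg_left h1 this) (by linarith)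
  linarith

/-- `Hk` is strictly increasing up to a point where `E > 0`. -/
theorem Hk_strictMonoOn {n : ℕ} (hn : 1 ≤ n) {κ v : ℝ} (hκ : 1 ≤ κ) (hv : 0 < Ek n κ v) :
    StrictMonoOn (Hk n κ) (Icc 0 v) := by
  apply strictMonoOn_of_deriv_pos (convex_Icc 0 v) (continuous_Hk hn κ).continuousOn
  intro u hu
  rw [interior_Icc] at hu
  rw [(hasDerivAt_Hk hn κ u).deriv]
  exact mul_pos (Real.exp_pos _) (hv.trans_le (Ek_anti hκ hu.1.le hu.2.le))

/-- Comparison: two points of the ray with levels at most `hs`. -/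
theorem Hk_lt_iff {n : ℕ} (hn : 1 ≤ n) {κ u v : ℝ} (hκ : 1 ≤ κ) (hu : 0 ≤ u) (hv : 0 ≤ v)
    (hu' : Hk n κ u ≤ hs n) (hv' : Hk n κ v ≤ hs n) : Hk n κ u < Hk n κ v ↔ u < v := by
  have key : ∀ x y : ℝ, 0 ≤ x → 0 ≤ y → Hk n κ x ≤ hs n → Hk n κ y ≤ hs n → x < y →
      Hk n κ x < Hk n κ y := by
    intro x y hx hy _ hy' hxy
    exact Hk_strictMonoOn hn hκ (Ek_pos' hn hκ hy hy') ⟨hx, hxy.le⟩ ⟨hy, le_rfl⟩ hxy
  constructor
  · intro h
    by_contra hcon
    rcases (not_lt.1 hcon).eq_or_lt with h1 | h1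
    · rw [h1] at h; exact lt_irrefl _ h
    · exact absurd h (not_lt.2 (key v u hv hu hv' hu' h1).le)
  · exact key u v hu hv hu' hv'

theorem Hk_inj {n : ℕ} (hn : 1 ≤ n) {κ u v : ℝ} (hκ : 1 ≤ κ) (hu : 0 ≤ u) (hv : 0 ≤ v)
    (hu' : Hk n κ u ≤ hs n) (h : Hk n κ u = Hk n κ v) : u = v := by
  have hv' : Hk n κ v ≤ hs n := h ▸ hu'
  by_contra hne
  rcases lt_or_gt_of_ne hne with h1 | h1
  · exact absurd h ((Hk_lt_iff hn hκ hu hv hu' hv').2 h1).ne
  · exact absurd h ((Hk_lt_iff hn hκ hv hu hv' hu').2 h1).ne'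

/-- Existence of the point of the ray at a given level `< hs`. -/
theorem exists_Hk_eq {n : ℕ} (hn : 1 ≤ n) {κ h : ℝ} (hκ : 1 ≤ κ) (h0 : 0 < h) (h1 : h < hs n) :
    ∃ u, 0 < u ∧ Hk n κ u = h := by
  obtain ⟨v, hv0, hv⟩ := ((eventually_ge_atTop (0 : ℝ)).and
    ((tendsto_Phi hn).eventually (lt_mem_nhds h1))).exists
  have h2 : h < Hk n κ v := by
    unfold Hk
    have : 0 ≤ Real.exp (-v ^ n) * (κ * v) := by positivity
    linarith
  have hmem : h ∈ Ioo (Hk n κ 0) (Hk n κ v) := ⟨by rw [Hk_zero]; exact h0, h2⟩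
  obtain ⟨u, hu, hue⟩ := intermediate_value_Ioo hv0 (continuous_Hk hn κ).continuousOn hmem
  exact ⟨u, hu.1, hue⟩

/-- Existence of the point at level `hs` for `κ > 1`. -/
theorem exists_Hk_hs {n : ℕ} (hn : 1 ≤ n) {κ : ℝ} (hκ : 1 < κ) :
    ∃ u, 0 < u ∧ Hk n κ u = hs n := by
  have hn0 : (0 : ℝ) < n := by exact_mod_cast hn
  set y : ℝ := κ / (n * (κ - 1)) with hy
  have hκ1 : 0 < κ - 1 := by linarith
  have hypos : 0 < y := by positivity
  set v : ℝ := y ^ ((n : ℝ)⁻¹) with hv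
  have hvn : v ^ n = y := Real.rpow_inv_natCast_pow hypos.le (by omega)
  have hvpos : 0 < v := Real.rpow_pos_of_pos hypos _
  have hE : Ek n κ v = 0 := by
    unfold Ek
    rw [hvn, hy]
    field_simp
    ring
  have h1 : hs n < Hk n κ v := by
    by_contra hcon
    have := Ek_pos' hn hκ.le hvpos.le (not_lt.1 hcon)
    rw [hE] at this
    exact lt_irrefl _ this
  have hmem : hs n ∈ Ioo (Hk n κ 0) (Hk n κ v) := ⟨by rw [Hk_zero]; exact hs_pos hn, h1⟩
  obtain ⟨u, hu, hue⟩ := intermediate_value_Ioo hvpos.le (continuous_Hk hn κ).continuousOn hmem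
  exact ⟨u, hu.1, hue⟩

end Pool.Agent.CritPer
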