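import Pool.Agent.CritPer.Omega
import Pool.Agent.CritPer.Chain

/-!
The functions `ω_κ(b) = 1 / (u^k (κ - n u^n (κ-1)))` form a family `Fam`.
-/

open Set Filter Topology MeasureTheory

namespace Pool.Agent.CritPer

open Classical in
/-- The value of `x^2` at the point of slope `sqrt κ` of the orbit through `(b,0)`. -/
noncomputable def Uk (n : ℕ) (κ b : ℝ) : ℝ :=
  if h : ∃ u, 0 < u ∧ Hk n κ u = Phi n (b ^ 2) then h.choose else 1

theorem Uk_spec {n : ℕ} (hn : 1 ≤ n) {κ b : ℝ} (hκ : 1 ≤ κ) (hb : 0 < b) :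
    0 < Uk n κ b ∧ Hk n κ (Uk n κ b) = Phi n (b ^ 2) := by
  have h := exists_Hk_eq hn hκ (Phi_pos hn (pow_pos hb 2)) (Phi_lt_hs hn (sq_nonneg b))
  unfold Uk
  rw [dif_pos h]
  exact h.choose_spec

open Classical in
/-- The limit value of `Uk` at the outer boundary. -/
noncomputable def uinf (n : ℕ) (κ : ℝ) : ℝ :=
  if h : ∃ u, 0 < u ∧ Hk n κ u = hs n then h.choose else 1

theorem uinf_spec {n : ℕ} (hn : 1 ≤ n) {κ : ℝ} (hκ : 1 < κ) :
    0 < uinf n κ ∧ Hk n κ (uinf n κ) = hs n := by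
  have h := exists_Hk_hs hn hκ
  unfold uinf
  rw [dif_pos h]
  exact h.choose_spec

/-- `D(u) = u^k E(u)`. -/
noncomputable def Dk (n k : ℕ) (κ u : ℝ) : ℝ := u ^ k * Ek n κ u

/-- `ω_κ(b)`. -/
noncomputable def omk (n k : ℕ) (κ b : ℝ) : ℝ := 1 / Dk n k κ (Uk n κ b)

/-- The limit of `ω_κ`. -/
noncomputable def ell (n k : ℕ) (κ : ℝ) : ℝ := 1 / Dk n k κ (uinf n κ)

theorem Uk_level_lt {n : ℕ} (hn : 1 ≤ n) {κ b : ℝ} (hκ : 1 ≤ κ) (hb : 0 < b) :
    Hk n κ (Uk n κ b) < hs n := by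
  rw [(Uk_spec hn hκ hb).2]
  exact Phi_lt_hs hn (sq_nonneg b)

theorem Ek_Uk_pos {n : ℕ} (hn : 1 ≤ n) {κ b : ℝ} (hκ : 1 ≤ κ) (hb : 0 < b) :
    0 < Ek n κ (Uk n κ b) :=
  Ek_pos' hn hκ (Uk_spec hn hκ hb).1.le (Uk_level_lt hn hκ hb).le

theorem Dk_Uk_pos {n : ℕ} (hn : 1 ≤ n) (k : ℕ) {κ b : ℝ} (hκ : 1 ≤ κ) (hb : 0 < b) :
    0 < Dk n k κ (Uk n κ b) :=
  mul_pos (pow_pos (Uk_spec hn hκ hb).1 k) (Ek_Uk_pos hn hκ hb)

theorem omk_pos {n : ℕ} (hn : 1 ≤ n) (k : ℕ) {κ b : ℝ} (hκ : 1 ≤ κ) (hb : 0 < b) :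
    0 < omk n k κ b := one_div_pos.2 (Dk_Uk_pos hn k hκ hb)

theorem Ek_uinf_pos {n : ℕ} (hn : 1 ≤ n) {κ : ℝ} (hκ : 1 < κ) : 0 < Ek n κ (uinf n κ) :=
  Ek_pos' hn hκ.le (uinf_spec hn hκ).1.le (uinf_spec hn hκ).2.le

theorem Dk_uinf_pos {n : ℕ} (hn : 1 ≤ n) (k : ℕ) {κ : ℝ} (hκ : 1 < κ) :
    0 < Dk n k κ (uinf n κ) :=
  mul_pos (pow_pos (uinf_spec hn hκ).1 k) (Ek_uinf_pos hn hκ)

/-- `a < Uk` iff the level of `a` is smaller. -/
theorem lt_Uk_of {n : ℕ} (hn : 1 ≤ n) {κ b a : ℝ} (hκ : 1 ≤ κ) (hb : 0 < b) (ha : 0 ≤ a)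
    (h : Hk n κ a < Phi n (b ^ 2)) : a < Uk n κ b := by
  have h1 := Uk_spec hn hκ hb
  have h2 := Phi_lt_hs hn (sq_nonneg b)
  rw [← Hk_lt_iff hn hκ ha h1.1.le (h.trans h2).le (Uk_level_lt hn hκ hb).le, h1.2]
  exact h

theorem Ek_one (n : ℕ) (u : ℝ) : Ek n 1 u = 1 := by simp [Ek]

theorem Hk_one_lt_hs {n : ℕ} (hn : 1 ≤ n) {u : ℝ} (hu : 0 ≤ u) : Hk n 1 u < hs n := by
  rcases hu.eq_or_lt with h | h
  · rw [← h, Hk_zero]; exact hs_pos hn
  · have := Zc_lt_hs hn h (le_refl 0) (by norm_num)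
    unfold Zc at this
    unfold Hk
    simpa using this

theorem Hk_mono_kappa {n : ℕ} {κ κ' u : ℝ} (h : κ ≤ κ') (hu : 0 ≤ u) :
    Hk n κ u ≤ Hk n κ' u := by
  unfold Hk
  have := mul_le_mul_of_nonneg_left (mul_le_mul_of_nonneg_right h hu) (Real.exp_pos (-u ^ n)).le
  linarith

theorem Uk_le_one {n : ℕ} (hn : 1 ≤ n) {κ b : ℝ} (hκ : 1 ≤ κ) (hb : 0 < b) :
    Uk n κ b ≤ Uk n 1 b := by
  have h1 := Uk_spec hn hκ hb
  have h2 := Uk_spec hn le_rfl hb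
  by_contra hcon
  have hlt : Uk n 1 b < Uk n κ b := not_le.1 hcon
  have h3 := Hk_strictMonoOn hn hκ (Ek_Uk_pos hn hκ hb) ⟨h2.1.le, hlt.le⟩ ⟨h1.1.le, le_rfl⟩ hlt
  have h4 := Hk_mono_kappa (n := n) hκ h2.1.le
  rw [h2.2] at h4
  rw [h1.2] at h3
  linarith

theorem tendsto_Uk_kappa {n : ℕ} (hn : 1 ≤ n) {b : ℝ} (hb : 0 < b) :
    Tendsto (fun κ => Uk n κ b) (𝓝[>] 1) (𝓝 (Uk n 1 b)) := by
  have h2 := Uk_spec hn le_rfl hb
  rw [tendsto_order]
  constructor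
  · intro a ha
    set a' := max a (Uk n 1 b / 2) with ha'
    have h0 : 0 < a' := lt_max_of_lt_right (by linarith)
    have h1 : a' < Uk n 1 b := max_lt ha (by linarith)
    have h3 : Hk n 1 a' < Phi n (b ^ 2) := by
      rw [← h2.2]
      exact (Hk_lt_iff hn le_rfl h0.le h2.1.le (Hk_one_lt_hs hn h0.le).le
        (Hk_one_lt_hs hn h2.1.le).le).2 h1
    have hcont : Tendsto (fun κ => Hk n κ a') (𝓝[>] 1) (𝓝 (Hk n 1 a')) := by
      have : Continuous (fun κ => Hk n κ a') := by unfold Hk; fun_prop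
      exact (this.tendsto 1).mono_left nhdsWithin_le_nhds
    filter_upwards [hcont.eventually (gt_mem_nhds h3), self_mem_nhdsWithin] with κ hκ1 hκ2
    exact (le_max_left _ _).trans_lt (lt_Uk_of hn (le_of_lt hκ2) hb h0.le hκ1)
  · intro a ha
    filter_upwards [self_mem_nhdsWithin] with κ hκ
    exact (Uk_le_one hn (le_of_lt hκ) hb).trans_lt ha

theorem tendsto_omk_kappa {n : ℕ} (hn : 1 ≤ n) (k : ℕ) {b : ℝ} (hb : 0 < b) :
    Tendsto (fun κ => omk n k κ b) (𝓝[>] 1) (𝓝 (omk n k 1 b)) := by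
  have h1 := tendsto_Uk_kappa hn hb
  have hκ : Tendsto (fun κ : ℝ => κ) (𝓝[>] 1) (𝓝 1) := tendsto_id.mono_left nhdsWithin_le_nhds
  have h2 : Tendsto (fun κ => Dk n k κ (Uk n κ b)) (𝓝[>] 1) (𝓝 (Dk n k 1 (Uk n 1 b))) := by
    unfold Dk Ek
    exact (h1.pow k).mul (hκ.sub (((h1.pow n).const_mul (n : ℝ)).mul (hκ.sub_const 1)))
  exact tendsto_const_nhds.div h2 (Dk_Uk_pos hn k le_rfl hb).ne'

theorem Uk_lt_uinf {n : ℕ} (hn : 1 ≤ n) {κ b : ℝ} (hκ : 1 < κ) (hb : 0 < b) :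
    Uk n κ b < uinf n κ := by
  have h1 := uinf_spec hn hκ
  have h2 := Uk_spec hn hκ.le hb
  have h3 := Uk_level_lt hn hκ.le hb
  rw [← Hk_lt_iff hn hκ.le h2.1.le h1.1.le h3.le h1.2.le, h1.2]
  exact h3

theorem Phi_sq_tendsto {n : ℕ} (hn : 1 ≤ n) : Tendsto (fun b : ℝ => Phi n (b ^ 2)) atTop
    (𝓝 (hs n)) := (tendsto_Phi hn).comp (tendsto_pow_atTop two_ne_zero)

theorem Hk_lt_hs_of_lt {n : ℕ} (hn : 1 ≤ n) {κ a : ℝ} (hκ : 1 < κ) (ha : 0 ≤ a)
    (h : a < uinf n κ) : Hk n κ a < hs n := by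
  have h1 := uinf_spec hn hκ
  rw [← h1.2]
  exact Hk_strictMonoOn hn hκ.le (Ek_uinf_pos hn hκ) ⟨ha, h.le⟩ ⟨h1.1.le, le_rfl⟩ h

theorem tendsto_Uk {n : ℕ} (hn : 1 ≤ n) {κ : ℝ} (hκ : 1 < κ) :
    Tendsto (Uk n κ) atTop (𝓝 (uinf n κ)) := by
  have h1 := uinf_spec hn hκ
  rw [tendsto_order]
  constructor
  · intro a ha
    set a' := max a (uinf n κ / 2) with ha'
    have h0 : 0 < a' := lt_max_of_lt_right (by linarith)
    have h2 : a' < uinf n κ := max_lt ha (by linarith)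
    have h3 := Hk_lt_hs_of_lt hn hκ h0.le h2
    filter_upwards [(Phi_sq_tendsto hn).eventually (lt_mem_nhds h3), eventually_gt_atTop 0]
      with b hb1 hb2
    exact (le_max_left _ _).trans_lt (lt_Uk_of hn hκ.le hb2 h0.le hb1)
  · intro a ha
    filter_upwards [eventually_gt_atTop 0] with b hb
    exact (Uk_lt_uinf hn hκ hb).trans ha

theorem tendsto_Uk_one {n : ℕ} (hn : 1 ≤ n) : Tendsto (Uk n 1) atTop atTop := by
  rw [tendsto_atTop]
  intro R
  have h3 := Hk_one_lt_hs hn (le_max_right R 0)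
  filter_upwards [(Phi_sq_tendsto hn).eventually (lt_mem_nhds h3), eventually_gt_atTop 0]
    with b hb1 hb2
  exact (le_max_left _ _).trans (lt_Uk_of hn le_rfl hb2 (le_max_right _ _) hb1).le

theorem continuous_Dk (n k : ℕ) (κ : ℝ) : Continuous (Dk n k κ) := by
  unfold Dk Ek; fun_prop

theorem tendsto_omk {n : ℕ} (hn : 1 ≤ n) (k : ℕ) {κ : ℝ} (hκ : 1 < κ) :
    Tendsto (omk n k κ) atTop (𝓝 (ell n k κ)) := by
  have h2 : Tendsto (fun b => Dk n k κ (Uk n κ b)) atTop (𝓝 (Dk n k κ (uinf n κ))) :=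
    ((continuous_Dk n k κ).tendsto _).comp (tendsto_Uk hn hκ)
  exact tendsto_const_nhds.div h2 (Dk_uinf_pos hn k hκ).ne'

theorem hasDerivAt_Dk {n : ℕ} (hn : 1 ≤ n) {k : ℕ} (hk : 1 ≤ k) (κ u : ℝ) :
    HasDerivAt (Dk n k κ) (u ^ (k - 1) * (k * κ - (k + n) * (n * u ^ n * (κ - 1)))) u := by
  have h1 : HasDerivAt (fun u : ℝ => u ^ k) (k * u ^ (k - 1)) u := hasDerivAt_pow k u
  have h2 : HasDerivAt (fun u : ℝ => κ - (n : ℝ) * u ^ n * (κ - 1))
      (-((n : ℝ) * (n * u ^ (n - 1)) * (κ - 1))) u :=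
    (((hasDerivAt_pow n u).const_mul (n : ℝ)).mul_const (κ - 1)).const_sub κ
  have h3 := h1.mul h2
  refine h3.congr_deriv ?_
  have hp : u ^ n = u * u ^ (n - 1) := by
    rw [← pow_succ']; congr 1; omega
  have hp2 : u ^ k = u * u ^ (k - 1) := by
    rw [← pow_succ']; congr 1; omega
  rw [hp, hp2]
  ring

theorem Dk_strictAntiOn {n : ℕ} (hn : 1 ≤ n) {k : ℕ} (hk : 1 ≤ k) {κ v : ℝ} (hκ : 1 < κ)
    (hv : 0 < v) (h : k * κ ≤ (k + n) * (n * v ^ n * (κ - 1))) :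
    StrictAntiOn (Dk n k κ) (Ici v) := by
  apply strictAntiOn_of_deriv_neg (convex_Ici v) (continuous_Dk n k κ).continuousOn
  intro u hu
  rw [interior_Ici] at hu
  have hu' : v < u := hu
  rw [(hasDerivAt_Dk hn hk κ u).deriv]
  have hn0 : (0 : ℝ) < n := by exact_mod_cast hn
  have hk0 : (0 : ℝ) < k := by exact_mod_cast hk
  have h1 : v ^ n < u ^ n := pow_lt_pow_left₀ hu' hv.le (by omega)
  have h2 : (k + n) * (n * v ^ n * (κ - 1)) < (k + n) * (n * u ^ n * (κ - 1)) := by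
    have : 0 < κ - 1 := by linarith
    have e1 : (n : ℝ) * v ^ n < n * u ^ n := mul_lt_mul_of_pos_left h1 hn0
    exact mul_lt_mul_of_pos_left (mul_lt_mul_of_pos_right e1 this) (by positivity)
  have h3 : 0 < u ^ (k - 1) := pow_pos (hv.trans hu') _
  nlinarith

theorem eventually_ell_sub {n : ℕ} (hn : 1 ≤ n) {k : ℕ} (hk : 1 ≤ k) {κ : ℝ} (hκ : 1 < κ)
    {ε : ℝ} (hε : 0 < ε) :
    ∀ᶠ b in atTop, ell n k κ - omk n k κ b ≤ ε * omk n k 1 b := by
  have hD := Dk_uinf_pos hn k hκ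
  set R : ℝ → ℝ := fun u => 1 / Dk n k κ u with hR
  obtain ⟨R', hRd⟩ : ∃ R', HasDerivAt R R' (uinf n κ) := by
    have := (hasDerivAt_Dk hn hk κ (uinf n κ)).inv hD.ne'
    refine ⟨_, this.congr_of_eventuallyEq (Eventually.of_forall fun u => ?_)⟩
    rw [hR]; simp
  have hHd := hasDerivAt_Hk hn κ (uinf n κ)
  set H' : ℝ := Real.exp (-(uinf n κ) ^ n) * Ek n κ (uinf n κ) with hH'
  have hH'0 : H' ≠ 0 := (mul_pos (Real.exp_pos _) (Ek_uinf_pos hn hκ)).ne'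
  have hUne : Tendsto (Uk n κ) atTop (𝓝[≠] (uinf n κ)) := by
    rw [tendsto_nhdsWithin_iff]
    refine ⟨tendsto_Uk hn hκ, ?_⟩
    filter_upwards [eventually_gt_atTop 0] with b hb
    exact (Uk_lt_uinf hn hκ hb).ne
  have s1 := (hasDerivAt_iff_tendsto_slope.1 hRd).comp hUne
  have s2 := (hasDerivAt_iff_tendsto_slope.1 hHd).comp hUne
  have s3 := s1.div s2 hH'0
  -- the second factor
  have t1 : Tendsto (fun b => (hs n - Phi n (b ^ 2)) / omk n k 1 b) atTop (𝓝 0) := by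
    have t2 := (tendsto_pow_mul_exp hn (k + 1)).comp (tendsto_Uk_one hn)
    refine squeeze_zero' ?_ ?_ t2
    · filter_upwards [eventually_gt_atTop 0] with b hb
      exact div_nonneg (by linarith [Phi_lt_hs hn (sq_nonneg b)]) (omk_pos hn k le_rfl hb).le
    · filter_upwards [eventually_gt_atTop 0, (tendsto_Uk_one hn).eventually_ge_atTop 1]
        with b hb hU
      have h1 := Uk_spec hn le_rfl hb
      have h2 := hs_le_Zc hn h1.1
      set U := Uk n 1 b with hUdef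
      have h3 : omk n k 1 b = 1 / U ^ k := by
        unfold omk Dk
        rw [Ek_one, mul_one]
      have hn1 : (1 : ℝ) ≤ n := by exact_mod_cast hn
      have h4 : 1 * (U / (n * U ^ n)) ≤ U := by
        rw [one_mul, div_le_iff₀ (by positivity)]
        have h6 : 1 ≤ U ^ n := one_le_pow₀ hU
        have h7 : 1 ≤ (n : ℝ) * U ^ n := one_le_mul_of_one_le_of_one_le hn1 h6
        nlinarith
      have h5 : hs n - Phi n (b ^ 2) ≤ Real.exp (-U ^ n) * U := by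
        rw [← h1.2]
        unfold Zc at h2
        unfold Hk
        have := mul_le_mul_of_nonneg_left h4 (Real.exp_pos (-U ^ n)).le
        nlinarith
      rw [h3, div_div_eq_mul_div, div_one]
      have hUk : 0 < U ^ k := pow_pos h1.1 k
      calc (hs n - Phi n (b ^ 2)) * U ^ k ≤ (Real.exp (-U ^ n) * U) * U ^ k :=
            mul_le_mul_of_nonneg_right h5 hUk.le
        _ = ((fun u : ℝ => u ^ (k + 1) * Real.exp (-u ^ n)) ∘ Uk n 1) b := by
            simp only [Function.comp]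
            rw [← hUdef]
            ring
  have t3 := s3.mul t1
  rw [mul_zero] at t3
  filter_upwards [t3.eventually (gt_mem_nhds hε), eventually_gt_atTop 0] with b hb hb0
  have hU := Uk_spec hn hκ.le hb0
  have hinf := uinf_spec hn hκ
  have hlt := Uk_lt_uinf hn hκ hb0
  have hg := omk_pos hn k le_rfl hb0
  have hne : Uk n κ b - uinf n κ ≠ 0 := (sub_neg.2 hlt).ne
  have hHne : Hk n κ (Uk n κ b) - Hk n κ (uinf n κ) ≠ 0 := by
    rw [hU.2, hinf.2]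
    have := Phi_lt_hs hn (sq_nonneg b)
    exact (sub_neg.2 this).ne
  have hval : (slope R (uinf n κ) (Uk n κ b) / slope (Hk n κ) (uinf n κ) (Uk n κ b)) *
      ((hs n - Phi n (b ^ 2)) / omk n k 1 b) = (ell n k κ - omk n k κ b) / omk n k 1 b := by
    rw [slope_def_field, slope_def_field]
    have e1 : R (uinf n κ) = ell n k κ := rfl
    have e2 : R (Uk n κ b) = omk n k κ b := rfl
    rw [e1, e2, hU.2, hinf.2]
    rw [hU.2, hinf.2] at hHne
    have hHne2 : hs n - Phi n (b ^ 2) ≠ 0 := by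
      intro h
      apply hHne
      linarith
    field_simp
    ring
  simp only [Pi.div_apply, Function.comp] at hb
  rw [hval, div_lt_iff₀ hg] at hb
  exact hb.le

/-- The point where `D` is maximal. -/
noncomputable def us (n k : ℕ) (κ : ℝ) : ℝ :=
  ((k : ℝ) / (k + n) * κ / (n * (κ - 1))) ^ ((n : ℝ)⁻¹)

theorem us_spec {n : ℕ} (hn : 1 ≤ n) {k : ℕ} (hk : 1 ≤ k) {κ : ℝ} (hκ : 1 < κ) :
    0 < us n k κ ∧ us n k κ ^ n = (k : ℝ) / (k + n) * κ / (n * (κ - 1)) := by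
  have hn0 : (0 : ℝ) < n := by exact_mod_cast hn
  have hk0 : (0 : ℝ) < k := by exact_mod_cast hk
  have h1 : 0 < κ - 1 := by linarith
  have hy : 0 < (k : ℝ) / (k + n) * κ / (n * (κ - 1)) := by positivity
  exact ⟨Real.rpow_pos_of_pos hy _, Real.rpow_inv_natCast_pow hy.le (by omega)⟩

theorem us_eq {n : ℕ} (hn : 1 ≤ n) {k : ℕ} (hk : 1 ≤ k) {κ : ℝ} (hκ : 1 < κ) :
    n * us n k κ ^ n * (κ - 1) = (k : ℝ) / (k + n) * κ := by
  have hn0 : (0 : ℝ) < n := by exact_mod_cast hn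
  have h1 : 0 < κ - 1 := by linarith
  rw [(us_spec hn hk hκ).2]
  field_simp

theorem tendsto_us {n : ℕ} (hn : 1 ≤ n) {k : ℕ} (hk : 1 ≤ k) :
    Tendsto (us n k) (𝓝[>] 1) atTop := by
  have hn0 : (0 : ℝ) < n := by exact_mod_cast hn
  have hk0 : (0 : ℝ) < k := by exact_mod_cast hk
  unfold us
  refine (tendsto_rpow_atTop (by positivity : (0 : ℝ) < (n : ℝ)⁻¹)).comp ?_
  have h1 : Tendsto (fun κ : ℝ => (n : ℝ) * (κ - 1)) (𝓝[>] 1) (𝓝[>] 0) := by
    rw [tendsto_nhdsWithin_iff]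
    constructor
    · have : Tendsto (fun κ : ℝ => (n : ℝ) * (κ - 1)) (𝓝 1) (𝓝 ((n : ℝ) * (1 - 1))) :=
        Continuous.tendsto (by fun_prop) 1
      rw [sub_self, mul_zero] at this
      exact this.mono_left nhdsWithin_le_nhds
    · filter_upwards [self_mem_nhdsWithin] with κ hκ
      have : (1 : ℝ) < κ := hκ
      show (0 : ℝ) < n * (κ - 1)
      exact mul_pos hn0 (by linarith)
  have h2 := tendsto_inv_nhdsGT_zero.comp h1
  have h3 : Tendsto (fun κ : ℝ => (k : ℝ) / (k + n) * κ) (𝓝[>] 1) (𝓝 ((k : ℝ) / (k + n) * 1)) :=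
    (Continuous.tendsto (by fun_prop) 1).mono_left nhdsWithin_le_nhds
  have h4 := h3.pos_mul_atTop (by positivity) h2
  refine h4.congr fun κ => ?_
  simp only [Function.comp]
  exact (div_eq_mul_inv _ _).symm

theorem Hk_us {n : ℕ} (hn : 1 ≤ n) {k : ℕ} (hk : 1 ≤ k) {κ : ℝ} (hκ : 1 < κ) :
    Hk n κ (us n k κ) = Zc n ((k : ℝ) / (k + n) * κ) (us n k κ) := by
  have hn0 : (0 : ℝ) < n := by exact_mod_cast hn
  have h1 := us_eq hn hk hκ
  have h2 := (us_spec hn hk hκ).1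
  have hne : us n k κ ^ n ≠ 0 := (pow_pos h2 n).ne'
  unfold Hk Zc
  congr 2
  rw [← h1]
  field_simp
  ring

theorem eventually_Hk_us {n : ℕ} (hn : 1 ≤ n) {k : ℕ} (hk : 1 ≤ k) :
    ∀ᶠ κ in 𝓝[>] (1 : ℝ), Hk n κ (us n k κ) < hs n := by
  have hn0 : (0 : ℝ) < n := by exact_mod_cast hn
  have hk0 : (0 : ℝ) < k := by exact_mod_cast hk
  set c0 : ℝ := (k : ℝ) / (k + n) with hc0
  have hc0lt : c0 < 1 := by rw [hc0, div_lt_one (by positivity)]; linarith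
  have hc0pos : 0 < c0 := by positivity
  set c1 : ℝ := (1 + c0) / 2 with hc1
  have e1 : ∀ᶠ κ in 𝓝[>] (1 : ℝ), c0 * κ < c1 := by
    have : Tendsto (fun κ : ℝ => c0 * κ) (𝓝[>] 1) (𝓝 (c0 * 1)) :=
      (Continuous.tendsto (by fun_prop) 1).mono_left nhdsWithin_le_nhds
    exact this.eventually (gt_mem_nhds (by rw [hc1]; linarith))
  have e2 : ∀ᶠ κ in 𝓝[>] (1 : ℝ), c1 * ((n - 1) / (n * us n k κ ^ n)) < 1 - c1 := by
    have h1 : Tendsto (fun κ => (n : ℝ) * us n k κ ^ n) (𝓝[>] 1) atTop :=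
      ((tendsto_pow_atTop (by omega)).comp (tendsto_us hn hk)).const_mul_atTop hn0
    have h2 : Tendsto (fun κ => c1 * (((n : ℝ) - 1) / (n * us n k κ ^ n))) (𝓝[>] 1)
        (𝓝 (c1 * 0)) := (h1.const_div_atTop _).const_mul c1
    rw [mul_zero] at h2
    exact h2.eventually (gt_mem_nhds (by rw [hc1]; linarith))
  filter_upwards [e1, e2, self_mem_nhdsWithin] with κ h1 h2 hκ
  have hκ' : (1 : ℝ) < κ := hκ
  have hu := (us_spec hn hk hκ').1
  rw [Hk_us hn hk hκ']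
  have h3 : Zc n (c0 * κ) (us n k κ) ≤ Zc n c1 (us n k κ) := by
    unfold Zc
    have hq : 0 ≤ us n k κ / (n * us n k κ ^ n) := by positivity
    have h4 := mul_le_mul_of_nonneg_right h1.le hq
    have h5 := mul_le_mul_of_nonneg_left h4 (Real.exp_pos (-us n k κ ^ n)).le
    nlinarith
  exact h3.trans_lt (Zc_lt_hs hn hu (by positivity) h2)

theorem us_lt_uinf {n : ℕ} (hn : 1 ≤ n) {k : ℕ} (hk : 1 ≤ k) {κ : ℝ} (hκ : 1 < κ)
    (h : Hk n κ (us n k κ) < hs n) : us n k κ < uinf n κ := by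
  have h1 := uinf_spec hn hκ
  rw [← Hk_lt_iff hn hκ.le (us_spec hn hk hκ).1.le h1.1.le h.le h1.2.le, h1.2]
  exact h

theorem Dk_anti_us {n : ℕ} (hn : 1 ≤ n) {k : ℕ} (hk : 1 ≤ k) {κ : ℝ} (hκ : 1 < κ) :
    StrictAntiOn (Dk n k κ) (Ici (us n k κ)) := by
  refine Dk_strictAntiOn hn hk hκ (us_spec hn hk hκ).1 ?_
  rw [us_eq hn hk hκ]
  have hn0 : (0 : ℝ) < n := by exact_mod_cast hn
  have hk0 : (0 : ℝ) < k := by exact_mod_cast hk
  apply le_of_eq
  field_simp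

theorem exists_fam {n : ℕ} (hn : 1 ≤ n) {k : ℕ} (hk : 1 ≤ k) :
    ∃ κ0, Fam (omk n k 1) (omk n k) (ell n k) κ0 := by
  have hn0 : (0 : ℝ) < n := by exact_mod_cast hn
  have hk0 : (0 : ℝ) < k := by exact_mod_cast hk
  obtain ⟨κ0, hκ0, hsub⟩ := (mem_nhdsGT_iff_exists_Ioo_subset (a := (1 : ℝ))).1
    (eventually_Hk_us hn hk)
  have hκ0' : (1 : ℝ) < κ0 := hκ0
  have hus : ∀ κ, 1 < κ → κ < κ0 → Hk n κ (us n k κ) < hs n := fun κ h1 h2 => hsub ⟨h1, h2⟩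
  refine ⟨κ0, hκ0', fun b hb => omk_pos hn k le_rfl hb, ?_, ?_, ?_, ?_, ?_⟩
  · intro κ h1 h2
    have hlt := us_lt_uinf hn hk h1 (hus κ h1 h2)
    filter_upwards [(tendsto_Uk hn h1).eventually (lt_mem_nhds hlt), eventually_gt_atTop 0]
      with b hb hb0
    have h3 := Dk_anti_us hn hk h1 (show us n k κ ≤ Uk n κ b from hb.le)
      (show us n k κ ≤ uinf n κ from hlt.le) (Uk_lt_uinf hn h1 hb0)
    exact one_div_le_one_div_of_le (Dk_uinf_pos hn k h1) h3.le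
  · intro κ h1 _ ε hε
    exact eventually_ell_sub hn hk h1 hε
  · intro κ h1 _
    exact tendsto_omk hn k h1
  · intro b hb
    exact tendsto_omk_kappa hn k hb
  · intro c η hη
    have e1 := eventually_Hk_us hn hk
    have e2 := (tendsto_us hn hk).eventually (eventually_gt_atTop (max 1 (c ^ 2)))
    have e3 : ∀ᶠ κ in 𝓝[>] (1 : ℝ), (k + n) / (η * n) < us n k κ :=
      (tendsto_us hn hk).eventually (eventually_gt_atTop _)
    filter_upwards [e1, e2, e3, self_mem_nhdsWithin] with κ h1 h2 h3 hκ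
    have hκ' : (1 : ℝ) < κ := hκ
    obtain ⟨hu0, _⟩ := us_spec hn hk hκ'
    have hu1 : 1 < us n k κ := (le_max_left _ _).trans_lt h2
    have hu2 : c ^ 2 < us n k κ := (le_max_right _ _).trans_lt h2
    have hHpos : 0 < Hk n κ (us n k κ) := by
      unfold Hk
      have := Phi_nonneg hn hu0.le
      positivity
    obtain ⟨b, hb0, hb⟩ := exists_Phi_eq hn hHpos h1
    have hU := Uk_spec hn hκ'.le hb0
    have hUeq : Uk n κ b = us n k κ := by
      refine Hk_inj hn hκ'.le hU.1.le hu0.le (Uk_level_lt hn hκ'.le hb0).le ?_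
      rw [hU.2, hb]
    have hE : Ek n κ (us n k κ) = κ * (n / (k + n)) := by
      unfold Ek
      rw [us_eq hn hk hκ']
      field_simp
      ring
    have hom : omk n k κ b = 1 / Dk n k κ (us n k κ) := by unfold omk; rw [hUeq]
    have hDpos : 0 < Dk n k κ (us n k κ) := by rw [← hUeq]; exact Dk_Uk_pos hn k hκ'.le hb0
    refine ⟨b, ?_, ?_, ?_⟩
    · have h4 : Phi n (c ^ 2) < Phi n (b ^ 2) := by
        rw [hb]
        have h5 := strictMonoOn_Phi hn (sq_nonneg c) hu0.le hu2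
        unfold Hk
        have : 0 ≤ Real.exp (-us n k κ ^ n) * (κ * us n k κ) := by positivity
        linarith
      have h6 : c ^ 2 < b ^ 2 := by
        by_contra hcon
        have := (strictMonoOn_Phi hn).monotoneOn (sq_nonneg b) (sq_nonneg c) (not_lt.1 hcon)
        linarith
      exact lt_of_pow_lt_pow_left₀ 2 hb0.le h6
    · rw [hom, one_div_lt hDpos hη]
      have h7 : us n k κ ≤ us n k κ ^ k := le_self_pow₀ hu1.le (by omega)
      have h8 : us n k κ * (n / (k + n)) ≤ Dk n k κ (us n k κ) := by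
        unfold Dk
        rw [hE]
        have h9 : (n : ℝ) / (k + n) ≤ κ * (n / (k + n)) := by
          have : 0 ≤ (n : ℝ) / (k + n) := by positivity
          nlinarith
        exact mul_le_mul h7 h9 (by positivity) (by positivity)
      refine lt_of_lt_of_le ?_ h8
      have h10 : (k + n) / (η * n) * (n / (k + n)) < us n k κ * ((n : ℝ) / (k + n)) :=
        mul_lt_mul_of_pos_right h3 (by positivity)
      have h11 : ((k : ℝ) + n) / (η * n) * (n / (k + n)) = 1 / η := by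
        field_simp
      rwa [h11] at h10
    · rw [hom]
      unfold ell
      refine one_div_lt_one_div_of_lt (Dk_uinf_pos hn k hκ') ?_
      exact Dk_anti_us hn hk hκ' (show us n k κ ≤ us n k κ from le_rfl)
        (show us n k κ ≤ uinf n κ from (us_lt_uinf hn hk hκ' h1).le) (us_lt_uinf hn hk hκ' h1)

end Pool.Agent.CritPer
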